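import Pool.Agent.Helper33.KV.GoalsF2
import Pool.Agent.Helper48.KV.GoalsG1

/-!
# Project KV (`MP_66be51_an`), section F, part 3: energy inequality near the soliton, NEAR theorem

`v = inn α W t`, `z = a tauA + b tauB`, `V = W + zOut`, `inn V = v + z`, `eOut = u - V`, `inn eOut = etaI`.
-/

namespace Pool.Agent.Helper33.KV

open Real MeasureTheory Pool.Agent.Helper41.KV Pool.Agent.Helper48.KV

/-- The correction `a tauA + b tauB` in the original variables. -/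
noncomputable def zOut (α : ℝ) (Z V2 a b : ℝ → ℝ) : ℝ → ℝ → ℝ :=
  outr α (fun t y => a t * tauA α Z (rho α t) y + b t * tauB α Z V2 (rho α t) y)

/-- `V = W + zOut`. -/
noncomputable def vOut (α : ℝ) (Z V2 : ℝ → ℝ) (W : ℝ → ℝ → ℝ) (a b : ℝ → ℝ) (t x : ℝ) : ℝ :=
  W t x + zOut α Z V2 a b t x

/-- The modulated remainder in the original variables. -/
noncomputable def eOut (α : ℝ) (Z V2 : ℝ → ℝ) (u W : ℝ → ℝ → ℝ) (a b : ℝ → ℝ) (t x : ℝ) : ℝ :=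
  u t x - W t x - zOut α Z V2 a b t x

/-- The part of the source which is not a multiple of the tangent vectors (`a, b` numbers). -/
noncomputable def S0f (α : ℝ) (Z V2 : ℝ → ℝ) (W Wt : ℝ → ℝ → ℝ) (a b t y : ℝ) : ℝ :=
  resid α W Wt t y + a * srcA α Z V2 (inn α W t) (rho α t) y
    + b * srcB α Z V2 (inn α W t) (rho α t) y
    + deriv (fun x => (inn α W t x + (a * tauA α Z (rho α t) x + b * tauB α Z V2 (rho α t) x)) ^ 5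
        - inn α W t x ^ 5 - 5 * inn α W t x ^ 4 *
          (a * tauA α Z (rho α t) x + b * tauB α Z V2 (rho α t) x)) y

/-- **YEX (0.4 h).** The companion of a given profile. Hypotheses allowed: S_QF, S_ECL1, S_ECL2.
PROOF.  See the last lines of the proof of S_PROFZ (`Helper83/KV/F_PROFZ.lean`): `f = Z' + mΛQ ∈ IsE`
(`Z' = (Z - tanh 2y)' + 2 sech^2 2y`), `∫f = [Z] + m∫ΛQ = 2 - 2 = 0`, ECL2 gives `Y`. -/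
def S_YEX : Prop := ∀ Z : ℝ → ℝ, IsZ1 Z → ∃ Y : ℝ → ℝ, IsY1 Z Y

/-- **ZREG (1.2 h).** Regularity of the correction. Hypotheses allowed: S_CURVE, S_ECL1, S_QF, S_TAUB.
PROOF.  `zOut` is a sum of terms `F(t,x) = c(t) λ^{-1/2} f((x-σ)/λ)`, `f ∈ IsE` fixed
(`ΛQ, κyZ', Q', κZ', V2'-ccZ`; the last is in `IsE` by the tail formulas, see `dV2_E` in `Helper98/KV/FB.lean`), `c ∈ {a, aρ, b, bρ,
bρ^2}` differentiable within `[t1,t2]` with continuous derivative. `∂_x^kF = cλ^{-1/2-k}f^{(k)}(y)`, `y = (x-σ)/λ`, is jointly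
continuous, `∫(∂_x^kF)^2 = c^2λ^{-2k}∫(f^{(k)})^2`. `F_t := c'λ^{-1/2}f(y) - cλ^{-7/2}(f' + (2α+1)ρΛf)(y)` (`σ_t = λ^{-2}`,
`λ_t = (2α+1)ρλ^{-2}`) is of the same form, hence in `HInf`, and
`∂_t∂_x^kF = c'λ^{-1/2-k}f^{(k)} - cλ^{-7/2-k}[(1/2+k)(2α+1)ρf^{(k)} + f^{(k+1)} + (2α+1)ρyf^{(k+1)}] = ∂_x^kF_t`. -/
def S_ZREG : Prop :=
  ∀ (α : ℝ) (Z Y V2 : ℝ → ℝ), 0 < α → α < 1 → IsZ1 Z → IsY1 Z Y → IsV2 α Z V2 →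
    ∀ (t1 t2 : ℝ) (a b a' b' : ℝ → ℝ), 0 < t1 → t1 < t2 →
     ContinuousOn a' (Set.Icc t1 t2) → ContinuousOn b' (Set.Icc t1 t2) →
     (∀ t ∈ Set.Icc t1 t2, HasDerivWithinAt a (a' t) (Set.Icc t1 t2) t ∧
        HasDerivWithinAt b (b' t) (Set.Icc t1 t2) t) →
     ∃ zt : ℝ → ℝ → ℝ, HInf (zOut α Z V2 a b) t1 t2 ∧ HInf zt t1 t2 ∧
       HasTimeDeriv (zOut α Z V2 a b) zt t1 t2

/-- **SID (1.2 h).** The source and `DVf` in inner variables. Hypotheses allowed: S_PSI, S_CURVE, S_QF, S_ECL1,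
S_TAUB, S_FLUXP. The lemma `psi_inn` of `Helper70/KV/FPSI.lean` gives, for `F = V, e` with time derivative `Ft`,
`∂_t (inn F)(t,y) = λ^{-3}(λ^3 inn Ft + ∂_y inn F + (2α+1)ρΛ(inn F))`, so `λ^3 inn Ft + ∂_y inn F = λ^3∂_t inn F - (2α+1)ρΛ inn F`
(derivatives within `[t1,t2]` are unique, `t1 < t2`).
(1) `F = e`, with S_PSI (`inn eOut = etaI`, `inn V = inn u - etaI`): `λ^3 inn et = -∂_y(e_yy + (V+e)^5 - V^5) - Ψ`, and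
`Sin = λ^3 inn(et + e_xxx + (nG(V,e))_x) = λ^3 inn et + ∂_y(e_yy + nG(inn V, inn e))` (scaling: `λ^{7/2} = λ^{1/2}λ^3`,
`nG` is homogeneous of degree 5). Hence `Sin = -Ψ = -(A tauA + B tauB + S0f)`.
(2) `F = V`: `inn V = inn W + a tauA + b tauB`, differentiate in `t` (`ρ_t = 2αρ^2/λ^3`); the derivative of `inn W` within
`[t1,t2]` equals the one within `(0,T]`: both exist by `Bg.hinf` (use `psi_inn` for `W` on `[t/2, T]`) and the smaller set is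
a set of unique differentiability. -/
def S_SID : Prop :=
  ∀ (α : ℝ) (N0 : ℕ) (K T C : ℝ) (n : ℕ) (Z Y V2 : ℝ → ℝ) (W Wt r r' : ℝ → ℝ → ℝ),
    0 < α → α < 1 → 0 < T → IsZ1 Z → IsY1 Z Y → IsV2 α Z V2 → Bg α N0 K T C n Z V2 W Wt r r' →
    ∀ (u : ℝ → ℝ → ℝ) (t1 t2 : ℝ), 0 < t1 → t1 < t2 → t2 ≤ T → SmoothSol u t1 t2 →
     ∀ a b a' b' : ℝ → ℝ,
      (∀ t ∈ Set.Icc t1 t2, HasDerivWithinAt a (a' t) (Set.Icc t1 t2) t ∧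
        HasDerivWithinAt b (b' t) (Set.Icc t1 t2) t) →
      ∀ Vt et : ℝ → ℝ → ℝ, HInf (vOut α Z V2 W a b) t1 t2 → HInf Vt t1 t2 →
       HasTimeDeriv (vOut α Z V2 W a b) Vt t1 t2 → HInf (eOut α Z V2 u W a b) t1 t2 →
       HInf et t1 t2 → HasTimeDeriv (eOut α Z V2 u W a b) et t1 t2 →
      ∀ t ∈ Set.Icc t1 t2,
       (∀ y, inn α (vOut α Z V2 W a b) t y = inn α W t y +
          (a t * tauA α Z (rho α t) y + b t * tauB α Z V2 (rho α t) y)) ∧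
       (∀ y, inn α (eOut α Z V2 u W a b) t y = etaI α Z V2 u W a b t y) ∧
       ∀ y, Sin α (vOut α Z V2 W a b) (eOut α Z V2 u W a b) et t y =
          -AA α a b a' t * tauA α Z (rho α t) y + -BB α a b b' t * tauB α Z V2 (rho α t) y
            + -S0f α Z V2 W Wt (a t) (b t) t y ∧
        DVf α (vOut α Z V2 W a b) Vt t y =
          lam α t ^ 3 * derivWithin (fun τ => inn α W τ y) (Set.Ioc 0 T) t
          + lam α t ^ 3 * (a' t * tauA α Z (rho α t) y + b' t * tauB α Z V2 (rho α t) y)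
          + a t * (2 * α * rho α t ^ 2 * kap α * (y * deriv Z y))
          + b t * (2 * α * rho α t ^ 2 * kap α * deriv Z y
              + 4 * α * rho α t ^ 3 * (deriv V2 y - cc α * Z y))
          - (2 * α + 1) * rho α t * Lam (inn α (vOut α Z V2 W a b) t) y

/-- **DVB (0.8 h).** `DVf = O(ρ)`, static version. Hypotheses allowed: S_CURVE, S_QF, S_ECL1, S_TAUB.
PROOF.  `lam^3|a'| ≤ |A| + (5/2)(2α+1)ρ|a| + (4/IQ)|cc|ρ^2|b|`, `lam^3|b'| ≤ |B| + 2|a| + (2α+1)ρ|b|`, all `≤ Cρ`.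
`|λ^3∂_t inn W| ≤ Cρ^{5/4} ≤ Cρ` (`Bg.bt`). `Λ(inn V) = (v+z)/2 + y(v'+z')`: `|v| + |yv'| ≤ 4C` (`Bg.b0, b1`, `ρ ≤ 1`), `|z|, |yz'| ≤ C`
(S_TAUB and `|a|,|b| ≤ 1`). The remaining terms are `≤ Cρ^2(|a|+|b|)`. (S_TAUB gives a bound only for `ρ ≤ ρ1'`;
take `ρ1 ≤ ρ1'`.) -/
def S_DVB : Prop :=
  ∀ (α K C : ℝ) (n : ℕ) (Z Y V2 : ℝ → ℝ), 0 < α → α < 1 → IsZ1 Z → IsY1 Z Y → IsV2 α Z V2 →
   ∃ ρ1 C' : ℝ, 0 < ρ1 ∧ ∀ (N0 : ℕ) (T : ℝ) (W Wt r r' : ℝ → ℝ → ℝ), 0 < T → rho α T ≤ 1 →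
    Bg α N0 K T C n Z V2 W Wt r r' → ∀ t ∈ Set.Ioc 0 T, rho α t ≤ ρ1 → ∀ a b a' b' : ℝ → ℝ,
     |a t| ≤ rho α t → |b t| ≤ rho α t → |AA α a b a' t| ≤ rho α t → |BB α a b b' t| ≤ rho α t →
     ∀ y, |lam α t ^ 3 * derivWithin (fun τ => inn α W τ y) (Set.Ioc 0 T) t
          + lam α t ^ 3 * (a' t * tauA α Z (rho α t) y + b' t * tauB α Z V2 (rho α t) y)
          + a t * (2 * α * rho α t ^ 2 * kap α * (y * deriv Z y))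
          + b t * (2 * α * rho α t ^ 2 * kap α * deriv Z y
              + 4 * α * rho α t ^ 3 * (deriv V2 y - cc α * Z y))
          - (2 * α + 1) * rho α t * Lam (fun y => inn α W t y +
            (a t * tauA α Z (rho α t) y + b t * tauB α Z V2 (rho α t) y)) y| ≤ C' * rho α t

/-- **S0B (1.2 h).** Bounds of the source `S0f`. Hypotheses allowed: S_CURVE, S_QF, S_ECL1, S_TAUB, S_SRC, S_WTL.
PROOF.  Smoothness: `resid` is smooth in `y` by `Bg.hinf` (`Wt`, `flux W`), the others too. Pointwise: `|resid| ≤ ρ^{5/4}`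
(`Bg.rsup`), `|a srcA| ≤ ρ^2·C'ρ^2`, `|b srcB| ≤ ρ^2C'ρ^3` (S_SRC); the last term is
`∂_y[z^2(10v^3+10v^2z+5vz^2+z^3)]`, `|z|,|z_y|,|z_yy| ≤ C(|a|+|b|)e^{-(3/4)|y|}` (S_TAUB), `|v|,|v_y|,|v_yy| ≤ 2C`: with its derivative
`≤ C(a^2+b^2)e^{-|y|}`. So `|S0f| ≤ ρ^{5/4} + Cρ^4 ≤ ρ` for `ρ ≤ ρ1`. Norm: `(x1+x2+x3+x4)^2 ≤ 4Σxi^2`, `wt ≤ 1`,
`∫wt(resid^2+resid_y^2) ≤ Cρ^{2N0}` (`Bg.res`), the others by `∫e^{-|y|} = 2`. Integrability: `resid, resid_y ∈ L^2` by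
`Bg.hinf`. -/
def S_S0B : Prop :=
  ∀ (α K C : ℝ) (n : ℕ) (Z Y V2 : ℝ → ℝ), 0 < α → α < 1 → 64 ≤ K →
   IsZ1 Z → IsY1 Z Y → IsV2 α Z V2 →
   ∃ ρ1 C' : ℝ, 0 < ρ1 ∧ 0 < C' ∧ ∀ (N0 : ℕ) (T : ℝ) (W Wt r r' : ℝ → ℝ → ℝ), 0 < T → rho α T ≤ 1 →
    Bg α N0 K T C n Z V2 W Wt r r' → ∀ t ∈ Set.Ioc 0 T, rho α t ≤ ρ1 → ∀ a b : ℝ,
     |a| ≤ rho α t ^ 2 → |b| ≤ rho α t ^ 2 →
     ContDiff ℝ (⊤ : ℕ∞) (S0f α Z V2 W Wt a b t) ∧ (∀ y, |S0f α Z V2 W Wt a b t y| ≤ rho α t) ∧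
     Integrable (fun y => wt K (rho α t) y * (S0f α Z V2 W Wt a b t y ^ 2
        + deriv (S0f α Z V2 W Wt a b t) y ^ 2)) ∧
     (∫ y, wt K (rho α t) y * (S0f α Z V2 W Wt a b t y ^ 2
        + deriv (S0f α Z V2 W Wt a b t) y ^ 2)) ≤
      (C' * (rho α t ^ N0 + rho α t ^ 2 * |a| + rho α t ^ 3 * |b| + a ^ 2 + b ^ 2)) ^ 2

/-- **CONTD (0.6 h).** Continuity of the dissipation. Hypotheses allowed: S_CURVE, S_QF, S_ECL1, S_TAUB.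
PROOF.  As S_CONTQ (`Helper16/KV/F_CONTQ.lean`), with the second derivative and the weight `wt(1-wt)/K`. -/
def S_CONTD : Prop :=
  ∀ (α : ℝ) (N0 : ℕ) (K T C : ℝ) (n : ℕ) (Z Y V2 : ℝ → ℝ) (W Wt r r' : ℝ → ℝ → ℝ),
    0 < α → α < 1 → 64 ≤ K → 0 < T → IsZ1 Z → IsY1 Z Y → IsV2 α Z V2 →
    Bg α N0 K T C n Z V2 W Wt r r' →
    ∀ (u : ℝ → ℝ → ℝ) (t1 t2 : ℝ), 0 < t1 → t1 < t2 → t2 ≤ T → SmoothSol u t1 t2 →
     ∀ a b : ℝ → ℝ, ContinuousOn a (Set.Icc t1 t2) → ContinuousOn b (Set.Icc t1 t2) →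
      ContinuousOn (disp α K (etaI α Z V2 u W a b)) (Set.Icc t1 t2)

/-- **NEAR.** A priori theorem near the soliton for every smooth solution which starts at `W(t1) + g`, `g` supported in
`x ≤ -1`, small in `L^2`. (Assembly, done by helper33.) -/
def S_NEAR : Prop :=
  ∀ (α K C : ℝ) (n : ℕ) (Z Y V2 : ℝ → ℝ), 0 < α → α < 1 → 64 ≤ K →
   IsZ1 Z → IsY1 Z Y → IsV2 α Z V2 →
   ∃ N1 : ℕ, 6 ≤ N1 ∧ ∀ N N0 : ℕ, N1 ≤ N → N + 2 ≤ N0 → ∃ δ1 : ℝ, 0 < δ1 ∧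
   ∀ (T C2 M : ℝ) (W Wt r r' : ℝ → ℝ → ℝ), 0 < T → rho α T ≤ 1 →
    Bg α N0 K T C n Z V2 W Wt r r' → BgY α K T C2 M W Wt → ∀ ε : ℝ, 0 < ε →
   ∃ T1 : ℝ, 0 < T1 ∧ T1 ≤ T ∧
   ∀ (u : ℝ → ℝ → ℝ) (t1 t2 : ℝ), 0 < t1 → t1 < t2 → t2 ≤ T1 → SmoothSol u t1 t2 →
   ∀ g : ℝ → ℝ, ContDiff ℝ (⊤ : ℕ∞) g → (∀ x, u t1 x = W t1 x + g x) → (∀ x, -1 ≤ x → g x = 0) →
    MemLp g 2 → MemLp (deriv g) 2 → (∫ x, (g x ^ 2 + deriv g x ^ 2) * Real.exp x) ≤ 1 →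
    (∫ x, g x ^ 2) ≤ δ1 →
    ∃ a b a' b' : ℝ → ℝ, ContinuousOn a' (Set.Icc t1 t2) ∧ ContinuousOn b' (Set.Icc t1 t2) ∧
     ∀ t ∈ Set.Icc t1 t2,
      HasDerivWithinAt a (a' t) (Set.Icc t1 t2) t ∧ HasDerivWithinAt b (b' t) (Set.Icc t1 t2) t ∧
      (∫ y, etaI α Z V2 u W a b t y * Q y ^ 3) = 0 ∧
      (∫ y, etaI α Z V2 u W a b t y * deriv Q y) = 0 ∧
      |a t| ≤ rho α t ^ (N - 1) ∧ |b t| ≤ rho α t ^ (N - 2) ∧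
      hsq α K (etaI α Z V2 u W a b) t ≤ rho α t ^ (2 * N) ∧
      (∫ y, etaI α Z V2 u W a b t y ^ 2) ≤ 2 * (∫ x, g x ^ 2) + ε ∧
      |AA α a b a' t| + |BB α a b b' t| ≤ rho α t ^ (N - 1) ∧
      (∫ τ in t1..t, disp α K (etaI α Z V2 u W a b) τ / lam α τ ^ 3) ≤ rho α t ^ (2 * N)

/-- **EXI.** Existence of the solutions up to a common time, with the bounds. (Assembly, done by helper33.) -/
def S_EXI : Prop :=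
  ∀ (α K C : ℝ) (n : ℕ) (Z Y V2 : ℝ → ℝ), 0 < α → α < 1 → 64 ≤ K →
   IsZ1 Z → IsY1 Z Y → IsV2 α Z V2 →
   ∃ N1 : ℕ, 6 ≤ N1 ∧ ∀ N N0 : ℕ, N1 ≤ N → N + 2 ≤ N0 → ∃ δ1 : ℝ, 0 < δ1 ∧
   ∀ (T C2 M : ℝ) (W Wt r r' : ℝ → ℝ → ℝ), 0 < T → rho α T ≤ 1 →
    Bg α N0 K T C n Z V2 W Wt r r' → BgY α K T C2 M W Wt → ∀ ε : ℝ, 0 < ε →
   ∃ T1 : ℝ, 0 < T1 ∧ T1 ≤ T ∧
   ∀ (t1 : ℝ), 0 < t1 → t1 < T1 →
   ∀ g : ℝ → ℝ, ContDiff ℝ (⊤ : ℕ∞) g → (∀ k : ℕ, MemLp (iteratedDeriv k g) 2) →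
    (∀ x, -1 ≤ x → g x = 0) → (∫ x, (g x ^ 2 + deriv g x ^ 2) * Real.exp x) ≤ 1 →
    (∫ x, g x ^ 2) ≤ δ1 →
    ∃ u : ℝ → ℝ → ℝ, SmoothSol u t1 T1 ∧ (∀ x, u t1 x = W t1 x + g x) ∧
    ∃ a b a' b' : ℝ → ℝ, ContinuousOn a' (Set.Icc t1 T1) ∧ ContinuousOn b' (Set.Icc t1 T1) ∧
     ∀ t ∈ Set.Icc t1 T1,
      HasDerivWithinAt a (a' t) (Set.Icc t1 T1) t ∧ HasDerivWithinAt b (b' t) (Set.Icc t1 T1) t ∧
      (∫ y, etaI α Z V2 u W a b t y * Q y ^ 3) = 0 ∧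
      (∫ y, etaI α Z V2 u W a b t y * deriv Q y) = 0 ∧
      |a t| ≤ rho α t ^ (N - 1) ∧ |b t| ≤ rho α t ^ (N - 2) ∧
      hsq α K (etaI α Z V2 u W a b) t ≤ rho α t ^ (2 * N) ∧
      (∫ y, etaI α Z V2 u W a b t y ^ 2) ≤ 2 * (∫ x, g x ^ 2) + ε ∧
      |AA α a b a' t| + |BB α a b b' t| ≤ rho α t ^ (N - 1) ∧
      (∫ τ in t1..t, disp α K (etaI α Z V2 u W a b) τ / lam α τ ^ 3) ≤ rho α t ^ (2 * N)

end Pool.Agent.Helper33.KV
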