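import Pool.Agent.Helper33.KV.GoalsF2

/-!
The scalar bootstrap (file of helper65, adapted to the form of `S_BOOT` with `|A| + |B|`).
-/

namespace Pool.Agent.Helper33.KV.BootX

open Real MeasureTheory Set
open Pool.Agent.Helper33.KV

lemma mv_boot {f f' g g' : ℝ → ℝ} {t1 t2 : ℝ}
    (hf : ∀ t ∈ Icc t1 t2, HasDerivWithinAt f (f' t) (Icc t1 t2) t)
    (hg : ∀ t ∈ Icc t1 t2, HasDerivWithinAt g (g' t) (Icc t1 t2) t)
    (h : ∀ t ∈ Icc t1 t2, |f' t| ≤ g' t) :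
    ∀ t ∈ Icc t1 t2, |f t - f t1| ≤ g t - g t1 := by
  intro t ht
  have h1 : t1 ∈ Icc t1 t2 := ⟨le_rfl, ht.1.trans ht.2⟩
  have m1 : MonotoneOn (fun s => g s - f s) (Icc t1 t2) := by
    refine monotoneOn_of_hasDerivWithinAt_nonneg (f' := fun s => g' s - f' s) (convex_Icc _ _)
      (fun s hs => ((hg s hs).sub (hf s hs)).continuousWithinAt) ?_ ?_
    · exact fun s hs => ((hg s (interior_subset hs)).sub (hf s (interior_subset hs))).mono
        interior_subset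
    · intro s hs
      have := (abs_le.1 (h s (interior_subset hs))).2
      linarith
  have m2 : MonotoneOn (fun s => g s + f s) (Icc t1 t2) := by
    refine monotoneOn_of_hasDerivWithinAt_nonneg (f' := fun s => g' s + f' s) (convex_Icc _ _)
      (fun s hs => ((hg s hs).add (hf s hs)).continuousWithinAt) ?_ ?_
    · exact fun s hs => ((hg s (interior_subset hs)).add (hf s (interior_subset hs))).mono
        interior_subset
    · intro s hs
      have := (abs_le.1 (h s (interior_subset hs))).1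
      linarith
  have e1 := m1 h1 ht ht.1
  have e2 := m2 h1 ht ht.1
  simp only at e1 e2
  rw [abs_le]
  exact ⟨by linarith, by linarith⟩

/-- bound of an integral without integrability -/
lemma int_boot {f g : ℝ → ℝ} {a b : ℝ} (hab : a ≤ b) (hg : IntervalIntegrable g volume a b)
    (hg0 : ∀ x ∈ Icc a b, 0 ≤ g x) (h : ∀ x ∈ Icc a b, f x ≤ g x) :
    ∫ x in a..b, f x ≤ ∫ x in a..b, g x := by
  by_cases hf : IntervalIntegrable f volume a b
  · exact intervalIntegral.integral_mono_on hab hf hg h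
  · rw [intervalIntegral.integral_undef hf]
    exact intervalIntegral.integral_nonneg hab hg0

lemma hasDeriv_rho_pow {α : ℝ} (t : ℝ)
    (h : HasDerivAt (rho α) (2 * α * rho α t ^ 2 / lam α t ^ 3) t) (j : ℕ) (K : ℝ) :
    HasDerivAt (fun s => K * rho α s ^ j) (K * (2 * α * j * rho α t ^ (j + 1) / lam α t ^ 3)) t := by
  have h1 := (h.pow j).const_mul K
  refine h1.congr_deriv ?_
  rcases j with _ | i
  · simp
  · simp only [Nat.add_sub_cancel]
    push_cast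
    ring

section pointwise

variable {C r p x a b q A B e : ℝ}

lemma pw1 (hC : 0 < C) (hr : 0 < r) (hr1 : r ≤ 1) (hp : 0 < p) (hpr : p ≤ r ^ 4)
    (hx : x ≤ p * r ^ 2) (ha : |a| ≤ p * r) (hb : |b| ≤ p) (he : e ≤ p * r ^ 4)
    (h : |A| + |B| ≤ C * (x + r ^ 2 * |a| + r ^ 3 * |b| + a ^ 2 + b ^ 2 + e)) :
    |A| + |B| ≤ 6 * C * (p * r ^ 2) := by
  have r2 : r ^ 2 ≤ 1 := pow_le_one₀ hr.le hr1
  have r3 : r ^ 3 ≤ r ^ 2 := pow_le_pow_of_le_one hr.le hr1 (by norm_num)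
  have r4 : r ^ 4 ≤ r ^ 2 := pow_le_pow_of_le_one hr.le hr1 (by norm_num)
  have a2 : a ^ 2 ≤ (p * r) ^ 2 := sq_le_sq' (by linarith [(abs_le.1 ha).1]) (abs_le.1 ha).2
  have b2 : b ^ 2 ≤ p ^ 2 := sq_le_sq' (by linarith [(abs_le.1 hb).1]) (abs_le.1 hb).2
  have p2 : p ^ 2 ≤ p * r ^ 2 := by
    rw [sq]
    exact mul_le_mul_of_nonneg_left (hpr.trans r4) hp.le
  have e1 : r ^ 2 * |a| ≤ p * r ^ 2 := by
    calc r ^ 2 * |a| ≤ r ^ 2 * (p * r) := mul_le_mul_of_nonneg_left ha (by positivity)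
      _ = p * r ^ 3 := by ring
      _ ≤ p * r ^ 2 := mul_le_mul_of_nonneg_left r3 hp.le
  have e2 : r ^ 3 * |b| ≤ p * r ^ 2 := by
    calc r ^ 3 * |b| ≤ r ^ 3 * p := mul_le_mul_of_nonneg_left hb (by positivity)
      _ = p * r ^ 3 := by ring
      _ ≤ p * r ^ 2 := mul_le_mul_of_nonneg_left r3 hp.le
  have e3 : (p * r) ^ 2 ≤ p * r ^ 2 := by
    rw [mul_pow]
    have p1 : p ^ 2 ≤ p := by
      rw [sq]
      have : p ≤ 1 := hpr.trans (r4.trans r2)
      nlinarith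
    exact mul_le_mul_of_nonneg_right p1 (by positivity)
  have e4 : p * r ^ 4 ≤ p * r ^ 2 := mul_le_mul_of_nonneg_left r4 hp.le
  have hs : x + r ^ 2 * |a| + r ^ 3 * |b| + a ^ 2 + b ^ 2 + e ≤ 6 * (p * r ^ 2) := by linarith
  calc |A| + |B| ≤ _ := h
    _ ≤ C * (6 * (p * r ^ 2)) := mul_le_mul_of_nonneg_left hs hC.le
    _ = 6 * C * (p * r ^ 2) := by ring

lemma pw2 {D α M M' : ℝ} (hα0 : 0 < α) (hα : α < 1) (hr : 0 < r)
    (ha : |a| ≤ p * r) (hb : |b| ≤ p) (hM : |M'| ≤ M)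
    (hA : |A| ≤ 6 * C * (p * r ^ 2)) (hD : A = D + 5 / 2 * (2 * α + 1) * r * a - M' * r ^ 2 * b) :
    |D| ≤ (6 * C + 15 / 2 + M) * (p * r ^ 2) := by
  have e1 : D = A - 5 / 2 * (2 * α + 1) * r * a + M' * r ^ 2 * b := by linarith
  have e2 : |5 / 2 * (2 * α + 1) * r * a| ≤ 15 / 2 * (p * r ^ 2) := by
    rw [abs_mul, abs_of_pos (by positivity)]
    calc 5 / 2 * (2 * α + 1) * r * |a| ≤ 5 / 2 * 3 * r * (p * r) := by
          gcongr
          linarith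
      _ = 15 / 2 * (p * r ^ 2) := by ring
  have e3 : |M' * r ^ 2 * b| ≤ M * (p * r ^ 2) := by
    rw [abs_mul, abs_mul, abs_of_pos (by positivity : 0 < r ^ 2)]
    have hM0 : 0 ≤ M := (abs_nonneg _).trans hM
    calc |M'| * r ^ 2 * |b| ≤ M * r ^ 2 * p := by gcongr
      _ = M * (p * r ^ 2) := by ring
  rw [e1]
  have t1 := abs_add_le (A - 5 / 2 * (2 * α + 1) * r * a) (M' * r ^ 2 * b)
  have t2 := abs_sub A (5 / 2 * (2 * α + 1) * r * a)
  linarith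

lemma pw3 {D α : ℝ} (hα0 : 0 < α) (hα : α < 1) (hC : 0 < C) (hr : 0 < r) (hr1 : r ≤ 1)
    (hp : 0 < p) (ha : |a| ≤ p * r) (hb : |b| ≤ p)
    (hB : |B| ≤ 6 * C * (p * r ^ 2)) (hD : B = D + 2 * a + (2 * α + 1) * r * b) :
    |D| ≤ (6 * C + 5) * (p * r) := by
  have e1 : D = B - 2 * a - (2 * α + 1) * r * b := by linarith
  have e2 : |(2 * α + 1) * r * b| ≤ 3 * (p * r) := by
    rw [abs_mul, abs_of_pos (by positivity)]
    calc (2 * α + 1) * r * |b| ≤ 3 * r * p := by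
          gcongr
          linarith
      _ = 3 * (p * r) := by ring
  have e3 : |2 * a| ≤ 2 * (p * r) := by
    rw [abs_mul, abs_of_pos (by norm_num : (0 : ℝ) < 2)]
    linarith
  have e4 : p * r ^ 2 ≤ p * r := by
    refine mul_le_mul_of_nonneg_left ?_ hp.le
    nlinarith
  have e5 : 6 * C * (p * r ^ 2) ≤ 6 * C * (p * r) := mul_le_mul_of_nonneg_left e4 (by positivity)
  rw [e1]
  have t1 := abs_sub (B - 2 * a) ((2 * α + 1) * r * b)
  have t2 := abs_sub B (2 * a)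
  linarith

lemma pw4 {D α h2 : ℝ} (hα0 : 0 < α) (hα : α < 1) (hC : 0 < C) (hr : 0 < r) (hr1 : r ≤ 1)
    (hp : 0 < p) (hpr : p ≤ r ^ 4) (hx : x ≤ p * r ^ 2) (hh : h2 ≤ p ^ 2 * r ^ 4)
    (ha : |a| ≤ p * r) (hb : |b| ≤ p) (hq : |q| ≤ p * r ^ 3) (he : e ≤ p * r ^ 4)
    (hAB : |A| + |B| ≤ 6 * C * (p * r ^ 2))
    (hD : |D - 2 * (2 * α + 1) * r * q| ≤ C * (r ^ 2 * x + h2 + r ^ 3 * |a| + r ^ 4 * |b|
      + r ^ 2 * (|A| + |B|) + a ^ 2 + b ^ 2 + e)) :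
    |D| ≤ (6 + 7 * C + 6 * C ^ 2) * (p * r ^ 4) := by
  have r2 : r ^ 2 ≤ 1 := pow_le_one₀ hr.le hr1
  have r4 : r ^ 4 ≤ 1 := pow_le_one₀ hr.le hr1
  have p1 : p ≤ 1 := hpr.trans r4
  have a2 : a ^ 2 ≤ (p * r) ^ 2 := sq_le_sq' (by linarith [(abs_le.1 ha).1]) (abs_le.1 ha).2
  have b2 : b ^ 2 ≤ p ^ 2 := sq_le_sq' (by linarith [(abs_le.1 hb).1]) (abs_le.1 hb).2
  have p2 : p ^ 2 ≤ p * r ^ 4 := by
    rw [sq]
    exact mul_le_mul_of_nonneg_left hpr hp.le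
  have e1 : r ^ 3 * |a| ≤ p * r ^ 4 := by
    calc r ^ 3 * |a| ≤ r ^ 3 * (p * r) := mul_le_mul_of_nonneg_left ha (by positivity)
      _ = p * r ^ 4 := by ring
  have e2 : r ^ 4 * |b| ≤ p * r ^ 4 := by
    calc r ^ 4 * |b| ≤ r ^ 4 * p := mul_le_mul_of_nonneg_left hb (by positivity)
      _ = p * r ^ 4 := by ring
  have e3 : (p * r) ^ 2 ≤ p * r ^ 4 := by
    calc (p * r) ^ 2 = p ^ 2 * r ^ 2 := by ring
      _ ≤ p ^ 2 * 1 := mul_le_mul_of_nonneg_left r2 (by positivity)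
      _ ≤ p * r ^ 4 := by linarith
  have e4 : r ^ 2 * x ≤ p * r ^ 4 := by
    calc r ^ 2 * x ≤ r ^ 2 * (p * r ^ 2) := mul_le_mul_of_nonneg_left hx (by positivity)
      _ = p * r ^ 4 := by ring
  have e5 : p ^ 2 * r ^ 4 ≤ p * r ^ 4 := by
    refine mul_le_mul_of_nonneg_right ?_ (by positivity)
    nlinarith
  have e6 : r ^ 2 * (|A| + |B|) ≤ 6 * C * (p * r ^ 4) := by
    calc r ^ 2 * (|A| + |B|) ≤ r ^ 2 * (6 * C * (p * r ^ 2)) :=
          mul_le_mul_of_nonneg_left hAB (by positivity)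
      _ = 6 * C * (p * r ^ 4) := by ring
  have hs : r ^ 2 * x + h2 + r ^ 3 * |a| + r ^ 4 * |b| + r ^ 2 * (|A| + |B|) + a ^ 2 + b ^ 2 + e ≤
      (7 + 6 * C) * (p * r ^ 4) := by linarith
  have e7 : |D - 2 * (2 * α + 1) * r * q| ≤ C * ((7 + 6 * C) * (p * r ^ 4)) :=
    hD.trans (mul_le_mul_of_nonneg_left hs hC.le)
  have e8 : |2 * (2 * α + 1) * r * q| ≤ 6 * (p * r ^ 4) := by
    rw [abs_mul, abs_of_pos (by positivity)]
    calc 2 * (2 * α + 1) * r * |q| ≤ 2 * 3 * r * (p * r ^ 3) := by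
          gcongr
          linarith
      _ = 6 * (p * r ^ 4) := by ring
  have t1 := abs_add_le (D - 2 * (2 * α + 1) * r * q) (2 * (2 * α + 1) * r * q)
  rw [sub_add_cancel] at t1
  linarith

lemma pw5 {h2 e' : ℝ} (hC : 0 < C) (hr : 0 < r) (hr1 : r ≤ 1)
    (hp : 0 < p) (hpr : p ≤ r ^ 4) (hx : x ≤ p * r ^ 2) (hh : h2 ≤ p ^ 2 * r ^ 4)
    (ha : |a| ≤ p * r) (hb : |b| ≤ p) (hq : |q| ≤ p * r ^ 3) (he : e ≤ p * r ^ 4)
    (he0 : 0 ≤ e) (he' : e' ≤ p ^ 2 * r ^ 8)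
    (hAB : |A| + |B| ≤ 6 * C * (p * r ^ 2)) :
    r * h2 + (|A| + |B|) * |q| + x * (r * (|A| + |B|) + r ^ 2 * |a| + r ^ 3 * |b| + a ^ 2 + b ^ 2 + e)
      + e' ≤ (12 * C + 7) * (p ^ 2 * r ^ 5) := by
  have r2 : r ^ 2 ≤ 1 := pow_le_one₀ hr.le hr1
  have r4 : r ^ 4 ≤ 1 := pow_le_one₀ hr.le hr1
  have a2 : a ^ 2 ≤ (p * r) ^ 2 := sq_le_sq' (by linarith [(abs_le.1 ha).1]) (abs_le.1 ha).2
  have b2 : b ^ 2 ≤ p ^ 2 := sq_le_sq' (by linarith [(abs_le.1 hb).1]) (abs_le.1 hb).2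
  have p2 : p ^ 2 ≤ p * r ^ 4 := by
    rw [sq]
    exact mul_le_mul_of_nonneg_left hpr hp.le
  have r43 : r ^ 4 ≤ r ^ 3 := pow_le_pow_of_le_one hr.le hr1 (by norm_num)
  have p3 : p * r ^ 4 ≤ p * r ^ 3 := mul_le_mul_of_nonneg_left r43 hp.le
  have e3 : (p * r) ^ 2 ≤ p * r ^ 3 := by
    calc (p * r) ^ 2 = p ^ 2 * r ^ 2 := by ring
      _ ≤ p ^ 2 * 1 := mul_le_mul_of_nonneg_left r2 (by positivity)
      _ ≤ p * r ^ 3 := by linarith
  have e1 : r ^ 2 * |a| ≤ p * r ^ 3 := by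
    calc r ^ 2 * |a| ≤ r ^ 2 * (p * r) := mul_le_mul_of_nonneg_left ha (by positivity)
      _ = p * r ^ 3 := by ring
  have e2 : r ^ 3 * |b| ≤ p * r ^ 3 := by
    calc r ^ 3 * |b| ≤ r ^ 3 * p := mul_le_mul_of_nonneg_left hb (by positivity)
      _ = p * r ^ 3 := by ring
  have e4 : r * (|A| + |B|) ≤ 6 * C * (p * r ^ 3) := by
    calc r * (|A| + |B|) ≤ r * (6 * C * (p * r ^ 2)) := mul_le_mul_of_nonneg_left hAB hr.le
      _ = 6 * C * (p * r ^ 3) := by ring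
  have hs : r * (|A| + |B|) + r ^ 2 * |a| + r ^ 3 * |b| + a ^ 2 + b ^ 2 + e ≤
      (6 * C + 5) * (p * r ^ 3) := by linarith
  have hs0 : 0 ≤ r * (|A| + |B|) + r ^ 2 * |a| + r ^ 3 * |b| + a ^ 2 + b ^ 2 + e := by positivity
  have f1 : x * (r * (|A| + |B|) + r ^ 2 * |a| + r ^ 3 * |b| + a ^ 2 + b ^ 2 + e) ≤
      (6 * C + 5) * (p ^ 2 * r ^ 5) := by
    calc _ ≤ (p * r ^ 2) * ((6 * C + 5) * (p * r ^ 3)) :=
          mul_le_mul hx hs hs0 (by positivity)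
      _ = (6 * C + 5) * (p ^ 2 * r ^ 5) := by ring
  have f2 : r * h2 ≤ p ^ 2 * r ^ 5 := by
    calc r * h2 ≤ r * (p ^ 2 * r ^ 4) := mul_le_mul_of_nonneg_left hh hr.le
      _ = p ^ 2 * r ^ 5 := by ring
  have f3 : (|A| + |B|) * |q| ≤ 6 * C * (p ^ 2 * r ^ 5) := by
    calc (|A| + |B|) * |q| ≤ (6 * C * (p * r ^ 2)) * (p * r ^ 3) :=
          mul_le_mul hAB hq (abs_nonneg _) (by positivity)
      _ = 6 * C * (p ^ 2 * r ^ 5) := by ring
  have f4 : p ^ 2 * r ^ 8 ≤ p ^ 2 * r ^ 5 :=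
    mul_le_mul_of_nonneg_left (pow_le_pow_of_le_one hr.le hr1 (by norm_num)) (by positivity)
  linarith

end pointwise

lemma fin_boot {l d D w K m : ℝ} (hl : 0 < l) (hw : 0 ≤ w) (h : |l ^ 3 * d| ≤ D * w)
    (hD : D ≤ K * m) : |d| ≤ K * (m * w / l ^ 3) := by
  have hl3 : 0 < l ^ 3 := by positivity
  rw [abs_mul, abs_of_pos hl3] at h
  have e : K * (m * w / l ^ 3) = K * m * w / l ^ 3 := by ring
  rw [e, le_div_iff₀ hl3]
  calc |d| * l ^ 3 = l ^ 3 * |d| := mul_comm _ _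
    _ ≤ D * w := h
    _ ≤ K * m * w := mul_le_mul_of_nonneg_right hD hw

theorem thm_BOOT (hC : S_CURVE) : S_BOOT := by
  intro α C c hα0 hα1 hC0 hc0
  obtain ⟨hcur, hmono, -⟩ := hC α hα0 hα1
  obtain ⟨M, hM⟩ : ∃ M : ℝ, M = |4 / IQ * cc α| := ⟨_, rfl⟩
  have hM0 : 0 ≤ M := hM ▸ abs_nonneg _
  obtain ⟨S, hS⟩ : ∃ S : ℝ, S = 2 * (6 * C + 15 / 2 + M) + 2 * (6 * C + 5) +
    2 * (6 + 7 * C + 6 * C ^ 2) + C * (C * (12 * C + 7)) + C * (12 * C + 7) / c := ⟨_, rfl⟩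
  have hS1 : 0 < C * (C * (12 * C + 7)) := by positivity
  have hS2 : 0 < C * (12 * C + 7) / c := by positivity
  have hS3 : 0 < C ^ 2 := by positivity
  obtain ⟨n, hn⟩ := exists_nat_ge (S / α)
  refine ⟨n + 6, by omega, fun N N0 hN hN0 => ?_⟩
  obtain ⟨k, rfl⟩ : ∃ k, N = k + 2 := ⟨N - 2, by omega⟩
  have hk4 : 4 ≤ k := by omega
  have hSk : S ≤ α * k := by
    have h0 : (n : ℝ) ≤ k := by exact_mod_cast (by omega : n ≤ k)
    have h1 : S / α ≤ k := hn.trans h0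
    rw [div_le_iff₀ hα0] at h1
    linarith
  have hk0 : (0 : ℝ) ≤ k := Nat.cast_nonneg k
  refine ⟨min (1 / 4) (min (1 / (4 * C)) (c / 2)), by positivity,
    (min_le_left _ _).trans (by norm_num), ?_⟩
  intro t1 t2 a b q a' b' q' h2 Hf ds ht1 ht12 hρ _ _ _ _ H HI Ia Ib Iq IH
  have hpos : ∀ t ∈ Icc t1 t2, 0 < t := fun t ht => ht1.trans_le ht.1
  have hr : ∀ t ∈ Icc t1 t2, 0 < rho α t := fun t ht => (hcur t (hpos t ht)).2.2.1
  have hl : ∀ t ∈ Icc t1 t2, 0 < lam α t := fun t ht => (hcur t (hpos t ht)).2.1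
  have hle : ∀ t ∈ Icc t1 t2, rho α t ≤ min (1 / 4) (min (1 / (4 * C)) (c / 2)) :=
    fun t ht => (hmono t t2 (hpos t ht) ht.2).2.2.trans hρ
  have hr4 : ∀ t ∈ Icc t1 t2, rho α t ≤ 1 / 4 := fun t ht => (hle t ht).trans (min_le_left _ _)
  have hrC : ∀ t ∈ Icc t1 t2, C * rho α t ≤ 1 / 4 := by
    intro t ht
    have h1 : rho α t ≤ 1 / (4 * C) :=
      (hle t ht).trans ((min_le_right _ _).trans (min_le_left _ _))
    rw [le_div_iff₀ (by positivity)] at h1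
    linarith
  have hrc : ∀ t ∈ Icc t1 t2, rho α t ≤ c / 2 :=
    fun t ht => (hle t ht).trans ((min_le_right _ _).trans (min_le_right _ _))
  have hr1 : ∀ t ∈ Icc t1 t2, rho α t ≤ 1 := fun t ht => (hr4 t ht).trans (by norm_num)
  have hd : ∀ t ∈ Icc t1 t2, HasDerivAt (rho α) (2 * α * rho α t ^ 2 / lam α t ^ 3) t :=
    fun t ht => (hcur t (hpos t ht)).2.2.2.2.2.2.2
  have hdl : ∀ t ∈ Icc t1 t2, ContinuousAt (lam α) t :=
    fun t ht => (hcur t (hpos t ht)).2.2.2.2.2.2.1.continuousAt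
  have mt1 : t1 ∈ Icc t1 t2 := left_mem_Icc.2 ht12.le
  -- pointwise facts
  have P : ∀ t ∈ Icc t1 t2, 0 < rho α t ^ k ∧ rho α t ^ k ≤ rho α t ^ 4 ∧
      Real.sqrt (h2 t) ≤ rho α t ^ k * rho α t ^ 2 ∧
      h2 t ≤ (rho α t ^ k) ^ 2 * rho α t ^ 4 ∧ |a t| ≤ rho α t ^ k * rho α t ∧
      |b t| ≤ rho α t ^ k ∧ |q t| ≤ rho α t ^ k * rho α t ^ 3 ∧
      rho α t ^ N0 ≤ rho α t ^ k * rho α t ^ 4 ∧
      rho α t ^ (2 * N0) ≤ (rho α t ^ k) ^ 2 * rho α t ^ 8 := by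
    intro t ht
    obtain ⟨k1, k2, k3, k4, k5, k6, k7, k8, k9, k10, k11, k12⟩ := H t ht
    have r0 := hr t ht
    have r1 := hr1 t ht
    have e1 : rho α t ^ (2 * (k + 2)) = (rho α t ^ k) ^ 2 * rho α t ^ 4 := by ring
    have e2 : rho α t ^ (k + 2 - 1) = rho α t ^ k * rho α t := by
      rw [show k + 2 - 1 = k + 1 by omega]
      ring
    have e3 : rho α t ^ (k + 2 - 2) = rho α t ^ k := by
      rw [show k + 2 - 2 = k by omega]
    have e4 : rho α t ^ (k + 2 + 1) = rho α t ^ k * rho α t ^ 3 := by ring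
    rw [e1] at k9
    rw [e2] at k10
    rw [e3] at k11
    rw [e4] at k12
    refine ⟨by positivity, pow_le_pow_of_le_one r0.le r1 hk4, ?_, k9, k10, k11, k12, ?_, ?_⟩
    · refine Real.sqrt_le_iff.2 ⟨by positivity, k9.trans (le_of_eq (by ring))⟩
    · rw [← pow_add]
      exact pow_le_pow_of_le_one r0.le r1 (by omega)
    · rw [← pow_mul, ← pow_add]
      exact pow_le_pow_of_le_one r0.le r1 (by omega)
  have AB : ∀ t ∈ Icc t1 t2, |AA α a b a' t| + |BB α a b b' t| ≤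
      6 * C * (rho α t ^ k * rho α t ^ 2) := by
    intro t ht
    obtain ⟨k1, k2, k3, k4, k5, k6, k7, k8, k9, k10, k11, k12⟩ := H t ht
    obtain ⟨p1, p2, p3, p4, p5, p6, p7, p8, p9⟩ := P t ht
    exact pw1 hC0 (hr t ht) (hr1 t ht) p1 p2 p3 p5 p6 p8 k7
  have hmon : ∀ t ∈ Icc t1 t2, ∀ j : ℕ, rho α t1 ^ j ≤ rho α t ^ j := fun t ht j =>
    pow_le_pow_left₀ (hr t1 mt1).le (hmono t1 t ht1 ht.1).2.2 j
  -- the function a
  have Ba : ∀ t ∈ Icc t1 t2, |a t| ≤ rho α t ^ (k + 2 - 1) / 2 := by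
    intro t ht
    have hmv := mv_boot (f := a) (f' := a') (g := fun s => 1 / 4 * rho α s ^ (k + 1))
      (g' := fun t => 1 / 4 * (2 * α * ((k + 1 : ℕ) : ℝ) * rho α t ^ (k + 1 + 1) / lam α t ^ 3))
      (fun s hs => (H s hs).2.2.2.1)
      (fun s hs => (hasDeriv_rho_pow s (hd s hs) (k + 1) (1 / 4)).hasDerivWithinAt) ?_ t ht
    · have r0 := hr t ht
      obtain ⟨p1, p2, p3, p4, p5, p6, p7, p8, p9⟩ := P t ht
      have h1 : |a t1| ≤ rho α t ^ k * rho α t ^ 4 := (Ia.trans (hmon t ht N0)).trans p8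
      have h3 : 0 ≤ rho α t1 ^ (k + 1) := (pow_pos (hr t1 mt1) _).le
      have h4 : rho α t ^ k * rho α t ^ 4 ≤ 1 / 4 * (rho α t ^ k * rho α t) := by
        have h5 : rho α t ^ 4 ≤ 1 / 4 * rho α t := by
          have h6 : rho α t ^ 2 ≤ 1 := pow_le_one₀ r0.le (hr1 t ht)
          have h7 := hr4 t ht
          calc rho α t ^ 4 = rho α t * rho α t * rho α t ^ 2 := by ring
            _ ≤ rho α t * rho α t * 1 := mul_le_mul_of_nonneg_left h6 (by positivity)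
            _ ≤ 1 / 4 * rho α t := by nlinarith
        calc rho α t ^ k * rho α t ^ 4 ≤ rho α t ^ k * (1 / 4 * rho α t) :=
              mul_le_mul_of_nonneg_left h5 p1.le
          _ = 1 / 4 * (rho α t ^ k * rho α t) := by ring
      have h8 : |a t| ≤ |a t - a t1| + |a t1| := by
        have := abs_add_le (a t - a t1) (a t1)
        rwa [sub_add_cancel] at this
      rw [show k + 2 - 1 = k + 1 by omega, pow_succ]
      simp only [pow_succ (rho α t) k] at hmv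
      linarith
    · intro s hs
      obtain ⟨p1, p2, p3, p4, p5, p6, p7, p8, p9⟩ := P s hs
      have hA : |AA α a b a' s| ≤ 6 * C * (rho α s ^ k * rho α s ^ 2) := by
        linarith [AB s hs, abs_nonneg (BB α a b b' s)]
      have h1 := pw2 (D := lam α s ^ 3 * a' s) (A := AA α a b a' s) (M' := 4 / IQ * cc α)
        hα0 hα1 (hr s hs) p5 p6 hM.ge hA rfl
      have h2 : rho α s ^ k * rho α s ^ 2 = rho α s ^ (k + 1 + 1) := by ring
      rw [h2] at h1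
      refine fin_boot (hl s hs) (pow_pos (hr s hs) _).le h1 ?_
      push_cast
      nlinarith
  have Bb : ∀ t ∈ Icc t1 t2, |b t| ≤ rho α t ^ (k + 2 - 2) / 2 := by
    intro t ht
    have hmv := mv_boot (f := b) (f' := b') (g := fun s => 1 / 4 * rho α s ^ k)
      (g' := fun t => 1 / 4 * (2 * α * (k : ℝ) * rho α t ^ (k + 1) / lam α t ^ 3))
      (fun s hs => (H s hs).2.2.2.2.1)
      (fun s hs => (hasDeriv_rho_pow s (hd s hs) k (1 / 4)).hasDerivWithinAt) ?_ t ht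
    · have r0 := hr t ht
      obtain ⟨p1, p2, p3, p4, p5, p6, p7, p8, p9⟩ := P t ht
      have h1 : |b t1| ≤ rho α t ^ k * rho α t ^ 4 := (Ib.trans (hmon t ht N0)).trans p8
      have h3 : 0 ≤ rho α t1 ^ k := (pow_pos (hr t1 mt1) _).le
      have h4 : rho α t ^ k * rho α t ^ 4 ≤ 1 / 4 * rho α t ^ k := by
        have h5 : rho α t ^ 4 ≤ 1 / 4 := by
          have h6 : rho α t ^ 3 ≤ 1 := pow_le_one₀ r0.le (hr1 t ht)
          have h7 := hr4 t ht
          calc rho α t ^ 4 = rho α t * rho α t ^ 3 := by ring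
            _ ≤ rho α t * 1 := mul_le_mul_of_nonneg_left h6 r0.le
            _ ≤ 1 / 4 := by linarith
        calc rho α t ^ k * rho α t ^ 4 ≤ rho α t ^ k * (1 / 4) :=
              mul_le_mul_of_nonneg_left h5 p1.le
          _ = 1 / 4 * rho α t ^ k := by ring
      have h8 : |b t| ≤ |b t - b t1| + |b t1| := by
        have := abs_add_le (b t - b t1) (b t1)
        rwa [sub_add_cancel] at this
      rw [show k + 2 - 2 = k by omega]
      linarith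
    · intro s hs
      obtain ⟨p1, p2, p3, p4, p5, p6, p7, p8, p9⟩ := P s hs
      have hB : |BB α a b b' s| ≤ 6 * C * (rho α s ^ k * rho α s ^ 2) := by
        linarith [AB s hs, abs_nonneg (AA α a b a' s)]
      have h1 := pw3 (D := lam α s ^ 3 * b' s) (B := BB α a b b' s)
        hα0 hα1 hC0 (hr s hs) (hr1 s hs) p1 p5 p6 hB rfl
      have h2 : rho α s ^ k * rho α s = rho α s ^ (k + 1) := by ring
      rw [h2] at h1
      refine fin_boot (hl s hs) (pow_pos (hr s hs) _).le h1 ?_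
      nlinarith
  have Bq : ∀ t ∈ Icc t1 t2, |q t| ≤ rho α t ^ (k + 2 + 1) / 2 := by
    intro t ht
    have hmv := mv_boot (f := q) (f' := q') (g := fun s => 1 / 4 * rho α s ^ (k + 3))
      (g' := fun t => 1 / 4 * (2 * α * ((k + 3 : ℕ) : ℝ) * rho α t ^ (k + 3 + 1) / lam α t ^ 3))
      (fun s hs => (H s hs).2.2.2.2.2.1)
      (fun s hs => (hasDeriv_rho_pow s (hd s hs) (k + 3) (1 / 4)).hasDerivWithinAt) ?_ t ht
    · have r0 := hr t ht
      obtain ⟨p1, p2, p3, p4, p5, p6, p7, p8, p9⟩ := P t ht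
      have h1 : |q t1| ≤ rho α t ^ k * rho α t ^ 4 := (Iq.trans (hmon t ht N0)).trans p8
      have h3 : 0 ≤ rho α t1 ^ (k + 3) := (pow_pos (hr t1 mt1) _).le
      have h4 : rho α t ^ k * rho α t ^ 4 ≤ 1 / 4 * rho α t ^ (k + 3) := by
        have h7 := hr4 t ht
        calc rho α t ^ k * rho α t ^ 4 = rho α t ^ (k + 3) * rho α t := by ring
          _ ≤ rho α t ^ (k + 3) * (1 / 4) := mul_le_mul_of_nonneg_left h7 (by positivity)
          _ = 1 / 4 * rho α t ^ (k + 3) := by ring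
      have h8 : |q t| ≤ |q t - q t1| + |q t1| := by
        have := abs_add_le (q t - q t1) (q t1)
        rwa [sub_add_cancel] at this
      rw [show k + 2 + 1 = k + 3 by omega]
      linarith
    · intro s hs
      obtain ⟨k1, k2, k3, k4, k5, k6, k7, k8, k9, k10, k11, k12⟩ := H s hs
      obtain ⟨p1, p2, p3, p4, p5, p6, p7, p8, p9⟩ := P s hs
      have h1 := pw4 (D := lam α s ^ 3 * q' s) (A := AA α a b a' s) (B := BB α a b b' s)
        hα0 hα1 hC0 (hr s hs) (hr1 s hs) p1 p2 p3 p4 p5 p6 p7 p8 (AB s hs) k8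
      have h2 : rho α s ^ k * rho α s ^ 4 = rho α s ^ (k + 3 + 1) := by ring
      rw [h2] at h1
      refine fin_boot (hl s hs) (pow_pos (hr s hs) _).le h1 ?_
      push_cast
      nlinarith
  -- the energy
  obtain ⟨K5, hK5⟩ : ∃ K5 : ℝ, K5 = C * (12 * C + 7) / (4 * α * (k + 2)) := ⟨_, rfl⟩
  have hK50 : 0 < K5 := by
    rw [hK5]
    positivity
  have hK5C : C * K5 ≤ 1 / 4 := by
    rw [hK5, ← mul_div_assoc, div_le_iff₀ (by positivity)]
    nlinarith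
  have hK5c : K5 ≤ c / 4 := by
    rw [hK5, div_le_iff₀ (by positivity)]
    have h1 : C * (12 * C + 7) / c ≤ α * k := by
      have : 0 < 2 * (6 * C + 15 / 2 + M) + 2 * (6 * C + 5) + 2 * (6 + 7 * C + 6 * C ^ 2) := by
        positivity
      linarith
    rw [div_le_iff₀ hc0] at h1
    nlinarith [mul_pos hα0 hc0]
  have EN : ∀ t ∈ Icc t1 t2, Hf t - Hf t1 + c * (∫ τ in t1..t, ds τ / lam α τ ^ 3) ≤
      K5 * rho α t ^ (2 * (k + 2)) := by
    intro t ht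
    have hsub : ∀ τ ∈ Icc t1 t, τ ∈ Icc t1 t2 := fun τ hτ => ⟨hτ.1, hτ.2.trans ht.2⟩
    refine (HI t1 mt1 t ht ht.1).trans ?_
    have hgc : ContinuousOn (fun τ => K5 * (2 * α * ((2 * (k + 2) : ℕ) : ℝ) *
        rho α τ ^ (2 * (k + 2) + 1) / lam α τ ^ 3)) (Icc t1 t) := by
      intro τ hτ
      have c1 : ContinuousAt (rho α) τ := (hd τ (hsub τ hτ)).continuousAt
      have c2 : ContinuousAt (lam α) τ := hdl τ (hsub τ hτ)
      have c3 : lam α τ ^ 3 ≠ 0 := (pow_pos (hl τ (hsub τ hτ)) 3).ne'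
      exact (continuousAt_const.mul (((continuousAt_const.mul (c1.pow _)).div
        (c2.pow 3) c3))).continuousWithinAt
    have hgi : IntervalIntegrable (fun τ => K5 * (2 * α * ((2 * (k + 2) : ℕ) : ℝ) *
        rho α τ ^ (2 * (k + 2) + 1) / lam α τ ^ 3)) volume t1 t :=
      hgc.intervalIntegrable_of_Icc ht.1
    have hftc := intervalIntegral.integral_eq_sub_of_hasDerivAt
      (f := fun s => K5 * rho α s ^ (2 * (k + 2)))
      (fun τ hτ => hasDeriv_rho_pow τ (hd τ (hsub τ (by rwa [uIcc_of_le ht.1] at hτ)))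
        (2 * (k + 2)) K5) hgi
    have hle2 := int_boot (f := fun τ => (C / lam α τ ^ 3) * (rho α τ * h2 τ
          + (|AA α a b a' τ| + |BB α a b b' τ|) * |q τ|
          + Real.sqrt (h2 τ) * (rho α τ * (|AA α a b a' τ| + |BB α a b b' τ|)
              + rho α τ ^ 2 * |a τ|
              + rho α τ ^ 3 * |b τ| + a τ ^ 2 + b τ ^ 2 + rho α τ ^ N0)
          + rho α τ ^ (2 * N0))) ht.1 hgi ?_ ?_
    · refine hle2.trans ?_
      rw [hftc]
      have : 0 ≤ K5 * rho α t1 ^ (2 * (k + 2)) := mul_nonneg hK50.le (pow_pos (hr t1 mt1) _).le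
      linarith
    · intro τ hτ
      have := hr τ (hsub τ hτ)
      have := hl τ (hsub τ hτ)
      positivity
    · intro τ hτ
      have ht' := hsub τ hτ
      obtain ⟨p1, p2, p3, p4, p5, p6, p7, p8, p9⟩ := P τ ht'
      have r0 := hr τ ht'
      have l0 := hl τ ht'
      have h5 := pw5 (C := C) (A := AA α a b a' τ) (B := BB α a b b' τ) hC0 r0 (hr1 τ ht') p1 p2
        p3 p4 p5 p6 p7 p8 (by positivity) p9 (AB τ ht')
      have e1 : K5 * (2 * α * ((2 * (k + 2) : ℕ) : ℝ) *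
          rho α τ ^ (2 * (k + 2) + 1) / lam α τ ^ 3) =
          (C / lam α τ ^ 3) * ((12 * C + 7) * ((rho α τ ^ k) ^ 2 * rho α τ ^ 5)) := by
        rw [hK5]
        push_cast
        field_simp
        ring
      rw [e1]
      exact mul_le_mul_of_nonneg_left h5 (by positivity)
  intro t ht
  obtain ⟨p1, p2, p3, p4, p5, p6, p7, p8, p9⟩ := P t ht
  have hE := EN t ht
  have r0 := hr t ht
  have hint : 0 ≤ ∫ τ in t1..t, ds τ / lam α τ ^ 3 := by
    refine intervalIntegral.integral_nonneg ht.1 fun τ hτ => ?_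
    have hτ' : τ ∈ Icc t1 t2 := ⟨hτ.1, hτ.2.trans ht.2⟩
    exact div_nonneg (H τ hτ').2.1 (pow_pos (hl τ hτ') 3).le
  have e1 : rho α t ^ (2 * (k + 2)) = (rho α t ^ k) ^ 2 * rho α t ^ 4 := by ring
  have hw : 0 < (rho α t ^ k) ^ 2 * rho α t ^ 4 := by positivity
  have hini : Hf t1 ≤ rho α t * ((rho α t ^ k) ^ 2 * rho α t ^ 4) := by
    refine ((IH.trans (hmon t ht _)).trans p9).trans ?_
    have h3 : rho α t ^ 3 ≤ 1 := pow_le_one₀ r0.le (hr1 t ht)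
    calc (rho α t ^ k) ^ 2 * rho α t ^ 8 =
          rho α t * ((rho α t ^ k) ^ 2 * rho α t ^ 4) * rho α t ^ 3 := by ring
      _ ≤ rho α t * ((rho α t ^ k) ^ 2 * rho α t ^ 4) * 1 :=
          mul_le_mul_of_nonneg_left h3 (by positivity)
      _ = rho α t * ((rho α t ^ k) ^ 2 * rho α t ^ 4) := by ring
  rw [e1] at hE ⊢
  obtain ⟨w, hwdef⟩ : ∃ w, w = (rho α t ^ k) ^ 2 * rho α t ^ 4 := ⟨_, rfl⟩
  rw [← hwdef] at hE hini hw ⊢
  have hHf : 0 ≤ Hf t := by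
    have h1 := (H t ht).1
    have h2 := (H t ht).2.2.1
    by_contra hneg
    push Not at hneg
    nlinarith
  refine ⟨?_, Ba t ht, Bb t ht, Bq t ht, ?_⟩
  · have h1 := (H t ht).2.2.1
    have h3 : c * (∫ τ in t1..t, ds τ / lam α τ ^ 3) ≥ 0 := mul_nonneg hc0.le hint
    have h4 : Hf t ≤ rho α t * w + K5 * w := by linarith
    have h5 : C * Hf t ≤ (C * rho α t + C * K5) * w := by
      calc C * Hf t ≤ C * (rho α t * w + K5 * w) := mul_le_mul_of_nonneg_left h4 hC0.le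
        _ = (C * rho α t + C * K5) * w := by ring
    have h6 : (C * rho α t + C * K5) * w ≤ (1 / 4 + 1 / 4) * w :=
      mul_le_mul_of_nonneg_right (by linarith [hrC t ht]) hw.le
    linarith
  · have h7 : c * (∫ τ in t1..t, ds τ / lam α τ ^ 3) ≤ (rho α t + K5) * w := by linarith
    have h8 : (rho α t + K5) * w ≤ c * w :=
      mul_le_mul_of_nonneg_right (by linarith [hrc t ht]) hw.le
    exact le_of_mul_le_mul_left (h7.trans h8) hc0

end Pool.Agent.Helper33.KV.BootX
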