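import Pool.Agent.Helper33.KV.Near
import Pool.Agent.Helper8.KL.SG

/-!
# Project KV (`MP_66be51_an`): existence of the approximating solutions up to a common time
-/

namespace Pool.Agent.Helper33.KV

open Real MeasureTheory Set Pool.Agent.Helper41.KV

theorem exi (hC : S_CURVE) (hN : S_NEAR) (hH : S_H1B) : S_EXI := by
  intro α K C n Z Y V2 ha0 ha1 hK64 hZ hY hV
  obtain ⟨N1, hN1, hNear⟩ := hN α K C n Z Y V2 ha0 ha1 hK64 hZ hY hV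
  obtain ⟨δ0, hδ0, hH1⟩ := hH
  refine ⟨N1, hN1, fun N N0 hNN hN0 => ?_⟩
  obtain ⟨δ1, hδ1, hNear1⟩ := hNear N N0 hNN hN0
  refine ⟨min δ1 (δ0 / 8), lt_min hδ1 (by positivity), ?_⟩
  intro T C2 M W Wt r r' hT hρT hBg hBY ε hε
  obtain ⟨T1, hT1, hT1T, hNear2⟩ := hNear1 T C2 M W Wt r r' hT hρT hBg hBY (min ε (δ0 / 4))
    (lt_min hε (by positivity))
  refine ⟨T1, hT1, hT1T, ?_⟩
  intro t1 ht1 ht1T g hg hg2 hg0 hge hgδ
  have hgm : MemLp g 2 := by simpa using hg2 0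
  have hgm' : MemLp (deriv g) 2 := by simpa using hg2 1
  have hgδ1 : (∫ x, g x ^ 2) ≤ δ1 := hgδ.trans (min_le_left _ _)
  have hgδ2 : (∫ x, g x ^ 2) ≤ δ0 / 8 := hgδ.trans (min_le_right _ _)
  -- the initial datum
  obtain ⟨hWi, -, -⟩ := hBg.hinf t1 t1 ht1 le_rfl (ht1T.le.trans hT1T)
  have ht1m : t1 ∈ Icc t1 t1 := ⟨le_rfl, le_rfl⟩
  obtain ⟨u0, hu0⟩ : ∃ u0 : ℝ → ℝ, u0 = fun x => W t1 x + g x := ⟨_, rfl⟩
  have hu0s : ContDiff ℝ (⊤ : ℕ∞) u0 := by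
    rw [hu0]; exact (hWi.smooth t1 ht1m).add hg
  have hu0m : ∀ k, MemLp (iteratedDeriv k u0) 2 := by
    intro k
    have e : iteratedDeriv k u0 = fun x => iteratedDeriv k (W t1) x + iteratedDeriv k g x := by
      funext x
      rw [hu0]
      exact iteratedDeriv_fun_add
        (((hWi.smooth t1 ht1m).of_le (by exact_mod_cast le_top)).contDiffAt)
        ((hg.of_le (by exact_mod_cast le_top)).contDiffAt)
    rw [e]
    exact (hWi.memLp k t1 ht1m).add (hg2 k)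
  have hsolE : ∀ (u : ℝ → ℝ → ℝ) (t2 : ℝ), SmoothSol u t1 t2 → u t1 = u0 → ∀ t ∈ Icc t1 t2,
      |∫ x, (iteratedDeriv 1 (u t) x ^ 2 / 2 - u t x ^ 6 / 6)|
        ≤ |∫ x, (iteratedDeriv 1 u0 x ^ 2 / 2 - u0 x ^ 6 / 6)| ∧
      (∫ x, u t x ^ 2) ≤ ∫ x, u0 x ^ 2 := by
    intro u t2 hu hu1 t ht
    have hG := Pool.Agent.Helper8.KL.sg t1 t2 u hu
    have h1 := Pool.Agent.Helper36.KL.energy t1 t2 u hG t ht
    have h2 := Pool.Agent.Helper36.KL.mass t1 t2 u hG t ht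
    rw [hu1] at h1 h2
    exact ⟨by rw [h1], h2.le⟩
  obtain ⟨B, hB⟩ := hH1 α N0 K T C n Z Y V2 W Wt r r' ha0 ha1 hK64 hT hρT hZ hY hV hBg t1
    |∫ x, (iteratedDeriv 1 u0 x ^ 2 / 2 - u0 x ^ 6 / 6)| (∫ x, u0 x ^ 2) ht1 (ht1T.trans_le hT1T)
  have hρ1 : ∀ t, 0 < t → t ≤ T → rho α t ≤ 1 := fun t h0 h1 =>
    (rho_mono hC ha0 ha1 h0 h1).trans hρT
  obtain ⟨u, hu, hu1⟩ := Pool.Agent.Helper36.KL.cont_smoothSol t1 T1 ((∫ x, u0 x ^ 2) + B) u0 ht1T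
    hu0s hu0m (by
      intro b' hb' u hu hu1 t ht
      obtain ⟨a, b, a', b', -, -, hb⟩ := hNear2 u t1 _ ht1 hb'.1 hb'.2 hu g hg
        (fun x => by rw [hu1, hu0]) hg0 hgm hgm' hge hgδ1
      have htT : t ≤ T := ht.2.trans (hb'.2.trans hT1T)
      have h0t : 0 < t := ht1.trans_le ht.1
      have hr0 := rho_pos hC ha0 ha1 h0t
      have hr1 := hρ1 t h0t htT
      obtain ⟨-, -, -, -, h1, h2, h3, h4, -, -⟩ := hb t ht
      have h5 := hB u _ hb'.1 (hb'.2.trans hT1T) hu (fun s hs => hsolE u _ hu hu1 s hs) a b t ht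
        (h1.trans (pow_le_one₀ hr0.le hr1)) (h2.trans (pow_le_one₀ hr0.le hr1))
        (h3.trans (pow_le_one₀ hr0.le hr1))
        (h4.trans (by have := min_le_right ε (δ0 / 4); linarith))
      exact add_le_add (hsolE u _ hu hu1 t ht).2 h5)
  have huW : ∀ x, u t1 x = W t1 x + g x := fun x => by rw [hu1, hu0]
  obtain ⟨a, b, a', b', c1, c2, hb⟩ := hNear2 u t1 T1 ht1 ht1T le_rfl hu g hg huW hg0 hgm hgm' hge
    hgδ1
  refine ⟨u, hu, huW, a, b, a', b', c1, c2, fun t ht => ?_⟩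
  obtain ⟨k1, k2, k3, k4, k5, k6, k7, k8, k9, k10⟩ := hb t ht
  exact ⟨k1, k2, k3, k4, k5, k6, k7, k8.trans (by linarith [min_le_left ε (δ0 / 4)]), k9, k10⟩

end Pool.Agent.Helper33.KV
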