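import Pool.Agent.Helper33.KV.Hineq
import Pool.Agent.Helper33.KV.Exi
import Pool.Agent.Helper61.KV.QF
import Pool.Agent.Helper61.KV.ECL1
import Pool.Agent.Helper55.KV.ECL2
import Pool.Agent.Helper38.KV.PR
import Pool.Agent.Helper90.KV.GREEN
import Pool.Agent.Helper54.KV.COERC
import Pool.Agent.Helper89.KV.WCOERC
import Pool.Agent.Helper56.KV.SOLVEP
import Pool.Agent.Helper5.KV.WGN
import Pool.Agent.Helper61.KV.F_CURVE
import Pool.Agent.Helper29.KV.F_IDN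
import Pool.Agent.Helper77.KV.F_IDL
import Pool.Agent.Helper98.KV.F_TAUB
import Pool.Agent.Helper98.KV.F_SRC
import Pool.Agent.Helper98.KV.F_WEAK
import Pool.Agent.Helper8.KV.F_FLUXP
import Pool.Agent.Helper8.KV.F_MASSID
import Pool.Agent.Helper8.KV.F_YEX
import Pool.Agent.Helper74.KV.F_PAIR
import Pool.Agent.Helper74.KV.PWI
import Pool.Agent.Helper71.KV.F_WTL
import Pool.Agent.Helper26.KV.F_MOD
import Pool.Agent.Helper26.KV.HDYN
import Pool.Agent.Helper49.KV.F_WEAKE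
import Pool.Agent.Helper49.KV.FREE
import Pool.Agent.Helper5.KV.F_LAWAB
import Pool.Agent.Helper19.KV.F_LAWQ
import Pool.Agent.Helper70.KV.FPSI
import Pool.Agent.Helper33.KV.Boot
import Pool.Agent.Helper65.KV.MASSL
import Pool.Agent.Helper27.KV.F_BOOTC
import Pool.Agent.Helper16.KV.F_CONTQ
import Pool.Agent.Helper54.KV.F_INIT
import Pool.Agent.Helper9.KV.F_H1B
import Pool.Agent.Helper67.KV.F_ZREG
import Pool.Agent.Helper36.KV.F_SID
import Pool.Agent.Helper36.KV.F_S0B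
import Pool.Agent.Helper56.KV.F_DVB
import Pool.Agent.Helper81.KV.F_CONTD
import Pool.Agent.Helper79.KV.STAT
import Pool.Agent.Helper75.KV.TIME
import Pool.Agent.Helper61.KV.WT0
import Pool.Agent.Helper61.KV.WTF
import Pool.Agent.Helper59.KV.ALG
import Pool.Agent.Helper3.KV.SRC
import Pool.Agent.Helper48.KV.NLm
import Pool.Agent.Helper48.KV.HSTATm
import Pool.Agent.Helper23.KV.HCOER

/-!
# Project KV (`MP_66be51_an`): sections F and G without hypotheses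
-/

namespace Pool.Agent.Helper33.KV

open Real MeasureTheory Set Pool.Agent.Helper41.KV

theorem m_PR : S_PR := Pool.Agent.Helper41.KV.thm_PR thm_QF thm_ECL1 (thm_ECL2 thm_ECL1)
  (thm_GREEN thm_QF thm_ECL1)
  (Pool.Agent.Helper56.KV.thm_SOLVEP thm_QF thm_ECL1 (thm_ECL2 thm_ECL1) (thm_GREEN thm_QF thm_ECL1))

theorem m_IDN : S_IDN := thm_IDN thm_QF thm_ECL1

theorem m_IDL : S_IDL := Pool.Agent.Helper77.KV.thm_IDL thm_QF thm_ECL1 m_PR

theorem m_TAUB : S_TAUB := thm_TAUB thm_QF thm_ECL1 m_PR m_IDN m_IDL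

theorem m_SRC : S_SRC := thm_SRC thm_QF thm_ECL1 m_PR thm_CURVE m_IDN m_IDL

theorem m_WEAK : S_WEAK := thm_WEAK thm_ECL1 thm_CURVE

theorem m_FLUXP : S_FLUXP := thm_FLUXP thm_ECL1 thm_CURVE

theorem m_PAIR : S_PAIR := Pool.Agent.Helper33.KV.thm_PAIR thm_QF thm_ECL1 thm_CURVE m_IDN m_TAUB
  m_SRC m_WEAK m_FLUXP (thm_MASSID thm_ECL1)

theorem m_WTL : S_WTL := Pool.Agent.Helper71.KV.thm_WTL

theorem m_WEAKE : S_WEAKE := thm_WEAKE thm_QF thm_ECL1 thm_CURVE m_TAUB m_WEAK m_FLUXP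

theorem m_LAWAB : S_LAWAB := Pool.Agent.Helper5.KV.thm_LAWAB thm_QF thm_CURVE m_IDN m_TAUB m_SRC
  m_WTL m_WEAKE

theorem m_LAWQ : S_LAWQ := thm_LAWQ thm_QF thm_ECL1 m_PR thm_CURVE m_IDN m_IDL m_TAUB m_SRC m_PAIR
  m_WTL m_WEAKE

theorem m_PSI : S_PSI := thm_PSI thm_QF thm_ECL1 thm_CURVE m_TAUB m_FLUXP

theorem m_MOD : S_MOD := Pool.Agent.Helper26.KV.thm_MOD thm_QF thm_ECL1 thm_CURVE m_IDN m_TAUB m_WEAK

theorem m_CONTQ : S_CONTQ := Pool.Agent.Helper16.KV.thm_CONTQ thm_QF thm_ECL1 thm_CURVE m_TAUB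

theorem m_CONTD : S_CONTD := Pool.Agent.Helper81.KV.thm_CONTD thm_QF thm_ECL1 thm_CURVE m_TAUB

theorem m_INIT : S_INIT := Pool.Agent.Helper54.KV.thm_INIT thm_CURVE m_TAUB

theorem m_H1B : S_H1B := Pool.Agent.Helper9.KV.thm_H1B thm_ECL1 thm_CURVE m_TAUB

theorem m_YEX : S_YEX := thm_YEX thm_QF thm_ECL1 (thm_ECL2 thm_ECL1)

theorem m_ZREG : S_ZREG := Pool.Agent.Helper33.KV.thm_ZREG thm_ECL1 thm_CURVE

theorem m_SID : S_SID := Pool.Agent.Helper36.KV.thm_SID thm_ECL1 thm_CURVE m_TAUB m_FLUXP m_PSI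

theorem m_DVB : S_DVB := Pool.Agent.Helper56.KV.thm_DVB thm_QF thm_ECL1 thm_CURVE m_TAUB

theorem m_S0B : S_S0B := Pool.Agent.Helper36.KV.S0.thm_S0B thm_QF thm_ECL1 thm_CURVE m_TAUB m_SRC m_WTL

theorem m_TIME : Pool.Agent.Helper48.KV.S_TIME := Pool.Agent.Helper75.KV.time Pool.Agent.Helper79.KV.stat

theorem m_WT0 : Pool.Agent.Helper48.KV.S_WT0 := Pool.Agent.Helper61.KV.wt0

theorem m_PW : Pool.Agent.Helper48.KV.S_PW := Pool.Agent.Helper74.KV.pw m_WT0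

theorem m_INTERP : Pool.Agent.Helper48.KV.S_INTERP := Pool.Agent.Helper74.KV.interp m_WT0 m_PW

theorem m_GSRC : Pool.Agent.Helper48.KV.S_SRC := Pool.Agent.Helper3.KV.src m_WT0
  Pool.Agent.Helper59.KV.alg Pool.Agent.Helper5.KV.thm_WGN thm_QF m_PR.1

theorem m_HSTAT : Pool.Agent.Helper48.KV.S_HSTATm := Pool.Agent.Helper48.KV.hstatm
  (Pool.Agent.Helper49.KV.free m_WT0 m_PW m_INTERP)
  (Pool.Agent.Helper48.KV.nlm m_WT0 Pool.Agent.Helper59.KV.alg m_PW m_INTERP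
    Pool.Agent.Helper5.KV.thm_WGN) m_GSRC m_WT0

theorem m_HCOER : Pool.Agent.Helper48.KV.S_HCOER := Pool.Agent.Helper23.KV.hcoer m_WT0
  Pool.Agent.Helper59.KV.alg (thm_WCOERC thm_QF (Pool.Agent.Helper54.KV.thm_COERC thm_QF))
  Pool.Agent.Helper5.KV.thm_WGN thm_QF

theorem m_HDYN : Pool.Agent.Helper48.KV.S_HDYN := Pool.Agent.Helper26.KV.hdyn m_TIME
  (Pool.Agent.Helper61.KV.wtf m_WT0) m_WT0

theorem m_MASSL : S_MASSL := Pool.Agent.Helper65.KV.massl m_TIME thm_CURVE thm_QF thm_ECL1 m_TAUB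

theorem m_HINEQ : S_HINEQ := hineq thm_CURVE m_TAUB m_WTL m_CONTQ m_CONTD m_LAWAB m_ZREG m_SID
  m_DVB m_S0B m_HDYN m_HSTAT m_HCOER

theorem m_NEAR : S_NEAR := near thm_CURVE m_MOD m_CONTQ m_LAWAB m_LAWQ m_HINEQ
  (BootX.thm_BOOT thm_CURVE) thm_BOOTC m_INIT m_MASSL

/-- Existence of the approximating solutions up to a common time, with the bounds near the soliton. -/
theorem m_EXI : S_EXI := exi thm_CURVE m_NEAR m_H1B

end Pool.Agent.Helper33.KV
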