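import Pool.Agent.Helper41.KV.Defs

/-!
# Project KV (`MP_66be51_an`): shared definitions

Reference curve (`α ∈ (0,1)`): `σ(t) = ((4α+3)t)^{1/(4α+3)}`, `λ = σ^{2α+1}`, `ρ = σ^{2α} = λ/σ`,
`ρ/λ^3 = 1/((4α+3)t)`; inner variable `y = (x-σ)/λ`, inner time `ds = dt/λ^3`:
`σ_t = λ^{-2}`, `λ_t = (2α+1) ρ λ^{-2}`, `ρ_t = 2α ρ^2 λ^{-3}`.
`inn α u t y = λ^{1/2} u(t, σ+λy)`, `outr` is the inverse operation.
-/

namespace Pool.Agent.Helper33.KV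

open Real MeasureTheory Pool.Agent.Helper41.KV

/-- Reference position of the soliton. -/
noncomputable def sig (α t : ℝ) : ℝ := ((4 * α + 3) * t) ^ (1 / (4 * α + 3))

/-- Reference scale of the soliton. -/
noncomputable def lam (α t : ℝ) : ℝ := sig α t ^ (2 * α + 1)

/-- The small parameter `ρ = λ/σ`. -/
noncomputable def rho (α t : ℝ) : ℝ := sig α t ^ (2 * α)

/-- Inner variables: `inn α u t y = λ^{1/2} u(t, σ + λ y)`. -/
noncomputable def inn (α : ℝ) (u : ℝ → ℝ → ℝ) (t y : ℝ) : ℝ :=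
  Real.sqrt (lam α t) * u t (sig α t + lam α t * y)

/-- Outer variables: `outr α v t x = λ^{-1/2} v(t, (x - σ)/λ)`. -/
noncomputable def outr (α : ℝ) (v : ℝ → ℝ → ℝ) (t x : ℝ) : ℝ :=
  (1 / Real.sqrt (lam α t)) * v t ((x - sig α t) / lam α t)

/-- The nonlinear flux `u_xx + u^5`. -/
noncomputable def flux (f : ℝ → ℝ) (x : ℝ) : ℝ := iteratedDeriv 2 f x + f x ^ 5

/-- Functions with all `x`-derivatives jointly continuous and bounded in `L^2` on `[t1,t2]`. -/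
structure HInf (u : ℝ → ℝ → ℝ) (t1 t2 : ℝ) : Prop where
  smooth : ∀ t ∈ Set.Icc t1 t2, ContDiff ℝ (⊤ : ℕ∞) (u t)
  cont : ∀ k : ℕ, ContinuousOn (fun p : ℝ × ℝ => iteratedDeriv k (u p.1) p.2)
    (Set.Icc t1 t2 ×ˢ Set.univ)
  memLp : ∀ k : ℕ, ∀ t ∈ Set.Icc t1 t2, MemLp (iteratedDeriv k (u t)) 2
  bound : ∀ k : ℕ, ∃ C : ℝ, ∀ t ∈ Set.Icc t1 t2, (∫ x, (iteratedDeriv k (u t) x) ^ 2) ≤ C

/-- `w` is the time derivative of `u`, for every `x`-derivative, on `[t1,t2]`. -/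
def HasTimeDeriv (u w : ℝ → ℝ → ℝ) (t1 t2 : ℝ) : Prop :=
  ∀ k : ℕ, ∀ t ∈ Set.Icc t1 t2, ∀ x : ℝ,
    HasDerivWithinAt (fun τ => iteratedDeriv k (u τ) x) (iteratedDeriv k (w t) x)
      (Set.Icc t1 t2) t

/-- Smooth (`H^∞`) solutions of `u_t + (u_xx + u^5)_x = 0` on `[t1,t2]`. -/
structure SmoothSol (u : ℝ → ℝ → ℝ) (t1 t2 : ℝ) : Prop where
  hinf : HInf u t1 t2
  eqn : HasTimeDeriv u (fun t x => - deriv (flux (u t)) x) t1 t2

end Pool.Agent.Helper33.KV
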