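import Pool.Agent.Helper33.KV.Defs
import Pool.Agent.Helper41.KV.GoalsE

/-!
# Project KV (`MP_66be51_an`): definitions of section F (tangent vectors, linear modulation)

`κ = (2α+1)∫Q/4`, `c = (α-1/2)κ`, `Z` = the profile `Z₁` (odd, `→ ±1`, `(LZ)' = -(4/∫Q) ΛQ`),
`Y` = its localised version (`Y' = Z' + (4/∫Q) ΛQ`), `V2` = second order profile.
`tauA = ΛQ + ρ κ y Z'`, `tauB = Q' + ρ κ Z' + ρ^2 (V2' - c Z)`, `Th = Q + ρ κ Y`.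
-/

namespace Pool.Agent.Helper33.KV

open Real MeasureTheory Pool.Agent.Helper41.KV

/-- `∫ Q`. -/
noncomputable def IQ : ℝ := ∫ y, Q y

/-- `κ = (2α+1) ∫Q / 4`. -/
noncomputable def kap (α : ℝ) : ℝ := (2 * α + 1) * IQ / 4

/-- `c = (α - 1/2) κ`. -/
noncomputable def cc (α : ℝ) : ℝ := (α - 1 / 2) * kap α

/-- The first order profile. -/
structure IsZ1 (Z : ℝ → ℝ) : Prop where
  tail : IsE (fun y => Z y - Real.tanh (2 * y))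
  odd : ∀ y, Z (-y) = - Z y
  eqn : ∀ y, HasDerivAt (Lop Z) (-(4 / IQ) * Lam Q y) y

/-- The localised companion of the first order profile. -/
structure IsY1 (Z Y : ℝ → ℝ) : Prop where
  isE : IsE Y
  eqn : ∀ y, HasDerivAt Y (deriv Z y + (4 / IQ) * Lam Q y) y

/-- The second order profile: tails `c y + const` on the right, `-c y + const` on the left. -/
structure IsV2 (α : ℝ) (Z V2 : ℝ → ℝ) : Prop where
  tail : ∃ p q : ℝ, IsE (fun y => V2 y - (p + q * Real.tanh (2 * y)) - cc α * y * Real.tanh (2 * y))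
  eqn : ∀ y, HasDerivAt (Lop V2)
    (2 * α * kap α * Z y + deriv (fun x => 10 * Q x ^ 3 * (kap α * Z x) ^ 2) y
      - (2 * α + 1) * kap α * Lam Z y) y

/-- Tangent vector in the scaling direction. -/
noncomputable def tauA (α : ℝ) (Z : ℝ → ℝ) (ρ y : ℝ) : ℝ :=
  Lam Q y + ρ * kap α * (y * deriv Z y)

/-- Tangent vector in the translation direction. -/
noncomputable def tauB (α : ℝ) (Z V2 : ℝ → ℝ) (ρ y : ℝ) : ℝ :=
  deriv Q y + ρ * kap α * deriv Z y + ρ ^ 2 * (deriv V2 y - cc α * Z y)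

/-- The almost conserved dual vector. -/
noncomputable def Th (α : ℝ) (Y : ℝ → ℝ) (ρ y : ℝ) : ℝ := Q y + ρ * kap α * Y y

/-- Residual of `W` in inner variables: `λ^{7/2} (W_t + (W_xx + W^5)_x)(t, σ+λy)`. -/
noncomputable def resid (α : ℝ) (W Wt : ℝ → ℝ → ℝ) (t y : ℝ) : ℝ :=
  lam α t ^ 3 * inn α (fun t x => Wt t x + deriv (flux (W t)) x) t y

/-- The linearised operator at `v` in inner variables; `Dτ` stands for `λ^3 ∂_t τ`. -/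
noncomputable def calL (α ρ : ℝ) (v τ Dτ : ℝ → ℝ) (y : ℝ) : ℝ :=
  Dτ y + deriv (fun x => deriv (deriv τ) x - τ x + 5 * v x ^ 4 * τ x) y
    - (2 * α + 1) * ρ * Lam τ y

/-- Remainder of the `tauA` equation. -/
noncomputable def srcA (α : ℝ) (Z V2 v : ℝ → ℝ) (ρ y : ℝ) : ℝ :=
  calL α ρ v (tauA α Z ρ) (fun y => 2 * α * ρ ^ 2 * kap α * (y * deriv Z y)) y
    - 2 * tauB α Z V2 ρ y - (5 / 2) * (2 * α + 1) * ρ * tauA α Z ρ y

/-- Remainder of the `tauB` equation. -/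
noncomputable def srcB (α : ℝ) (Z V2 v : ℝ → ℝ) (ρ y : ℝ) : ℝ :=
  calL α ρ v (tauB α Z V2 ρ)
      (fun y => 2 * α * ρ ^ 2 * kap α * deriv Z y
        + 4 * α * ρ ^ 3 * (deriv V2 y - cc α * Z y)) y
    - (2 * α + 1) * ρ * tauB α Z V2 ρ y + (4 / IQ) * cc α * ρ ^ 2 * tauA α Z ρ y

/-- Everything sections F and G need to know about the approximate solution `W` on `(0,T]`
(constructed in sections C, D). `r`, `r'`: third order remainder and its time derivative.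
The constant `C` does not depend on `N0` (only `T` does); `n` is a dummy argument. -/
structure Bg (α : ℝ) (N0 : ℕ) (K T C : ℝ) (n : ℕ) (Z V2 : ℝ → ℝ) (W Wt r r' : ℝ → ℝ → ℝ) :
    Prop where
  hinf : ∀ t1 t2, 0 < t1 → t1 ≤ t2 → t2 ≤ T → HInf W t1 t2 ∧ HInf Wt t1 t2 ∧ HasTimeDeriv W Wt t1 t2
  supp : ∀ t ∈ Set.Ioc 0 T, ∀ x, x ∉ Set.Icc (-1 : ℝ) 1 → W t x = 0
  expn : ∀ t ∈ Set.Ioc 0 T, ∀ y, inn α W t y =
    Q y + rho α t * kap α * Z y + rho α t ^ 2 * V2 y + rho α t ^ 3 * r t y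
  rbd : ∀ t ∈ Set.Ioc 0 T, ContDiff ℝ (⊤ : ℕ∞) (r t) ∧
    ∀ k ≤ 4, ∀ y, |iteratedDeriv k (r t) y| ≤ C * Real.exp (|y| / 64)
  rt : ∀ t ∈ Set.Ioc 0 T, ∀ y, HasDerivWithinAt (fun τ => r τ y) (r' t y) (Set.Ioc 0 T) t ∧
    |r' t y| ≤ C * (rho α t / lam α t ^ 3) * Real.exp (|y| / 64)
  res : ∀ t ∈ Set.Ioc 0 T, (∫ y, wt K (rho α t) y *
      (resid α W Wt t y ^ 2 + deriv (resid α W Wt t) y ^ 2)) ≤ C * rho α t ^ (2 * N0)
  rsup : ∀ t ∈ Set.Ioc 0 T, ∀ y, |resid α W Wt t y| ≤ rho α t ^ ((5 : ℝ) / 4)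
  b0 : ∀ t ∈ Set.Ioc 0 T, ∀ y, |inn α W t y| ≤ C * (Real.exp (-|y| / 2) + rho α t ^ ((1 : ℝ) / 2))
  b1 : ∀ t ∈ Set.Ioc 0 T, ∀ y, (1 + |y|) * |deriv (inn α W t) y| ≤
    C * (Real.exp (-|y| / 2) + rho α t ^ ((1 : ℝ) / 2))
  b1' : ∀ t ∈ Set.Ioc 0 T, ∀ y, |deriv (inn α W t) y| ≤
    C * (Real.exp (-|y| / 2) + rho α t ^ ((5 : ℝ) / 4))
  b2 : ∀ t ∈ Set.Ioc 0 T, ∀ y, |iteratedDeriv 2 (inn α W t) y| ≤
    C * (Real.exp (-|y| / 2) + rho α t ^ ((5 : ℝ) / 4))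
  bt : ∀ t ∈ Set.Ioc 0 T, ∀ y, lam α t ^ 3 *
      |derivWithin (fun τ => inn α W τ y) (Set.Ioc 0 T) t| ≤ C * rho α t ^ ((5 : ℝ) / 4)

/-- Additional facts on the approximate solution, used for the left side and for the limit (the constant may
depend on `N0`, `K`). -/
structure BgX (α K T C : ℝ) (f0 : ℝ → ℝ) (W Wt : ℝ → ℝ → ℝ) : Prop where
  lft : ∀ t ∈ Set.Ioc 0 T,
    Integrable (fun y => (1 - wt K (rho α t) y) ^ 2 *
      (inn α W t y ^ 2 + deriv (inn α W t) y ^ 2 + iteratedDeriv 2 (inn α W t) y ^ 2)) ∧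
    (∫ y, (1 - wt K (rho α t) y) ^ 2 *
      (inn α W t y ^ 2 + deriv (inn α W t) y ^ 2 + iteratedDeriv 2 (inn α W t) y ^ 2)) ≤
      C * rho α t ^ ((3 : ℝ) / 2)
  rsup : ∀ t ∈ Set.Ioc 0 T, ∀ y, |resid α W Wt t y| ≤ rho α t
  mass : ∀ t ∈ Set.Ioc 0 T, ∀ s ∈ Set.Ioc 0 T,
    |(∫ x, W t x ^ 2) - ∫ x, W s x ^ 2| ≤ C * (rho α t + rho α s) ^ ((1 : ℝ) / 2)
  resL : ∀ t ∈ Set.Ioc 0 T,
    (∫ y, (resid α W Wt t y ^ 2 + deriv (resid α W Wt t) y ^ 2)) ≤ C * rho α t ^ ((5 : ℝ) / 2)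
  b0L : ∀ t ∈ Set.Ioc 0 T, ∀ y, y ≤ 0 → |inn α W t y - Q y| ≤ C * rho α t
  tailL : ∀ t ∈ Set.Ioc 0 T, ∀ y, y ≤ -1 / (2 * rho α t) → ∀ k ≤ 4,
    |iteratedDeriv k (inn α W t) y| ≤ C * Real.exp (-|y| / 2)
  f0L2 : MemLp f0 2
  conv : ∀ t ∈ Set.Ioc 0 T, Integrable (fun x => (W t x - outr α (fun _ => Q) t x - f0 x) ^ 2) ∧
    (∫ x, (W t x - outr α (fun _ => Q) t x - f0 x) ^ 2) ≤ C * rho α t ^ ((1 : ℝ) / 2)

end Pool.Agent.Helper33.KV
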