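import Pool.Agent.Helper41.KV.GoalsC
import Pool.Agent.Helper41.KV.DefsD

/-!
# Project KV (`MP_66be51_an`): coherent inner expansions (data of orders `≤ 3` independent of the order)
-/

namespace Pool.Agent.Helper33.KV

open Real MeasureTheory Pool.Agent.Helper41.KV

/-- **FHN (0.8 h).** The right field for data with `p j = 0` (`j ≥ 3`), up to order 4, does not depend on `n, J`.
Hypotheses allowed: `S_PHI`, `S_MCL1`, `S_MCL2`.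
PROOF.  `gZero p J = gZero p 3` (the other summands vanish). By `Helper42/KV/FHAM.lean` (`Fh_eq`, `TT_mem`):
`Fh n g0 = Σ_{i ≤ n} r h0(ry)(r^2h1(ry)/(4α+3))^i ev(g_i)`, with `g_i` independent of `n ≥ i` (`S_PHI` (2)); so the difference is the
sum over `4 ≤ i ≤ n`, each term in `MP (2i+1)`, contained in `MP 5`. -/
def S_FHN : Prop :=
  ∀ (α : ℝ) (h0 h1 h2 h3 : ℝ → ℝ) (J n : ℕ) (p : ℕ → Polynomial ℝ), 0 < α → α < 1 →
    IsAux α h0 h1 h2 h3 → 3 ≤ J → J ≤ n → (∀ j, 3 ≤ j → p j = 0) →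
    Fh α h0 h1 h2 h3 n (gZero p J) - Fh α h0 h1 h2 h3 3 (gZero p 3) ∈ MP 5

/-- **CALLU (1.5 h).** Coherent version of `S_CALL`: the data of orders `≤ 3` (`c1, a0, ω2, ω3, e3`) do not
depend on `J, n`. Hypotheses: the same as for `S_CALL`.
PROOF.  Follow `Helper38/KV/CALL.lean` (theorem `call`). The base (steps `j = 1`, `j = 2`) is done with
`Fam 3 3`: it gives `p2` (`p2 j = 0` for `j ≥ 3`), `w2' = lif 1 w_1 + lif 2 ω2 + lif 3 ω3`, `c1, a0, c2, e3` and `hqq`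
(conclusion of CSTEP for `j = 2`): for every `δ ∈ MP 5`
`∃ e' ∈ LT, ∫e'Q = 0, Bk α (Fam 3 3 p1 + lif 3 .. + lif 4 .. + δ) w2' - lif 4 e' ∈ MT 5`. For given `J, n` take
`δ = (Fam J n p2 - Fam 3 3 p2) + (Fam 3 3 p2 - Fam 3 3 p1 - lif 3 .. - lif 4 ..)`, both in `MP 5`; so the state `St` before
step `3` holds for `Fam J n` with `F2 = Fam J n p2` (`e4` depends on `J, n`), and `iterate` gives `p, w`. The third order
coefficient: `Fam J n p - Fam J n p2 ∈ MP 4`, `Fam J n p2 - Fam 3 3 p2 ∈ MP 5` and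
`Fam 3 3 p2 - lif 1 .. - lif 2 .. - lif 3 e3 ∈ MP 4`. -/
def S_CALLU : Prop :=
  ∀ (α : ℝ) (R P : ℝ → ℝ), 0 < α → α < 1 → IsRP R P →
   ∀ (Fam : ℕ → ℕ → (ℕ → Polynomial ℝ) → F3),
    (∀ J n p, 3 ≤ J → J ≤ n → Fam J n p ∈ MP 1) →
    (∀ J n p, 3 ≤ J → J ≤ n → (∀ j, ∃ c : ℝ, p j = Polynomial.C c) →
      ∀ r l y, Fam J n p r l y = Fam J n p r 0 y) →
    (∀ J n p, 3 ≤ J → J ≤ n → p 0 = Polynomial.C (kOne α) → (∀ j, 1 ≤ j → p j = 0) →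
      Fam J n p - lif 1 (fun _ _ => kOne α) - lif 2 (fun _ y => kOne α * (α - 1/2) * y) ∈ MP 3) →
    (∀ J n p j q, 3 ≤ J → J ≤ n → 1 ≤ j → j < J → p j = 0 →
      Fam J n (Function.update p j q) - Fam J n p - lif (j + 1) (fun l _ => q.eval l)
        - lif (j + 2) (fun l y => y * (q.derivative.eval l + (α - 1/2 + 2 * α * j) * q.eval l))
          ∈ MP (j + 3)) →
    (∀ J n p, 3 ≤ J → J ≤ n → (∀ j, 3 ≤ j → p j = 0) → Fam J n p - Fam 3 3 p ∈ MP 5) →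
    ∃ (c1 a0 : ℝ) (ω2 ω3 : ℝ → ℝ) (e3 : Polynomial ℝ),
      HasTail (Polynomial.C a0 - Polynomial.C (2 * kOne α * (α - 1/2)) * Polynomial.X) ω2 ∧
      (∀ y, HasDerivAt (Lop (fun x => kOne α * (α - 1/2) * x + c1 + ω2 x))
        (2 * α * (kOne α + wOne α R P y)
          + deriv (fun y' => 10 * Q y' ^ 3 * (kOne α + wOne α R P y') ^ 2) y
          - (2 * α + 1) * Lam (fun x => kOne α + wOne α R P x) y) y) ∧ IsT ω3 ∧
      ∀ J n : ℕ, 3 ≤ J → J ≤ n → ∃ (p : ℕ → Polynomial ℝ) (w : F3),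
        p 0 = Polynomial.C (kOne α) ∧ p 1 = Polynomial.C c1 ∧ (∀ j, J ≤ j → p j = 0) ∧ w ∈ MT 1 ∧
        w - lif 1 (fun _ y => wOne α R P y) - lif 2 (fun _ y => ω2 y) - lif 3 (fun _ y => ω3 y)
          ∈ MT 4 ∧
        (Fam J n p - lif 1 (fun _ _ => kOne α) - lif 2 (fun _ y => kOne α * (α - 1/2) * y + c1)
          - lif 3 (fun _ y => e3.eval y) ∈ MP 4) ∧
        Bk α (Fam J n p) w ∈ MT (J + 1)

/-- **DATU (0.4 h).** Coherent data. Hypotheses allowed: `S_CALLU`, `S_FHN`, `S_FHAM`, `S_AUXF`.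
PROOF.  Apply `S_CALLU` with `Fam J n p = Fh α h0 h1 h2 h3 n (gZero p J)`. -/
def S_DATU : Prop :=
  ∀ (α : ℝ) (R P : ℝ → ℝ), 0 < α → α < 1 → IsRP R P →
    ∃ (h0 h1 h2 h3 : ℝ → ℝ) (c1 a0 : ℝ) (ω2 ω3 : ℝ → ℝ) (e3 : Polynomial ℝ),
      IsAux α h0 h1 h2 h3 ∧ IsT ω3 ∧
      ∀ J n : ℕ, 3 ≤ J → J ≤ n → ∃ (p : ℕ → Polynomial ℝ) (w : F3),
        Dat α J n R P h0 h1 h2 h3 p c1 a0 ω2 ω3 e3 w

end Pool.Agent.Helper33.KV
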