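import Pool.Agent.Helper33.KV.DefsF

/-!
# Project KV (`MP_66be51_an`), section F: linear modulation, laws of the parameters, bootstrap

Every goal is a `def S_... : Prop` with a complete proof in the doc string.  Other goals may be
taken as hypotheses where this is said.  The constants `C'`, `ρ1` are chosen BEFORE `N0, T, W, Wt, r, r'`
(they depend only on `α, K, C, n` and the profiles); this is needed for the bootstrap.  `s`-derivative: `D = λ^3 d/dt`; `Dρ = 2αρ^2`.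
`v = inn α W t`, `E = resid α W Wt t`, `L = Lop`, `m = 4/IQ`, so `κ m = 2α+1`.
Convention: `HInf`, `HasTimeDeriv`, `SmoothSol` as in `Defs`.
-/

namespace Pool.Agent.Helper33.KV

open Real MeasureTheory Pool.Agent.Helper41.KV

/-- **CURVE (0.7 h).** The reference curve.
PROOF.  With `p = 4α+3 > 0`: `sig = (p t)^{1/p}`, `lam = sig^{2α+1}`, `rho = sig^{2α}`,
`lam = sig * rho` (`rpow_add`), `sig^{p} = p t` (`rpow_mul`), `rho/lam^3 = sig^{2α-3(2α+1)} = sig^{-p}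
= 1/(p t)`. `d/dt sig = (1/p)(pt)^{1/p-1} p = (pt)^{1/p}/(pt) = sig^{1-p} = sig^{-(4α+2)} = 1/lam^2`.
Then `d/dt sig^q = q sig^{q-1}/lam^2`; for `q = 2α+1`: `(2α+1) rho/lam^2`; for `q = 2α`:
`2α rho/(sig lam^2) = 2α rho^2/lam^3` since `1/sig = rho/lam`. Monotone and `→ 0` as `t → 0`:
`rpow` with positive exponent. -/
def S_CURVE : Prop :=
  ∀ α : ℝ, 0 < α → α < 1 →
   (∀ t, 0 < t → 0 < sig α t ∧ 0 < lam α t ∧ 0 < rho α t ∧ lam α t = sig α t * rho α t ∧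
      rho α t / lam α t ^ 3 = 1 / ((4 * α + 3) * t) ∧
      HasDerivAt (sig α) (1 / lam α t ^ 2) t ∧
      HasDerivAt (lam α) ((2 * α + 1) * rho α t / lam α t ^ 2) t ∧
      HasDerivAt (rho α) (2 * α * rho α t ^ 2 / lam α t ^ 3) t) ∧
   (∀ s t, 0 < s → s ≤ t → sig α s ≤ sig α t ∧ lam α s ≤ lam α t ∧ rho α s ≤ rho α t) ∧
   (∀ ε, 0 < ε → ∃ T, 0 < T ∧ ∀ t, 0 < t → t ≤ T → sig α t ≤ ε ∧ lam α t ≤ ε ∧ rho α t ≤ ε)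

/-- **PROFZ (0.8 h).** Existence of the profiles `Z`, `Y`. Hypotheses allowed: S_QF, S_ECL1, S_ECL2,
S_PR (of Helper41).
PROOF.  `Z0 = 1 + R - m P` with `R, P` of S_PR: `Z0 - tanh 2y = R - m (P - (IQ/2) χ_-) ∈ IsE` because
`1 - 2χ_- = tanh 2y`; `Lop Z0 = 1 - m Lop P` has derivative `-m ΛQ`. Put `Z(y) = (Z0(y) - Z0(-y))/2`: odd,
`Z - tanh(2y)` is the odd part of `Z0 - tanh(2y)`, in `IsE`; `Lop (Z0(-·))(y) = (Lop Z0)(-y)` has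
derivative `m ΛQ(-y) = m ΛQ(y)` (`ΛQ` even), so `Lop Z` has derivative `-m ΛQ`.
`f = Z' + m ΛQ ∈ IsE` (`Z' = (Z - tanh 2y)' + 2 sech^2 2y`), `∫ f = [Z]_{-∞}^{∞} + m ∫ΛQ = 2 + m(-IQ/2) = 0`
(`∫ΛQ = ∫ Q/2 + ∫ yQ' = -IQ/2`), so ECL2 gives `Y ∈ IsE` with `Y' = f`. -/
def S_PROFZ : Prop := ∃ Z Y : ℝ → ℝ, IsZ1 Z ∧ IsY1 Z Y

/-- **IDN (1.2 h).** Integral identities. Hypotheses allowed: S_QF, S_ECL1.
PROOF.  All integrands are integrable (`IsP * IsE`) and boundary terms vanish (`Q = O(e^{-|y|})`).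
`∫ΛQ Q = ∫ (1/2)(yQ^2)' = 0`; `∫ΛQ = IQ/2 - IQ`; parity gives `∫ZQ = 0`, `∫ΛQ Q' = 0`, `∫Q'Q^3=0`;
`∫ΛQ Q^3 = (1/2)∫Q^4 + ∫ y (Q^4/4)' = (1/4)∫Q^4`.
(A) With `D = Y - Z` (`D' = mΛQ`, `D → -1` at `+∞`, `D → 1` at `-∞`): `∫ΛQ Y - ∫ΛQ Z = (1/m)∫ D'D =
(1/(2m)) (1 - 1) = 0`.
(B) `∫ yZ'Q = -∫ Z (Q + yQ') = -∫ Z (ΛQ + Q/2) = -∫ ZΛQ`. (A)+(B): third identity.
`∫ Q'Y = -∫ Q Y' = -∫ Q Z' - m∫QΛQ = -∫QZ'`. `∫ QZ' + ∫ ZQ' = 0` (total derivative).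
`∫ Q V2' + ∫ V2 Q' = 0`, `∫ QZ = 0`, `∫ Z Z' = (1/2)[Z^2] = 0`: last identity. -/
def S_IDN : Prop :=
  ∀ (α : ℝ) (Z Y V2 : ℝ → ℝ), IsZ1 Z → IsY1 Z Y → IsV2 α Z V2 →
    0 < IQ ∧ (∫ y, Lam Q y * Q y) = 0 ∧ (∫ y, deriv Q y * Q y) = 0 ∧ (∫ y, Lam Q y) = -IQ / 2 ∧
    (∫ y, Z y * Q y) = 0 ∧ (∫ y, Lam Q y * deriv Q y) = 0 ∧ (∫ y, deriv Q y * Q y ^ 3) = 0 ∧
    (∫ y, Lam Q y * Q y ^ 3) = (∫ y, Q y ^ 4) / 4 ∧ 0 < (∫ y, Q y ^ 4) ∧ 0 < (∫ y, deriv Q y ^ 2) ∧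
    (∫ y, (y * deriv Z y) * Q y) + (∫ y, Lam Q y * Y y) = 0 ∧
    (∫ y, deriv Z y * Q y) + (∫ y, deriv Q y * Y y) = 0 ∧
    (∫ y, Q y * (y * deriv Z y)) + (∫ y, Z y * Lam Q y) = 0 ∧
    (∫ y, Q y * deriv Z y) + (∫ y, Z y * deriv Q y) = 0 ∧
    (∫ y, Q y * (deriv V2 y - cc α * Z y)) + kap α ^ 2 * (∫ y, Z y * deriv Z y)
      + (∫ y, V2 y * deriv Q y) = 0

/-- **IDL (1.5 h).** Pointwise identities. Hypotheses allowed: S_QF and `Lop (Lam Q) = -2Q` (in S_PR).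
PROOF.  `Lop f = -f'' + f - 5Q^4 f`; `(Lop f)' = Lop f' - 20 Q^3Q' f`; `Lop (y f) = y Lop f - 2 f'`;
`Lop Q' = 0` (differentiate `Q'' = Q - Q^5`).
(a) is `(Lop Z)' = -mΛQ` rewritten. (b): `Lop Y' = Lop Z' + m Lop ΛQ = Lop Z' - 2mQ`, times `κ`, and (a), `κm = 2α+1`.
(c): `(Lop(yZ'))' = Lop Z' + y (Lop Z')' - 2Z'''`, `Z''' = Z' - 5Q^4Z' - Lop Z'`, hence
`-(Lop(yZ'))' = -3 Lop Z' - y (Lop Z')' + 2Z' - 10Q^4Z'`. With (a): `Lop Z' = 20Q^3Q'Z - mΛQ`, and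
`(20Q^3ZΛQ)' = (10Q^4Z)' + (20Q^3Q'yZ)' = 60Q^3Q'Z + 10Q^4Z' + y(20Q^3Q'Z)'`
(`ΛQ = Q/2+yQ'`); the sum of the three terms is `3mΛQ + my(ΛQ)' = m(Λ(ΛQ) + (5/2)ΛQ)`.
(d): `κ(Lop Z')' = (20Q^3Q'κZ)' - (2α+1)(ΛQ)'` and `(ΛQ)' = Λ(Q') + Q'`.
(e): differentiate the equation of `V2`: `(Lop V2)'' = (Lop V2')' - (20Q^3Q'V2)'`,
`(10Q^3κ^2Z^2)'' = (30Q^2Q'κ^2Z^2 + 20Q^3κ^2ZZ')'`, `(ΛZ)' = Λ(Z') + Z'`; and
`(Lop (V2' - ccZ))' = (Lop V2')' + cc m ΛQ`. -/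
def S_IDL : Prop :=
  ∀ (α : ℝ) (Z Y V2 : ℝ → ℝ), IsZ1 Z → IsY1 Z Y → IsV2 α Z V2 →
    (∀ y, Lop (deriv Z) y = 20 * Q y ^ 3 * deriv Q y * Z y - (4 / IQ) * Lam Q y) ∧
    (∀ y, kap α * Lop (deriv Y) y - 20 * Q y ^ 3 * deriv Q y * (kap α * Z y)
        + (2 * α + 1) * Lam Q y = -2 * (2 * α + 1) * Q y) ∧
    (∀ y, -deriv (Lop (fun x => x * deriv Z x)) y + deriv (fun x => 20 * Q x ^ 3 * Z x * Lam Q x) y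
        - 2 * deriv Z y = (4 / IQ) * (Lam (Lam Q) y + (5 / 2) * Lam Q y)) ∧
    (∀ y, -(kap α * deriv (Lop (deriv Z)) y)
        + deriv (fun x => 20 * Q x ^ 3 * (kap α * Z x) * deriv Q x) y
        - (2 * α + 1) * Lam (deriv Q) y - (2 * α + 1) * deriv Q y = 0) ∧
    (∀ y, 2 * α * kap α * deriv Z y - deriv (Lop (fun x => deriv V2 x - cc α * Z x)) y
        + deriv (fun x => 20 * Q x ^ 3 * kap α ^ 2 * Z x * deriv Z x) y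
        + deriv (fun x => (20 * Q x ^ 3 * V2 x + 30 * Q x ^ 2 * (kap α * Z x) ^ 2) * deriv Q x) y
        - (2 * α + 1) * kap α * Lam (deriv Z) y - (2 * α + 1) * kap α * deriv Z y
        + (4 / IQ) * cc α * Lam Q y = 0) ∧
    (∀ y, Lop (deriv Q) y = 0)

/-- **TAUB (1 h).** Bounds of the tangent vectors. Hypotheses allowed: S_QF, S_ECL1, S_IDN, S_IDL,
`Lop (Lam Q) = -2Q`.
PROOF.  `tauA`, `tauB`, `Th` are polynomials in `ρ ∈ [0,1]` with coefficients in `IsE`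
(`yZ'`, `Z'`, `V2' - ccZ`, `Y ∈ IsE`: for `V2' - ccZ` insert the tail formulas: `V2' = cc tanh 2y + IsE`).
`Lop tauA + 2Q = ρκ Lop(yZ')`, `Lop tauB = ρκ Lop Z' + ρ^2 Lop(V2'-ccZ)`.
Scalar products with `Th`: orders `ρ^0, ρ^1` vanish by S_IDN. The matrix: at `ρ = 0` it is
`diag(∫Q^4/4, ∫Q'^2)`; entries are polynomials in `ρ`. -/
def S_TAUB : Prop :=
  ∀ (α : ℝ) (Z Y V2 : ℝ → ℝ), IsZ1 Z → IsY1 Z Y → IsV2 α Z V2 →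
   (∀ ρ, IsE (tauA α Z ρ) ∧ IsE (tauB α Z V2 ρ) ∧ IsE (Th α Y ρ)) ∧
   ∃ C ρ1 : ℝ, 0 < ρ1 ∧ ρ1 ≤ 1 ∧ ∀ ρ, 0 ≤ ρ → ρ ≤ ρ1 →
    (∀ k ≤ 4, ∀ y, |iteratedDeriv k (tauA α Z ρ) y| ≤ C * Real.exp (-(3 / 4) * |y|) ∧
      |iteratedDeriv k (tauB α Z V2 ρ) y| ≤ C * Real.exp (-(3 / 4) * |y|) ∧
      |iteratedDeriv k (Th α Y ρ) y| ≤ C * Real.exp (-(3 / 4) * |y|) ∧
      |iteratedDeriv k (fun x => Lop (tauA α Z ρ) x + 2 * Q x) y| ≤ C * ρ * Real.exp (-(3 / 4) * |y|) ∧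
      |iteratedDeriv k (Lop (tauB α Z V2 ρ)) y| ≤ C * ρ * Real.exp (-(3 / 4) * |y|)) ∧
    |∫ y, tauA α Z ρ y * Th α Y ρ y| ≤ C * ρ ^ 2 ∧ |∫ y, tauB α Z V2 ρ y * Th α Y ρ y| ≤ C * ρ ^ 2 ∧
    |(∫ y, tauA α Z ρ y * Q y ^ 3) - (∫ y, Q y ^ 4) / 4| ≤ C * ρ ∧
    |∫ y, tauB α Z V2 ρ y * Q y ^ 3| ≤ C * ρ ∧ |∫ y, tauA α Z ρ y * deriv Q y| ≤ C * ρ ∧
    |(∫ y, tauB α Z V2 ρ y * deriv Q y) - ∫ y, deriv Q y ^ 2| ≤ C * ρ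

/-- **SRC (1.5 h).** The remainders `srcA = O(ρ^2)`, `srcB = O(ρ^3)`. Hypotheses allowed: S_QF, S_ECL1,
S_IDN, S_IDL, `Lop (Lam Q) = -2Q`.
PROOF.  Write `v1 = κZ`, `v = Q + ρv1 + ρ^2V2 + ρ^3r`. Expanding,
`v^4 = Q^4 + 4ρQ^3v1 + ρ^2(4Q^3V2 + 6Q^2v1^2) + ρ^3 g` with `|g|, |g'|, |g''| ≤ C(1+|y|)^{n'}` (polynomial in
`ρ ≤ 1`, `Q, v1, V2, r` and their derivatives). Insert in `srcA`:
order `ρ^0`: `-(Lop ΛQ)' - 2Q' = 0`; order `ρ^1`: `-κ(Lop(yZ'))' + (20Q^3v1ΛQ)' - (2α+1)Λ(ΛQ) - 2κZ'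
- (5/2)(2α+1)ΛQ = 0` by IDL(c) times `κ` (`κm = 2α+1`). All other terms are `ρ^k`, `k ≥ 2`, times products of an
`IsE` function and polynomially bounded ones, hence `O(ρ^2 e^{-|y|/2})`, with derivative.
In `srcB`: order 0: `-(Lop Q')' = 0`; order 1: IDL(d); order 2: IDL(e) (note
`5·(coefficient of ρ^2 in v^4)·Q' = (20Q^3V2 + 30Q^2v1^2)Q'` and `20Q^3v1·v1'`); the rest is `O(ρ^3 e^{-|y|/2})`. -/
def S_SRC : Prop :=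
  ∀ (α K C : ℝ) (n : ℕ) (Z Y V2 : ℝ → ℝ), 0 < α → α < 1 → IsZ1 Z → IsY1 Z Y → IsV2 α Z V2 →
   ∃ C' : ℝ, ∀ (N0 : ℕ) (T : ℝ) (W Wt r r' : ℝ → ℝ → ℝ), 0 < T → rho α T ≤ 1 →
    Bg α N0 K T C n Z V2 W Wt r r' → ∀ t ∈ Set.Ioc 0 T, ∀ y,
      |srcA α Z V2 (inn α W t) (rho α t) y| ≤ C' * rho α t ^ 2 * Real.exp (-|y| / 2) ∧
      |deriv (srcA α Z V2 (inn α W t) (rho α t)) y| ≤ C' * rho α t ^ 2 * Real.exp (-|y| / 2) ∧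
      |srcB α Z V2 (inn α W t) (rho α t) y| ≤ C' * rho α t ^ 3 * Real.exp (-|y| / 2) ∧
      |deriv (srcB α Z V2 (inn α W t) (rho α t)) y| ≤ C' * rho α t ^ 3 * Real.exp (-|y| / 2)

/-- **WEAK (1.5 h).** Time derivative of a pairing in inner variables. Hypothesis allowed: S_CURVE, S_ECL1.
PROOF.  Substituting `x = σ+λy`: `∫ inn u τ y f(y) dy = ∫ u(τ,x) F(τ,x) dx`, `F(τ,x) = λ^{-1/2} f((x-σ)/λ)`.
For fixed `x`, `F` is `C^1` in `τ > 0` with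
`F_τ = -λ^{-1/2}[ (1/2)(λ_τ/λ) f + f'·(σ_τ/λ + y λ_τ/λ) ]`, `λ_τ/λ = (2α+1)ρ/λ^3`, `σ_τ/λ = λ^{-3}`:
`F_τ = -λ^{-3} λ^{-1/2} (f' + (2α+1)ρ Λf)((x-σ)/λ)`. For `τ ∈ [t1,t2]`, `λ, σ` lie in a compact subset of
`(0,∞)`, so `|F|,|F_τ| ≤ C e^{-c|x|}`; `u, w` are bounded on `[t1,t2]×ℝ` (`sup u^2 ≤ 2|u|_2|u_x|_2`), and continuous.
For each `x`, `uF` is differentiable within `[t1,t2]` with continuous derivative `wF + uF_τ`, so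
`(uF)(τ,x) - (uF)(t1,x) = ∫_{t1}^τ (wF+uF_τ)(s,x) ds`; integrate in `x` (Fubini, domination by `Ce^{-c|x|}`):
`P(τ) - P(t1) = ∫_{t1}^τ G(s) ds`, `G(s) = ∫ (wF+uF_s) dx`, `G` continuous on `[t1,t2]` by dominated
convergence; hence `P` has derivative `G(t)` within `[t1,t2]`. Substituting back gives the formula. -/
def S_WEAK : Prop :=
  ∀ (α : ℝ), 0 < α → α < 1 → ∀ (u w : ℝ → ℝ → ℝ) (t1 t2 : ℝ), 0 < t1 → t1 < t2 →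
    HInf u t1 t2 → HInf w t1 t2 → HasTimeDeriv u w t1 t2 → ∀ f : ℝ → ℝ, IsE f →
    ∀ t ∈ Set.Icc t1 t2,
      HasDerivWithinAt (fun τ => ∫ y, inn α u τ y * f y)
        ((∫ y, inn α w t y * f y) + (1 / lam α t ^ 3) *
          ∫ y, inn α u t y * (-deriv f y - (2 * α + 1) * rho α t * Lam f y)) (Set.Icc t1 t2) t

/-- **FLUXP (0.8 h).** The flux in inner variables. Hypothesis allowed: S_CURVE, S_ECL1.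
PROOF.  `inn α g t` has `y`-derivatives `λ^{1/2+k} (∂_x^k g)(σ+λy)`. So for `h = flux (u t)`,
`λ^{5/2} h(σ+λy) = (inn u)_yy + (inn u)^5` (since `λ^{1/2+2}` and `λ^{5/2}` agree) and
`λ^3 inn(h_x) = λ^{7/2} h_x(σ+λy) = ∂_y[(inn u)_yy + (inn u)^5]`. The second formula: integration by parts
against `f ∈ IsE` (the bracket is bounded: `inn u` and its derivatives are bounded and smooth). -/
def S_FLUXP : Prop :=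
  ∀ (α : ℝ), 0 < α → α < 1 → ∀ (t : ℝ), 0 < t → ∀ g : ℝ → ℝ → ℝ, ContDiff ℝ (⊤ : ℕ∞) (g t) →
    (∀ y, lam α t ^ 3 * inn α (fun t x => deriv (flux (g t)) x) t y =
      deriv (fun x => iteratedDeriv 2 (inn α g t) x + inn α g t x ^ 5) y) ∧
    ((∀ k : ℕ, MemLp (iteratedDeriv k (g t)) 2) → ∀ f, IsE f →
      lam α t ^ 3 * (∫ y, inn α (fun t x => deriv (flux (g t)) x) t y * f y) =
        -∫ y, (iteratedDeriv 2 (inn α g t) y + inn α g t y ^ 5) * deriv f y)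

/-- **MASSID (0.7 h).** The symmetry behind the gain of one power of `ρ`. Hypothesis allowed: S_ECL1.
PROOF.  Integrate by parts (all products contain `τ ∈ IsE` or its derivatives):
`∫ v ∂(τ''-τ+5v^4τ) = -∫ v'τ'' + ∫ v'τ - ∫ 5v^4v'τ = ∫ v''τ' - ∫ vτ' + ∫ v^5τ'`. -/
def S_MASSID : Prop :=
  ∀ (α ρ : ℝ) (v τ Dτ : ℝ → ℝ), IsP v → IsE τ → IsE Dτ →
    (∫ y, calL α ρ v τ Dτ y * v y) = (∫ y, v y * Dτ y) +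
      (∫ y, (deriv (deriv v) y - v y + v y ^ 5) * deriv τ y) - (2 * α + 1) * ρ * ∫ y, v y * Lam τ y

/-- **PAIR (1.5 h).** Pairings of the remainders with `Th`. Hypotheses allowed: S_CURVE, S_QF, S_ECL1, S_IDN,
S_TAUB, S_SRC, S_WEAK, S_FLUXP, S_MASSID.
PROOF.  Let `Da(t) = ∫ v tauA`, `Db(t) = ∫ v tauB` (`v = inn α W t`). Insert the expansion `expn`: by S_IDN the
orders `ρ^0, ρ^1` of `Da` and `ρ^0, ρ^1, ρ^2` of `Db` vanish (order 2 of `Db`: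
`∫Q(V2'-ccZ) + κ^2∫ZZ' + ∫V2Q' = 0`), so `|Da| ≤ Cρ^2`, `|Db| ≤ Cρ^3`. Moreover `Da = ρ^2 A(t)`,
`Db = ρ^3 B(t)` where `A, B` are polynomials in `ρ` with coefficients constants or `∫ r(t,y) g(y) dy`, `g ∈ IsE`;
by `rt` and the mean value inequality `|r(τ,y) - r(t,y)| ≤ C sup(ρ/λ^3)(1+|y|)^n |τ-t|`, so the difference
quotients of `A, B` are `≤ C sup ρ/λ^3`. Therefore the derivatives of `Da, Db` (they exist by S_WEAK applied to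
`W`, `Wt` and the coefficient functions of `tauA`, `tauB`) satisfy `λ^3|Da'| ≤ Cρ^3`, `λ^3|Db'| ≤ Cρ^4`
(`λ^3 (ρ^k)' = 2αkρ^{k+1}`).
By S_WEAK, S_FLUXP (`λ^3 inn Wt = resid - λ^3 inn(flux_x)`):
`λ^3 Da' = ∫resid tauA + ∫(v''-v+v^5) tauA' - (2α+1)ρ∫vΛtauA + ∫v(λ^3∂_t tauA)`, and with S_MASSID:
`∫ calL(tauA) v = λ^3 Da' - ∫resid tauA`, so
`∫ srcA v = λ^3Da' - ∫resid tauA - 2Db - (5/2)(2α+1)ρDa = O(ρ^3)`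
(`|∫resid tauA| ≤ (∫wt resid^2)^{1/2}(∫wt^{-1}tauA^2)^{1/2} ≤ Cρ^{N0}`, `wt ≥ e^{-|y|/64}/2`, `N0 ≥ 4`). Similarly
`∫ srcB v = λ^3Db' - ∫resid tauB - (2α+1)ρDb + m cc ρ^2Da = O(ρ^4)`.
Finally `|v - Th| ≤ Cρ(1+|y|)^n`, so by S_SRC `∫ srcA Th = ∫ srcA v + O(ρ^3)`, `∫ srcB Th = ∫ srcB v + O(ρ^4)`. -/
def S_PAIR : Prop :=
  ∀ (α K C : ℝ) (n : ℕ) (Z Y V2 : ℝ → ℝ), 0 < α → α < 1 → 64 ≤ K →
   IsZ1 Z → IsY1 Z Y → IsV2 α Z V2 →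
   ∃ C' : ℝ, ∀ (N0 : ℕ) (T : ℝ) (W Wt r r' : ℝ → ℝ → ℝ), 4 ≤ N0 → 0 < T → rho α T ≤ 1 →
    Bg α N0 K T C n Z V2 W Wt r r' → ∀ t ∈ Set.Ioc 0 T,
      |∫ y, srcA α Z V2 (inn α W t) (rho α t) y * Th α Y (rho α t) y| ≤ C' * rho α t ^ 3 ∧
      |∫ y, srcB α Z V2 (inn α W t) (rho α t) y * Th α Y (rho α t) y| ≤ C' * rho α t ^ 4

/-- The remainder in inner variables after linear modulation. -/
noncomputable def etaI (α : ℝ) (Z V2 : ℝ → ℝ) (u W : ℝ → ℝ → ℝ) (a b : ℝ → ℝ) (t y : ℝ) : ℝ :=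
  inn α u t y - inn α W t y - a t * tauA α Z (rho α t) y - b t * tauB α Z V2 (rho α t) y

/-- The weighted norm squared. -/
noncomputable def hsq (α K : ℝ) (η : ℝ → ℝ → ℝ) (t : ℝ) : ℝ :=
  ∫ y, wt K (rho α t) y * (deriv (η t) y ^ 2 + η t y ^ 2)

/-- **WTL (0.8 h).** Localised quantities are controlled by the weighted norm.
PROOF.  `wt K ρ y ≥ 1/(1+e^{|y|/K}) ≥ e^{-|y|/64}/2` for `K ≥ 64`, `0<ρ ≤ 1`. First: Cauchy-Schwarz with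
`∫ 2e^{|y|/64}e^{-|y|}dy ≤ 8`. Second: `g = e^{-|y|/4}f^2` is Lipschitz-type (absolutely continuous), tends to `0`
at `±∞` (f → 0), `|g'| ≤ e^{-|y|/4}(f^2/4 + 2|ff'|) ≤ 2e^{-|y|/4}(f^2+f'^2) ≤ 4 wt (f^2+f'^2)`; integrate from
`-∞` (treat `y<0` and `y>0` separately, from the infinite end). Third: `e^{-|y|/2}f^2 ≤ 2 wt f^2`. Fourth:
`e^{-|y|/2·...}`: `|f|^5e^{-(3/4)|y|} = (e^{-|y|/4}f^2)^{3/2} (f^2 e^{-(3/8)|y|}) ≤ (4h^2)^{3/2}·2 wt f^2`. -/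
def S_WTL : Prop :=
  ∀ (K ρ : ℝ), 64 ≤ K → 0 < ρ → ρ ≤ 1 → ∀ f : ℝ → ℝ, ContDiff ℝ 1 f → MemLp f 2 → MemLp (deriv f) 2 →
    (∀ y, Real.exp (-|y| / 64) / 2 ≤ wt K ρ y ∧ wt K ρ y ≤ 1) ∧
    (∫ y, |f y| * Real.exp (-|y| / 2)) ≤
      4 * Real.sqrt (∫ y, wt K ρ y * (deriv f y ^ 2 + f y ^ 2)) ∧
    (∀ y, Real.exp (-|y| / 4) * f y ^ 2 ≤ 4 * ∫ x, wt K ρ x * (deriv f x ^ 2 + f x ^ 2)) ∧
    (∫ y, f y ^ 2 * Real.exp (-|y| / 2)) ≤ 2 * ∫ y, wt K ρ y * (deriv f y ^ 2 + f y ^ 2) ∧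
    (∫ y, |f y| ^ 5 * Real.exp (-(3 / 4) * |y|)) ≤
      16 * (∫ y, wt K ρ y * (deriv f y ^ 2 + f y ^ 2)) ^ ((5 : ℝ) / 2)

/-- **MOD (1.5 h).** Linear modulation. Hypotheses allowed: S_CURVE, S_QF, S_ECL1, S_IDN, S_TAUB, S_WEAK.
PROOF.  Let `m11 = ∫tauA Q^3`, `m12 = ∫tauB Q^3`, `m21 = ∫tauA Q'`, `m22 = ∫tauB Q'` (polynomials in `ρ`),
`Δ = m11m22 - m12m21 ≥ δ0 > 0` for `ρ ≤ ρ1` (S_TAUB), `X = ∫inn(u-W)Q^3`, `Y' = ∫inn(u-W)Q'`,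
`a = (m22X - m12Y')/Δ`, `b = (m11Y' - m21X)/Δ`. Then `∫etaI Q^3 = ∫etaI Q' = 0` (Cramer). `X, Y'` are `C^1`
on `[t1,t2]` by S_WEAK (applied to `u` and to `W`; `inn` is linear in `u`), `ρ` is smooth in `t`; so `a, b` are
differentiable within `[t1,t2]` with continuous derivative (the derivative formula of S_WEAK is continuous in
`t` by dominated convergence). `|a|+|b| ≤ C(|X|+|Y'|)` and `|Q^3|,|Q'| ≤ Ce^{-|y|/2}`. -/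
def S_MOD : Prop :=
  ∀ (α K C : ℝ) (n : ℕ) (Z Y V2 : ℝ → ℝ), 0 < α → α < 1 → IsZ1 Z → IsY1 Z Y → IsV2 α Z V2 →
   ∃ ρ1 C' : ℝ, 0 < ρ1 ∧ ∀ (N0 : ℕ) (T : ℝ) (W Wt r r' : ℝ → ℝ → ℝ), 0 < T →
    Bg α N0 K T C n Z V2 W Wt r r' →
    ∀ (u : ℝ → ℝ → ℝ) (t1 t2 : ℝ), 0 < t1 → t1 < t2 → t2 ≤ T →
      rho α t2 ≤ ρ1 → SmoothSol u t1 t2 →
      ∃ a b a' b' : ℝ → ℝ, ContinuousOn a' (Set.Icc t1 t2) ∧ ContinuousOn b' (Set.Icc t1 t2) ∧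
       ∀ t ∈ Set.Icc t1 t2,
        HasDerivWithinAt a (a' t) (Set.Icc t1 t2) t ∧ HasDerivWithinAt b (b' t) (Set.Icc t1 t2) t ∧
        (∫ y, etaI α Z V2 u W a b t y * Q y ^ 3) = 0 ∧
        (∫ y, etaI α Z V2 u W a b t y * deriv Q y) = 0 ∧
        |a t| + |b t| ≤ C' * ∫ y, |inn α u t y - inn α W t y| * Real.exp (-|y| / 2)

/-- `A = λ^3 a' + (5/2)(2α+1)ρ a - (4/∫Q) cc ρ^2 b`. -/
noncomputable def AA (α : ℝ) (a b a' : ℝ → ℝ) (t : ℝ) : ℝ :=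
  lam α t ^ 3 * a' t + (5 / 2) * (2 * α + 1) * rho α t * a t - (4 / IQ) * cc α * rho α t ^ 2 * b t

/-- `B = λ^3 b' + 2a + (2α+1)ρ b`. -/
noncomputable def BB (α : ℝ) (a b b' : ℝ → ℝ) (t : ℝ) : ℝ :=
  lam α t ^ 3 * b' t + 2 * a t + (2 * α + 1) * rho α t * b t

/-- **WEAKE (1.5 h).** The equation of the remainder tested with `f`. Hypotheses allowed: S_CURVE, S_QF, S_ECL1,
S_TAUB, S_WEAK, S_FLUXP.
PROOF.  Write `e = etaI`, `z = a tauA + b tauB`, `ε = z + e = inn u - v`. S_WEAK + S_FLUXP for `u`: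
`λ^3 d/dt∫ inn u f = ∫ ((inn u)''-inn u+(inn u)^5) f' - (2α+1)ρ∫ inn u Λf`; for `W`: the same plus `∫ resid f`
(`λ^3 inn Wt = resid - λ^3 inn(flux_x)`). And `λ^3 d/dt∫ z f = λ^3a'∫tauA f + λ^3b'∫tauB f + a∫DtauA f +
b∫DtauB f` with `DtauA = 2αρ^2κyZ'`, `DtauB = 2αρ^2κZ' + 4αρ^3(V2'-ccZ)` (differentiate the polynomials in `ρ`).
Subtract: `λ^3 d/dt∫ e f = ∫(ε''-ε+(v+ε)^5-v^5)f' - (2α+1)ρ∫εΛf - ∫resid f - λ^3a'∫tauA f - ... `.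
In the first two integrals split `ε = z + e` in the linear part `∫(ε''-ε+5v^4ε)f' - (2α+1)ρ∫εΛf`; the `z` part
is `-∫[∂(z''-z+5v^4z) - (2α+1)ρΛz] f`. Together with the `a', b'` terms: `-∫(λ^3a'tauA + λ^3b'tauB + a calL(tauA) +
b calL(tauB)) f = -∫(A tauA + B tauB + a srcA + b srcB) f` by the definitions of `srcA, srcB, A, B`. -/
def S_WEAKE : Prop :=
  ∀ (α : ℝ) (N0 : ℕ) (K T C : ℝ) (n : ℕ) (Z Y V2 : ℝ → ℝ) (W Wt r r' : ℝ → ℝ → ℝ),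
    0 < α → α < 1 → 0 < T → IsZ1 Z → IsY1 Z Y → IsV2 α Z V2 → Bg α N0 K T C n Z V2 W Wt r r' →
    ∀ (u : ℝ → ℝ → ℝ) (t1 t2 : ℝ), 0 < t1 → t1 < t2 → t2 ≤ T → SmoothSol u t1 t2 →
     ∀ a b a' b' : ℝ → ℝ,
      (∀ t ∈ Set.Icc t1 t2, HasDerivWithinAt a (a' t) (Set.Icc t1 t2) t ∧
        HasDerivWithinAt b (b' t) (Set.Icc t1 t2) t) →
      ∀ f, IsE f → ∀ t ∈ Set.Icc t1 t2,
       HasDerivWithinAt (fun τ => ∫ y, etaI α Z V2 u W a b τ y * f y)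
        ((1 / lam α t ^ 3) * (
          (∫ y, etaI α Z V2 u W a b t y * (deriv (deriv (deriv f)) y - deriv f y
              + 5 * inn α W t y ^ 4 * deriv f y - (2 * α + 1) * rho α t * Lam f y))
          + (∫ y, (inn α u t y ^ 5 - inn α W t y ^ 5
              - 5 * inn α W t y ^ 4 * (inn α u t y - inn α W t y)) * deriv f y)
          - (∫ y, resid α W Wt t y * f y)
          - AA α a b a' t * (∫ y, tauA α Z (rho α t) y * f y)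
          - BB α a b b' t * (∫ y, tauB α Z V2 (rho α t) y * f y)
          - a t * (∫ y, srcA α Z V2 (inn α W t) (rho α t) y * f y)
          - b t * (∫ y, srcB α Z V2 (inn α W t) (rho α t) y * f y)))
        (Set.Icc t1 t2) t

/-- **LAWAB (1.2 h).** Laws of `a, b`. Hypotheses allowed: S_CURVE, S_QF, S_ECL1, S_IDN, S_TAUB, S_SRC, S_WTL,
S_WEAKE.
PROOF.  Apply S_WEAKE with `f = Q^3` and `f = Q'`; the left sides are `0` (derivative of the zero function within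
`[t1,t2]`, `t1<t2`, uniqueness). So `A∫tauA f + B∫tauB f` equals the sum of: a linear term `≤ C∫|e|e^{-|y|/2} ≤
Ch` (`|f'''|+|f'|+|Λf| ≤ Ce^{-(3/4)|y|}`, `v` bounded by `b0`), the quadratic term
`|(v+ε)^5-v^5-5v^4ε| ≤ C(ε^2+|ε|^5)`, `ε = z+e`, `|z| ≤ C(|a|+|b|)e^{-(3/4)|y|}`, so `≤ C(a^2+b^2+h^2) ≤ C(a^2+b^2+h)`
(`h, |a|, |b| ≤ 1`; S_WTL), the residual `|∫resid f| ≤ (∫wt resid^2)^{1/2}(∫wt^{-1}f^2)^{1/2} ≤ Cρ^{N0}`, and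
`|a||∫srcA f| ≤ Cρ^2|a|`, `|b||∫srcB f| ≤ Cρ^3|b|`. The `2×2` matrix is invertible for `ρ ≤ ρ1` (S_TAUB). -/
def S_LAWAB : Prop :=
  ∀ (α K C : ℝ) (n : ℕ) (Z Y V2 : ℝ → ℝ), 0 < α → α < 1 → 64 ≤ K →
   IsZ1 Z → IsY1 Z Y → IsV2 α Z V2 →
   ∃ ρ1 C' : ℝ, 0 < ρ1 ∧ ∀ (N0 : ℕ) (T : ℝ) (W Wt r r' : ℝ → ℝ → ℝ), 0 < T → rho α T ≤ 1 →
    Bg α N0 K T C n Z V2 W Wt r r' →
    ∀ (u : ℝ → ℝ → ℝ) (t1 t2 : ℝ), 0 < t1 → t1 < t2 → t2 ≤ T →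
      rho α t2 ≤ ρ1 → SmoothSol u t1 t2 → ∀ a b a' b' : ℝ → ℝ,
      (∀ t ∈ Set.Icc t1 t2, HasDerivWithinAt a (a' t) (Set.Icc t1 t2) t ∧
        HasDerivWithinAt b (b' t) (Set.Icc t1 t2) t ∧
        (∫ y, etaI α Z V2 u W a b t y * Q y ^ 3) = 0 ∧
        (∫ y, etaI α Z V2 u W a b t y * deriv Q y) = 0) →
      ∀ t ∈ Set.Icc t1 t2, |a t| ≤ 1 → |b t| ≤ 1 → hsq α K (etaI α Z V2 u W a b) t ≤ 1 →
        |AA α a b a' t| + |BB α a b b' t| ≤ C' * (Real.sqrt (hsq α K (etaI α Z V2 u W a b) t)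
          + rho α t ^ 2 * |a t| + rho α t ^ 3 * |b t| + a t ^ 2 + b t ^ 2 + rho α t ^ N0)

/-- **LAWQ (1.2 h).** Law of `q = ∫ e Th`. Hypotheses allowed: S_CURVE, S_QF, S_ECL1, S_IDN, S_IDL, S_TAUB, S_SRC,
S_PAIR, S_WTL, S_WEAKE, `Lop (Lam Q) = -2Q`.
PROOF.  `q = ∫eQ + ρκ∫eY`; S_WEAKE with `f = Q` and `f = Y` and `(ρ)' = 2αρ^2/λ^3` give: `λ^3q'` = formula of
S_WEAKE with `f = Th` (linear in `f`) `+ 2αρ^2κ∫eY`. Linear term: `-∫ e (Lop_v Th' + (2α+1)ρΛTh)` where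
`Lop_v g = -g''+g-5v^4g`; `v^4 = Q^4+4ρQ^3κZ+O(ρ^2(1+|y|)^{n'})`, so it is
`-∫e[Lop Q' + ρ(κLop Y' - 20Q^3Q'κZ + (2α+1)ΛQ)] + O(ρ^2h) = 2(2α+1)ρ∫eQ + O(ρ^2h) = 2(2α+1)ρq + O(ρ^2h)` by IDL(b).
Quadratic term `≤ C(a^2+b^2+h^2)` as in LAWAB (`h ≤ 1`), residual `≤ Cρ^{N0}`,
`|A||∫tauA Th| ≤ C|A|ρ^2`, same for `B` (S_TAUB), `|a||∫srcA Th| ≤ C|a|ρ^3`, `|b||∫srcB Th| ≤ C|b|ρ^4` (S_PAIR). -/
def S_LAWQ : Prop :=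
  ∀ (α K C : ℝ) (n : ℕ) (Z Y V2 : ℝ → ℝ), 0 < α → α < 1 → 64 ≤ K →
   IsZ1 Z → IsY1 Z Y → IsV2 α Z V2 →
   ∃ ρ1 C' : ℝ, 0 < ρ1 ∧ ∀ (N0 : ℕ) (T : ℝ) (W Wt r r' : ℝ → ℝ → ℝ), 4 ≤ N0 → 0 < T →
    rho α T ≤ 1 → Bg α N0 K T C n Z V2 W Wt r r' →
    ∀ (u : ℝ → ℝ → ℝ) (t1 t2 : ℝ), 0 < t1 → t1 < t2 → t2 ≤ T →
      rho α t2 ≤ ρ1 → SmoothSol u t1 t2 → ∀ a b a' b' : ℝ → ℝ,
      (∀ t ∈ Set.Icc t1 t2, HasDerivWithinAt a (a' t) (Set.Icc t1 t2) t ∧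
        HasDerivWithinAt b (b' t) (Set.Icc t1 t2) t) →
      ∀ t ∈ Set.Icc t1 t2, ∃ q' : ℝ,
        HasDerivWithinAt (fun τ => ∫ y, etaI α Z V2 u W a b τ y * Th α Y (rho α τ) y) q'
          (Set.Icc t1 t2) t ∧
        (|a t| ≤ 1 → |b t| ≤ 1 → hsq α K (etaI α Z V2 u W a b) t ≤ 1 →
         |lam α t ^ 3 * q' - 2 * (2 * α + 1) * rho α t *
            ∫ y, etaI α Z V2 u W a b t y * Th α Y (rho α t) y| ≤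
          C' * (rho α t ^ 2 * Real.sqrt (hsq α K (etaI α Z V2 u W a b) t)
            + hsq α K (etaI α Z V2 u W a b) t + rho α t ^ 3 * |a t| + rho α t ^ 4 * |b t|
            + rho α t ^ 2 * (|AA α a b a' t| + |BB α a b b' t|) + a t ^ 2 + b t ^ 2
            + rho α t ^ N0))

end Pool.Agent.Helper33.KV
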