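import Pool.Agent.Helper33.KV.GoalsF
import Pool.Agent.Helper25.KV.Defs
import Pool.Agent.Helper41.KV.DefsD

/-!
# Project KV (`MP_66be51_an`), section F, part 2: bootstrap near the soliton

`S_HINEQ`, `S_MASSL` are the interface statements of section G (helper48).
-/

namespace Pool.Agent.Helper33.KV

open Real MeasureTheory Pool.Agent.Helper41.KV

/-- The dissipation in inner variables, `∫ φ_y (e_yy^2 + e_y^2 + e^2)`, `φ = wt K ρ`,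
`φ_y = φ(1-φ)/K`. -/
noncomputable def disp (α K : ℝ) (η : ℝ → ℝ → ℝ) (t : ℝ) : ℝ :=
  ∫ y, wt K (rho α t) y * (1 - wt K (rho α t) y) / K *
    (iteratedDeriv 2 (η t) y ^ 2 + deriv (η t) y ^ 2 + η t y ^ 2)

/-- `q = ∫ e Th`. -/
noncomputable def qq (α : ℝ) (Y : ℝ → ℝ) (η : ℝ → ℝ → ℝ) (t : ℝ) : ℝ :=
  ∫ y, η t y * Th α Y (rho α t) y

/-- The energy functional in inner variables: `∫ φ (e_y^2 + e^2 - ((V+e)^6 - V^6 - 6V^5e)/3)`,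
`V = inn W + a tauA + b tauB`. -/
noncomputable def Hfun (α K : ℝ) (Z V2 : ℝ → ℝ) (u W : ℝ → ℝ → ℝ) (a b : ℝ → ℝ) (t : ℝ) : ℝ :=
  ∫ y, wt K (rho α t) y * (deriv (etaI α Z V2 u W a b t) y ^ 2 + etaI α Z V2 u W a b t y ^ 2
    - (inn α u t y ^ 6 - (inn α u t y - etaI α Z V2 u W a b t y) ^ 6
      - 6 * (inn α u t y - etaI α Z V2 u W a b t y) ^ 5 * etaI α Z V2 u W a b t y) / 3)

/-- **PSI (1.5 h).** The equation of the modulated remainder, pointwise. Hypotheses allowed: S_CURVE, S_QF,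
S_ECL1, S_TAUB, S_FLUXP.
`e = etaI`, `V = inn u - e = inn W + a tauA + b tauB`. Then (within `[t1,t2]`)
`λ^3 e_t = -∂_y(e_yy - e + (V+e)^5 - V^5) + (2α+1)ρ Λe - Ψ`,
`Ψ = resid + A tauA + B tauB + a srcA + b srcB + ∂_y[V^5 - v^5 - 5v^4(V-v)]`, `v = inn W`.
PROOF.  For fixed `y`, `inn u t y = λ^{1/2} u(t,σ+λy)`; `u` is `C^1` in `(t,x)` (both partial derivatives jointly
continuous), so the chain rule gives `λ^3 ∂_t inn u = λ^3 inn(u_t) + ∂_y inn u + (2α+1)ρ Λ inn u`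
(`σ_t = λ^{-2}`, `λ_t = (2α+1)ρλ^{-2}`). With S_FLUXP, `λ^3 inn(u_t) = -∂_y((inn u)_yy + (inn u)^5)`; for `W`:
`λ^3 inn(W_t) = resid - ∂_y(v_yy + v^5)`. Subtract, subtract `λ^3 ∂_t (a tauA + b tauB) = λ^3a'tauA + λ^3b'tauB +
a·2αρ^2κyZ' + b(2αρ^2κZ' + 4αρ^3(V2'-ccZ))`, and use the definitions of `calL, srcA, srcB, AA, BB`. -/
def S_PSI : Prop :=
  ∀ (α : ℝ) (N0 : ℕ) (K T C : ℝ) (n : ℕ) (Z Y V2 : ℝ → ℝ) (W Wt r r' : ℝ → ℝ → ℝ),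
    0 < α → α < 1 → 0 < T → IsZ1 Z → IsY1 Z Y → IsV2 α Z V2 → Bg α N0 K T C n Z V2 W Wt r r' →
    ∀ (u : ℝ → ℝ → ℝ) (t1 t2 : ℝ), 0 < t1 → t1 < t2 → t2 ≤ T → SmoothSol u t1 t2 →
     ∀ a b a' b' : ℝ → ℝ,
      (∀ t ∈ Set.Icc t1 t2, HasDerivWithinAt a (a' t) (Set.Icc t1 t2) t ∧
        HasDerivWithinAt b (b' t) (Set.Icc t1 t2) t) →
      ∀ t ∈ Set.Icc t1 t2, ∀ y,
       HasDerivWithinAt (fun τ => etaI α Z V2 u W a b τ y)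
        ((1 / lam α t ^ 3) * (
          -deriv (fun x => iteratedDeriv 2 (etaI α Z V2 u W a b t) x - etaI α Z V2 u W a b t x
              + inn α u t x ^ 5 - (inn α u t x - etaI α Z V2 u W a b t x) ^ 5) y
          + (2 * α + 1) * rho α t * Lam (etaI α Z V2 u W a b t) y
          - (resid α W Wt t y + AA α a b a' t * tauA α Z (rho α t) y
              + BB α a b b' t * tauB α Z V2 (rho α t) y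
              + a t * srcA α Z V2 (inn α W t) (rho α t) y
              + b t * srcB α Z V2 (inn α W t) (rho α t) y
              + deriv (fun x => (inn α u t x - etaI α Z V2 u W a b t x) ^ 5 - inn α W t x ^ 5
                  - 5 * inn α W t x ^ 4 *
                    (inn α u t x - etaI α Z V2 u W a b t x - inn α W t x)) y)))
        (Set.Icc t1 t2) t

/-- **HINEQ (interface, section G3).** Coercivity and evolution of the energy functional. `C', c` do not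
depend on `N0`. -/
def S_HINEQ : Prop :=
  ∀ (α K C : ℝ) (n : ℕ) (Z Y V2 : ℝ → ℝ), 0 < α → α < 1 → 64 ≤ K → IsZ1 Z → IsY1 Z Y → IsV2 α Z V2 →
    ∃ C' c : ℝ, 0 < C' ∧ 0 < c ∧ ∀ N0 : ℕ, 4 ≤ N0 → ∃ ρ1 δ0 : ℝ, 0 < ρ1 ∧ 0 < δ0 ∧
    ∀ (T : ℝ) (W Wt r r' : ℝ → ℝ → ℝ), 0 < T → rho α T ≤ 1 →
     Bg α N0 K T C n Z V2 W Wt r r' →
     ∀ (u : ℝ → ℝ → ℝ) (t1 t2 : ℝ), 0 < t1 → t1 < t2 → t2 ≤ T → rho α t2 ≤ ρ1 →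
      SmoothSol u t1 t2 → ∀ a b a' b' : ℝ → ℝ,
      ContinuousOn a' (Set.Icc t1 t2) → ContinuousOn b' (Set.Icc t1 t2) →
      (∀ t ∈ Set.Icc t1 t2, HasDerivWithinAt a (a' t) (Set.Icc t1 t2) t ∧
        HasDerivWithinAt b (b' t) (Set.Icc t1 t2) t ∧
        (∫ y, etaI α Z V2 u W a b t y * Q y ^ 3) = 0 ∧
        (∫ y, etaI α Z V2 u W a b t y * deriv Q y) = 0 ∧
        |a t| ≤ rho α t ^ 2 ∧ |b t| ≤ rho α t ^ 2 ∧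
        hsq α K (etaI α Z V2 u W a b) t ≤ rho α t ^ 4 ∧
        (∫ y, etaI α Z V2 u W a b t y ^ 2) ≤ δ0) →
      (∀ t ∈ Set.Icc t1 t2,
        hsq α K (etaI α Z V2 u W a b) t ≤ C' * Hfun α K Z V2 u W a b t ∧
        |Hfun α K Z V2 u W a b t| ≤ C' * hsq α K (etaI α Z V2 u W a b) t) ∧
      ContinuousOn (disp α K (etaI α Z V2 u W a b)) (Set.Icc t1 t2) ∧
      ∀ s ∈ Set.Icc t1 t2, ∀ t ∈ Set.Icc t1 t2, s ≤ t →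
        Hfun α K Z V2 u W a b t - Hfun α K Z V2 u W a b s
          + c * ∫ τ in s..t, disp α K (etaI α Z V2 u W a b) τ / lam α τ ^ 3 ≤
        ∫ τ in s..t, (C' / lam α τ ^ 3) * (rho α τ * hsq α K (etaI α Z V2 u W a b) τ
          + (|AA α a b a' τ| + |BB α a b b' τ|) * |qq α Y (etaI α Z V2 u W a b) τ|
          + Real.sqrt (hsq α K (etaI α Z V2 u W a b) τ) *
              (rho α τ * (|AA α a b a' τ| + |BB α a b b' τ|) + rho α τ ^ 2 * |a τ|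
                + rho α τ ^ 3 * |b τ| + a τ ^ 2 + b τ ^ 2 + rho α τ ^ N0)
          + rho α τ ^ (2 * N0))

/-- **MASSL (1.2 h).** Mass conservation gives smallness in `L^2` of the remainder. Hypotheses allowed:
S_CURVE, S_QF, S_ECL1, S_TAUB, S_WTL, S_CONTQ (regularity of `etaI`), mass conservation for `SmoothSol`
(`Helper36.KL`).
PROOF.  `∫u(t)^2 = ∫u(t1)^2 = ∫W(t1)^2 + ∫g^2` (disjoint supports: `W = 0` off `[-1,1]`, `g = 0` on `[-1,∞)`).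
Inner variables, `U = inn u = V + e`, `V = v + z`, `v = inn W`, `z = a tauA + b tauB`:
`∫e^2 = ∫u^2 - ∫V^2 - 2∫Ve = [∫W(t1)^2 - ∫W(t)^2] + ∫g^2 - 2∫vz - ∫z^2 - 2∫Ve`. First bracket `≤ ε/8` (`BgY.mass`).
`|∫vz| + ∫z^2 ≤ C(|a|+|b|) ≤ Cρ`. `∫|V||e| ≤ ∫φ|V||e| + ∫(1-φ)|V||e| ≤ (∫φV^2)^{1/2} h + (∫(1-φ)^2V^2)^{1/2}(∫e^2)^{1/2}`,
`φ = wt K ρ ≤ 1`, `∫V^2 ≤ 2∫v^2 + 2∫z^2 ≤ C` (`∫v^2 = ∫W(t)^2 ≤ ∫W(T')^2 + 1` by `BgY.mass`), `h ≤ ρ`;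
`∫(1-φ)^2v^2 ≤ C2ρ^{3/2}` (`BgY.lft`), `∫(1-φ)^2z^2 ≤ Cρ^2`. So `∫e^2 ≤ ∫g^2 + ε/2 + Cρ^{3/4}(∫e^2)^{1/2}`, and
`Cρ^{3/4}X ≤ X^2/2 + C^2ρ^{3/2}/2`: `∫e^2 ≤ 2∫g^2 + ε`. -/
def S_MASSL : Prop :=
  ∀ (α : ℝ) (N0 : ℕ) (K T C C2 M : ℝ) (n : ℕ) (Z Y V2 : ℝ → ℝ) (W Wt r r' : ℝ → ℝ → ℝ),
    0 < α → α < 1 → 64 ≤ K → 0 < T → rho α T ≤ 1 → IsZ1 Z → IsY1 Z Y → IsV2 α Z V2 →
    Bg α N0 K T C n Z V2 W Wt r r' → BgY α K T C2 M W Wt →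
    ∀ ε : ℝ, 0 < ε → ∃ ρ1 : ℝ, 0 < ρ1 ∧ ∀ (u : ℝ → ℝ → ℝ) (t1 t2 : ℝ), 0 < t1 → t1 < t2 → t2 ≤ T →
      rho α t2 ≤ ρ1 → SmoothSol u t1 t2 → ∀ g : ℝ → ℝ, (∀ x, u t1 x = W t1 x + g x) →
      (∀ x, -1 ≤ x → g x = 0) → MemLp g 2 → ∀ a b : ℝ → ℝ, ∀ t ∈ Set.Icc t1 t2,
      |a t| ≤ rho α t → |b t| ≤ rho α t → hsq α K (etaI α Z V2 u W a b) t ≤ rho α t ^ 2 →
      (∫ y, etaI α Z V2 u W a b t y ^ 2) ≤ 2 * (∫ x, g x ^ 2) + ε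

/-- **BOOT (1.5 h).** The scalar bootstrap. Hypothesis allowed: S_CURVE.
All functions live on `[t1,t2]`; `A = AA`, `B = BB`. Let `ρ = rho α t`, `D = λ^3 d/dt`, `ρ/λ^3 = 1/((4α+3)t)`,
`d/dt ρ^k = 2αk ρ^k (ρ/λ^3)`, so `∫_{t1}^t C ρ^k (ρ/λ^3) dτ ≤ (C/(2αk)) ρ(t)^k`.
PROOF.  Use the hypotheses `h2 ≤ ρ^{2N}`, `|a| ≤ ρ^{N-1}`, `|b| ≤ ρ^{N-2}`, `|q| ≤ ρ^{N+1}` (`N ≥ 6`, `N0 ≥ N + 2`,
`ρ ≤ 1`): `|A|+|B| ≤ C(ρ^N + ρ^{N+1} + ρ^{N+1} + 2ρ^{2N-4} + ρ^{N0}) ≤ 6Cρ^N`.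
`λ^3a' = A - (5/2)(2α+1)ρa + m cc ρ^2b`, so `|a'| ≤ C1 ρ^{N-1}(ρ/λ^3)`, `|a(t)| ≤ |a(t1)| + (C1/(2α(N-1)))ρ^{N-1}`.
`λ^3b' = B - 2a - (2α+1)ρb`: `|b'| ≤ C1ρ^{N-2}(ρ/λ^3)`, `|b(t)| ≤ |b(t1)| + (C1/(2α(N-2)))ρ^{N-2}`.
`|λ^3q'| ≤ 2(2α+1)ρ·ρ^{N+1} + C(ρ^{N+2} + ρ^{2N} + 2ρ^{N+2} + 6Cρ^{N+2} + 2ρ^{2N-4} + ρ^{N0}) ≤ C1ρ^{N+2}`:
`|q(t)| ≤ |q(t1)| + (C1/(2α(N+1)))ρ^{N+1}`.
`Hf(t) ≤ Hf(t1) + ∫ (C/λ^3)(ρ^{2N+1} + 6Cρ^Nρ^{N+1} + ρ^N(6Cρ^{N+1} + 2ρ^{N+1} + 2ρ^{2N-4} + ρ^{N0}) + ρ^{2N0})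
≤ Hf(t1) + (C1/(4αN))ρ^{2N}` (all exponents are `≥ 2N+1`), and `h2 ≤ C Hf`. The initial values are `≤ ρ(t1)^{2N0} ≤ ρ^{2N+2}`-small:
for `N` large and `ρ ≤ ρ1` each bound is `≤ 1/2` of the assumed one. The total of `Hf` and the dissipation
integral is bounded in the same way: `c∫disp/λ^3 ≤ Hf(t1) + (C1/(4αN))ρ^{2N} - Hf(t)`, `-Hf ≤ 0`. -/
def S_BOOT : Prop :=
  ∀ (α C c : ℝ), 0 < α → α < 1 → 0 < C → 0 < c → ∃ N1 : ℕ, 6 ≤ N1 ∧ ∀ N N0 : ℕ, N1 ≤ N → N + 2 ≤ N0 →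
   ∃ ρ1 : ℝ, 0 < ρ1 ∧ ρ1 ≤ 1 ∧
   ∀ (t1 t2 : ℝ) (a b q a' b' q' h2 Hf ds : ℝ → ℝ), 0 < t1 → t1 < t2 → rho α t2 ≤ ρ1 →
    ContinuousOn h2 (Set.Icc t1 t2) → ContinuousOn ds (Set.Icc t1 t2) →
    ContinuousOn a' (Set.Icc t1 t2) → ContinuousOn b' (Set.Icc t1 t2) →
    (∀ t ∈ Set.Icc t1 t2, 0 ≤ h2 t ∧ 0 ≤ ds t ∧ h2 t ≤ C * Hf t ∧
      HasDerivWithinAt a (a' t) (Set.Icc t1 t2) t ∧ HasDerivWithinAt b (b' t) (Set.Icc t1 t2) t ∧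
      HasDerivWithinAt q (q' t) (Set.Icc t1 t2) t ∧
      |AA α a b a' t| + |BB α a b b' t| ≤ C * (Real.sqrt (h2 t) + rho α t ^ 2 * |a t|
        + rho α t ^ 3 * |b t| + a t ^ 2 + b t ^ 2 + rho α t ^ N0) ∧
      |lam α t ^ 3 * q' t - 2 * (2 * α + 1) * rho α t * q t| ≤
        C * (rho α t ^ 2 * Real.sqrt (h2 t) + h2 t + rho α t ^ 3 * |a t| + rho α t ^ 4 * |b t|
          + rho α t ^ 2 * (|AA α a b a' t| + |BB α a b b' t|) + a t ^ 2 + b t ^ 2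
          + rho α t ^ N0) ∧
      h2 t ≤ rho α t ^ (2 * N) ∧ |a t| ≤ rho α t ^ (N - 1) ∧ |b t| ≤ rho α t ^ (N - 2) ∧
      |q t| ≤ rho α t ^ (N + 1)) →
    (∀ s ∈ Set.Icc t1 t2, ∀ t ∈ Set.Icc t1 t2, s ≤ t →
      Hf t - Hf s + c * ∫ τ in s..t, ds τ / lam α τ ^ 3 ≤
        ∫ τ in s..t, (C / lam α τ ^ 3) * (rho α τ * h2 τ
          + (|AA α a b a' τ| + |BB α a b b' τ|) * |q τ|
          + Real.sqrt (h2 τ) * (rho α τ * (|AA α a b a' τ| + |BB α a b b' τ|) + rho α τ ^ 2 * |a τ|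
              + rho α τ ^ 3 * |b τ| + a τ ^ 2 + b τ ^ 2 + rho α τ ^ N0)
          + rho α τ ^ (2 * N0))) →
    |a t1| ≤ rho α t1 ^ N0 → |b t1| ≤ rho α t1 ^ N0 → |q t1| ≤ rho α t1 ^ N0 →
    Hf t1 ≤ rho α t1 ^ (2 * N0) →
    ∀ t ∈ Set.Icc t1 t2,
      h2 t ≤ rho α t ^ (2 * N) / 2 ∧ |a t| ≤ rho α t ^ (N - 1) / 2 ∧
      |b t| ≤ rho α t ^ (N - 2) / 2 ∧ |q t| ≤ rho α t ^ (N + 1) / 2 ∧
      (∫ τ in t1..t, ds τ / lam α τ ^ 3) ≤ rho α t ^ (2 * N)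

/-- **BOOTC (0.6 h).** Abstract continuity argument.
PROOF.  Let `S = {t ∈ [t1,t2] : ∀ s ∈ [t1,t], ∀ i, f i s ≤ g i s}`, nonempty (contains `t1`), closed under increasing limits
by continuity; `t* = sup S ∈ S`. If `t* < t2`: the hypothesis on `[t1,t*]` gives `f i t* < g i t*` for all `i`
(`if t* = t1` by assumption), by continuity `f i < g i` on a neighbourhood of `t*` in `[t1,t2]`, contradiction with the sup. -/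
def S_BOOTC : Prop :=
  ∀ (m : ℕ) (t1 t2 : ℝ) (f g : Fin m → ℝ → ℝ), t1 < t2 →
    (∀ i, ContinuousOn (f i) (Set.Icc t1 t2)) → (∀ i, ContinuousOn (g i) (Set.Icc t1 t2)) →
    (∀ i, f i t1 < g i t1) →
    (∀ t ∈ Set.Ioc t1 t2, (∀ s ∈ Set.Icc t1 t, ∀ i, f i s ≤ g i s) → ∀ i, f i t < g i t) →
    ∀ t ∈ Set.Icc t1 t2, ∀ i, f i t < g i t

/-- **CONTQ (1 h).** Continuity in time of the quantities of the bootstrap. Hypotheses allowed: S_CURVE, S_QF,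
S_ECL1, S_TAUB.
PROOF.  `e = etaI` is jointly continuous with its `y`-derivatives on `[t1,t2] × ℝ`. For the integrals with a weight `wt`
(or `e^2` without weight) change variables to `x = σ+λy`: `∫ φ (e_y^2+e^2) dy = ∫ φ (λ^2 (η_x)^2 + η^2) dx`, `η = u - W - outr(...)`;
`HInf` gives bounds of `∫ u^2`, `∫u_t^2` (`u_t = -(flux)_x` is a polynomial in derivatives), so `t ↦ u(t) ∈ L^2` is
Lipschitz (`∫(u(t)-u(s))^2 dx ≤ |t-s|^2 sup ∫ u_t^2` by Cauchy-Schwarz in time and Fubini), the same for all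
`x`-derivatives, for `W` and for the exponentially localised `outr`-terms; the weights are bounded and continuous
in `t`, and dominated convergence applies to `∫ (φ(t)-φ(s)) (fixed integrable function)`. -/
def S_CONTQ : Prop :=
  ∀ (α : ℝ) (N0 : ℕ) (K T C : ℝ) (n : ℕ) (Z Y V2 : ℝ → ℝ) (W Wt r r' : ℝ → ℝ → ℝ),
    0 < α → α < 1 → 64 ≤ K → 0 < T → IsZ1 Z → IsY1 Z Y → IsV2 α Z V2 →
    Bg α N0 K T C n Z V2 W Wt r r' →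
    ∀ (u : ℝ → ℝ → ℝ) (t1 t2 : ℝ), 0 < t1 → t1 < t2 → t2 ≤ T → SmoothSol u t1 t2 →
     ∀ a b : ℝ → ℝ, ContinuousOn a (Set.Icc t1 t2) → ContinuousOn b (Set.Icc t1 t2) →
      ContinuousOn (hsq α K (etaI α Z V2 u W a b)) (Set.Icc t1 t2) ∧
      ContinuousOn (fun t => ∫ y, etaI α Z V2 u W a b t y ^ 2) (Set.Icc t1 t2) ∧
      ContinuousOn (qq α Y (etaI α Z V2 u W a b)) (Set.Icc t1 t2) ∧
      ∀ t ∈ Set.Icc t1 t2, ContDiff ℝ (⊤ : ℕ∞) (etaI α Z V2 u W a b t) ∧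
        ∀ k : ℕ, MemLp (iteratedDeriv k (etaI α Z V2 u W a b t)) 2

/-- **INIT (1 h).** Initial values. Hypotheses allowed: S_CURVE, S_QF, S_ECL1, S_TAUB, S_MOD, S_WTL.
PROOF.  At `t1`: `inn u - inn W = inn g =: G`, supported in `y ≤ (-1-σ)/λ ≤ -1/λ`.
`∫|G|e^{-|y|/2} ≤ e^{-1/(4λ)}(∫G^2)^{1/2}(∫e^{-|y|/2})^{1/2} ≤ C e^{-1/(4λ)}·e^{...}`: more precisely
`∫_{x≤-1} g^2 e^{x} ≤ 1`, so `∫ G^2 e^{-|y|/2}dy = ∫ g^2 e^{-|x-σ|/(2λ)}dx ≤ e^{-1/(4λ)}∫g^2e^{x}dx` once `4λ ≤ 1`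
(`|x|/(4λ) ≥ |x|` and `|x| ≥ 1`). Hence `|a|+|b| ≤ C e^{-1/(8λ)}` by the last item of S_MOD. In the same way, from
`wt K ρ y ≤ ρ^{-1}e^{y/K}`: `∫ wt (G_y^2+G^2) dy = ∫ wt (λ^2g_x^2+g^2) dx ≤ ρ^{-1}e^{-1/(2Kλ)}` for `2Kλ ≤ 1`.
So `hsq ≤ C(ρ^{-1}e^{-1/(2Kλ)} + e^{-1/(8λ)})`, `|qq| ≤ C√hsq` (S_WTL). As `λ ≤ ρ`, and `e^{-c/ρ} ≤ C_kρ^k`,
everything is `≤ ρ^{2N0}/C0` for `ρ ≤ ρ1`. (`e(t1) ∈ L^2`, smooth.) -/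
def S_INIT : Prop :=
  ∀ (α : ℝ) (N0 : ℕ) (K T C C0 : ℝ) (n : ℕ) (Z Y V2 : ℝ → ℝ) (W Wt r r' : ℝ → ℝ → ℝ),
    0 < α → α < 1 → 64 ≤ K → 0 < T → rho α T ≤ 1 → 0 < C0 → IsZ1 Z → IsY1 Z Y → IsV2 α Z V2 →
    Bg α N0 K T C n Z V2 W Wt r r' → ∀ C1 : ℝ, ∃ ρ1 : ℝ, 0 < ρ1 ∧
     ∀ (u : ℝ → ℝ → ℝ) (t1 : ℝ), 0 < t1 → t1 ≤ T → rho α t1 ≤ ρ1 →
      ∀ g : ℝ → ℝ, ContDiff ℝ (⊤ : ℕ∞) g → (∀ x, u t1 x = W t1 x + g x) → (∀ x, -1 ≤ x → g x = 0) →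
      MemLp g 2 → MemLp (deriv g) 2 → (∫ x, (g x ^ 2 + deriv g x ^ 2) * Real.exp x) ≤ 1 →
      ∀ a b : ℝ → ℝ, |a t1| + |b t1| ≤ C1 * ∫ y, |inn α u t1 y - inn α W t1 y| * Real.exp (-|y| / 2) →
      |a t1| ≤ rho α t1 ^ (2 * N0) / C0 ∧ |b t1| ≤ rho α t1 ^ (2 * N0) / C0 ∧
      |qq α Y (etaI α Z V2 u W a b) t1| ≤ rho α t1 ^ (2 * N0) / C0 ∧
      hsq α K (etaI α Z V2 u W a b) t1 ≤ rho α t1 ^ (2 * N0) / C0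

/-- **H1B (1.5 h).** `H^1` bound for a fixed solution from energy conservation. Hypotheses allowed: S_CURVE, S_QF,
S_ECL1, S_TAUB, S_WTL, S_CONTQ (regularity of `etaI`).
PROOF.  In inner variables `U = inn u t`, `∫U^2 dy = ∫u^2 dx`, `∫(U_y^2/2 - U^6/6)dy = λ^2 E`, `E = ∫(u_x^2/2-u^6/6)dx`, so
`∫U_y^2 = 2λ^2E + (1/3)∫U^6 ≤ 2|E| + (1/3)∫U^6` (`λ ≤ 1`). Let `V = U - e = inn W + a tauA + b tauB`: `|V| ≤ C` and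
`V` has finite `L^6` norm bounded by `C' = C'(t1)` (support of `W` in `[-1,1]`, so `inn W` is bounded with support of length `≤ 2/λ ≤ 2/lam α t1`).
`U^6 ≤ 32(V^6 + e^6)`. Let `χ` be Lipschitz, `χ = 1` for `y ≤ -1`, `0` for `y ≥ 0`, `|χ'| ≤ 1`. For `y ≥ -1`, `e^2 ≤ C hsq ≤ C`
(S_WTL: `e^{-|y|/4}e^2 ≤ 4hsq` for `-1 ≤ y ≤ 0`; for `y ≥ 0` `wt ≥ 1/2` and the sup bound `e^2(y) ≤ 2∫_{y}^∞|ee_y| ≤ 4 hsq`),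
so `∫_{y≥-1}e^6 ≤ C`. For `y ≤ -1`: with `f = χe`, `sup f^2 ≤ 2(∫f^2)^{1/2}(∫f_y^2)^{1/2}`, `∫f^6 ≤ 4(∫f^2)^2∫f_y^2 ≤
4δ0^2·2(∫e_y^2 + ∫e^2)` , and `∫e_y^2 ≤ 2∫U_y^2 + 2∫V_y^2`. Choose `δ0` with `(32/3)·4·δ0^2·4 ≤ 1/2`: absorb `∫U_y^2`.
Result `∫U_y^2 ≤ C(t1)(1+|E|)`, and `∫u_x^2 = λ^{-2}∫U_y^2 ≤ lam(t1)^{-2}C`. Energy `E` is conserved (S-hypothesis below). -/
def S_H1B : Prop :=
  ∃ δ0 : ℝ, 0 < δ0 ∧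
  ∀ (α : ℝ) (N0 : ℕ) (K T C : ℝ) (n : ℕ) (Z Y V2 : ℝ → ℝ) (W Wt r r' : ℝ → ℝ → ℝ),
    0 < α → α < 1 → 64 ≤ K → 0 < T → rho α T ≤ 1 → IsZ1 Z → IsY1 Z Y → IsV2 α Z V2 →
    Bg α N0 K T C n Z V2 W Wt r r' → ∀ t1 E M : ℝ, 0 < t1 → t1 < T → ∃ B : ℝ,
     ∀ (u : ℝ → ℝ → ℝ) (t2 : ℝ), t1 < t2 → t2 ≤ T → SmoothSol u t1 t2 →
      (∀ t ∈ Set.Icc t1 t2, |∫ x, (iteratedDeriv 1 (u t) x ^ 2 / 2 - u t x ^ 6 / 6)| ≤ E ∧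
        (∫ x, u t x ^ 2) ≤ M) →
      ∀ a b : ℝ → ℝ, ∀ t ∈ Set.Icc t1 t2, |a t| ≤ 1 → |b t| ≤ 1 →
       hsq α K (etaI α Z V2 u W a b) t ≤ 1 → (∫ y, etaI α Z V2 u W a b t y ^ 2) ≤ δ0 →
       (∫ x, iteratedDeriv 1 (u t) x ^ 2) ≤ B

end Pool.Agent.Helper33.KV
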