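import Pool.Agent.Helper33.KV.Near
import Pool.Agent.Helper48.KV.GoalsG2
import Pool.Agent.Helper98.KV.FB
import Pool.Agent.Helper5.KV.F_AUX

/-!
# Project KV (`MP_66be51_an`): the energy inequality near the soliton
-/

namespace Pool.Agent.Helper33.KV

open Real MeasureTheory Set Pool.Agent.Helper41.KV Pool.Agent.Helper48.KV
open Pool.Agent.Helper61.KV (addE addP mulPE mulPP derE derP polyP thP sechE intE unifE unifP
  poly_exp)
open Pool.Agent.Helper98.KV (E_P cP idP smulE smulP subE QE LamQE dP dE Z_P dZ_E V2_P dV2_E)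

theorem bdE {f : ℝ → ℝ} (hf : IsE f) : ∃ B : ℝ, 0 ≤ B ∧ ∀ y, |f y| ≤ B * Real.exp (-(|y| / 2)) := by
  obtain ⟨B, h0, hB⟩ := unifE hf 0 (1 / 2) (by norm_num)
  refine ⟨B, h0, fun y => ?_⟩
  have := hB 0 le_rfl y
  rw [iteratedDeriv_zero] at this
  refine this.trans (le_of_eq ?_)
  congr 2; ring

theorem bdE1 {f : ℝ → ℝ} (hf : IsE f) :
    ∃ B : ℝ, 0 ≤ B ∧ ∀ y, |deriv f y| ≤ B * Real.exp (-(|y| / 2)) := bdE (derE hf)

theorem bdP {f : ℝ → ℝ} (hf : IsP f) : ∃ B : ℝ, 0 ≤ B ∧ ∀ y, |f y| ≤ B * Real.exp (|y| / 8) := by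
  obtain ⟨n, B, h0, hB⟩ := unifP hf 0
  obtain ⟨K, hK0, hK⟩ := poly_exp n (1 / 8) (by norm_num)
  refine ⟨B * K, by positivity, fun y => ?_⟩
  have h1 := hB 0 le_rfl y
  rw [iteratedDeriv_zero] at h1
  have h2 := hK |y| (abs_nonneg y)
  calc |f y| ≤ B * (1 + |y|) ^ n := h1
    _ ≤ B * (K * Real.exp (1 / 8 * |y|)) := mul_le_mul_of_nonneg_left h2 h0
    _ = B * K * Real.exp (|y| / 8) := by
        rw [show 1 / 8 * |y| = |y| / 8 by ring]; ring

/-- Static bounds of the background `inn V = v + a tauA + b tauB`. -/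
theorem static_bd (hT : S_TAUB) {α C : ℝ} {Z Y V2 : ℝ → ℝ} (hZ : IsZ1 Z) (hY : IsY1 Z Y)
    (hV : IsV2 α Z V2) : ∃ CV ρ1 : ℝ, 1 ≤ CV ∧ 0 < ρ1 ∧ ρ1 ≤ 1 ∧
    (∀ ρ : ℝ, 0 < ρ → ρ ≤ ρ1 → 
      (∀ y, |tauA α Z ρ y - Lam Q y| ≤ CV * ρ * Real.exp (-(|y| / 2))) ∧
      (∀ y, |deriv (tauA α Z ρ) y - deriv (Lam Q) y| ≤ CV * ρ * Real.exp (-(|y| / 2))) ∧
      (∀ y, |tauB α Z V2 ρ y - deriv Q y| ≤ CV * ρ * Real.exp (-(|y| / 2))) ∧
      (∀ y, |deriv (tauB α Z V2 ρ) y - deriv (deriv Q) y| ≤ CV * ρ * Real.exp (-(|y| / 2)))) ∧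
    ∀ (N0 : ℕ) (K T : ℝ) (n : ℕ) (W Wt r r' : ℝ → ℝ → ℝ), Bg α N0 K T C n Z V2 W Wt r r' →
     ∀ t ∈ Ioc 0 T, 0 < rho α t → rho α t ≤ ρ1 → ∀ a b : ℝ, |a| ≤ rho α t ^ 2 → |b| ≤ rho α t ^ 2 →
     (∀ y, |inn α W t y + (a * tauA α Z (rho α t) y + b * tauB α Z V2 (rho α t) y)| ≤
       CV * (Real.exp (-(|y| / 2)) + Real.sqrt (rho α t))) ∧
     (∀ y, |inn α W t y + (a * tauA α Z (rho α t) y + b * tauB α Z V2 (rho α t) y) - Q y| ≤
       CV * rho α t * Real.exp (|y| / 8)) := by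
  obtain ⟨-, CT, ρT, hρT, hρT1, hTB⟩ := hT α Z Y V2 hZ hY hV
  have E1 : IsE (fun y => kap α * (y * deriv Z y)) := smulE _ (mulPE idP (dZ_E hZ))
  have E2 : IsE (fun y => kap α * deriv Z y) := smulE _ (dZ_E hZ)
  have E3 : IsE (fun y => deriv V2 y - cc α * Z y) := dV2_E hZ hV
  obtain ⟨B1, B10, hB1⟩ := bdE E1
  obtain ⟨B1', B10', hB1'⟩ := bdE1 E1
  obtain ⟨B2, B20, hB2⟩ := bdE E2
  obtain ⟨B2', B20', hB2'⟩ := bdE1 E2
  obtain ⟨B3, B30, hB3⟩ := bdE E3
  obtain ⟨B3', B30', hB3'⟩ := bdE1 E3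
  obtain ⟨BZ, BZ0, hBZ⟩ := bdP (Z_P hZ)
  obtain ⟨BV, BV0, hBV⟩ := bdP (V2_P hV)
  have hCT : 0 ≤ CT := by
    have h := ((hTB ρT hρT.le le_rfl).1 0 (by norm_num) 0).1
    simp only [iteratedDeriv_zero] at h
    have h2 := (abs_nonneg _).trans h
    have h3 : 0 < Real.exp (-(3 / 4) * |(0 : ℝ)|) := Real.exp_pos _
    exact nonneg_of_mul_nonneg_left h2 h3
  have hQQ : ∀ ρ y, tauA α Z ρ y - Lam Q y = ρ * (kap α * (y * deriv Z y)) := by
    intro ρ y; unfold tauA; ring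
  have hQB : ∀ ρ y, tauB α Z V2 ρ y - deriv Q y = ρ * (kap α * deriv Z y)
      + ρ ^ 2 * (deriv V2 y - cc α * Z y) := by
    intro ρ y; unfold tauB; ring
  have dA : ∀ ρ y, deriv (tauA α Z ρ) y - deriv (Lam Q) y
      = ρ * deriv (fun y => kap α * (y * deriv Z y)) y := by
    intro ρ y
    have h : tauA α Z ρ = fun y => Lam Q y + ρ * (kap α * (y * deriv Z y)) := by
      funext y; unfold tauA; ring
    rw [h]
    have := ((dE LamQE y).add ((dE E1 y).const_mul ρ)).deriv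
    have h2 : deriv (fun y => Lam Q y + ρ * (kap α * (y * deriv Z y))) y = _ := this
    rw [h2]; ring
  have dB : ∀ ρ y, deriv (tauB α Z V2 ρ) y - deriv (deriv Q) y
      = ρ * deriv (fun y => kap α * deriv Z y) y + ρ ^ 2 * deriv (fun y => deriv V2 y - cc α * Z y) y := by
    intro ρ y
    have h : tauB α Z V2 ρ = fun y => deriv Q y + ρ * (kap α * deriv Z y)
        + ρ ^ 2 * (deriv V2 y - cc α * Z y) := by
      funext y; unfold tauB; ring
    rw [h]
    have := (((dE (derE QE) y).add ((dE E2 y).const_mul ρ)).add ((dE E3 y).const_mul (ρ ^ 2))).deriv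
    have h2 : deriv (fun y => deriv Q y + ρ * (kap α * deriv Z y)
        + ρ ^ 2 * (deriv V2 y - cc α * Z y)) y = _ := this
    rw [h2]; ring
  obtain ⟨CV, hCVd⟩ : ∃ CV : ℝ, CV = 1 + (B1 + B1' + B2 + B2' + B3 + B3') + (|C| + 2 * CT)
      + (|kap α| * BZ + BV + |C| + 2 * CT) := ⟨_, rfl⟩
  have hk := abs_nonneg (kap α)
  have hCa := abs_nonneg C
  have hkZ : 0 ≤ |kap α| * BZ := by positivity
  refine ⟨CV, ρT, by rw [hCVd]; linarith, hρT, hρT1, ?_, ?_⟩
  · intro ρ hρ hρle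
    have hρ1 : ρ ≤ 1 := hρle.trans hρT1
    have hρ2 : ρ ^ 2 ≤ ρ := by nlinarith
    have key1 : ∀ (B x : ℝ) (y : ℝ), B ≤ CV → |x| ≤ B * Real.exp (-(|y| / 2)) →
        |ρ * x| ≤ CV * ρ * Real.exp (-(|y| / 2)) := by
      intro B x y hB hx
      rw [abs_mul, abs_of_pos hρ]
      calc ρ * |x| ≤ ρ * (CV * Real.exp (-(|y| / 2))) :=
            mul_le_mul_of_nonneg_left (hx.trans (mul_le_mul_of_nonneg_right hB (Real.exp_pos _).le))
              hρ.le
        _ = CV * ρ * Real.exp (-(|y| / 2)) := by ring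
    have key2 : ∀ (B B' x x' : ℝ) (y : ℝ), 0 ≤ B' → B + B' ≤ CV → |x| ≤ B * Real.exp (-(|y| / 2)) →
        |x'| ≤ B' * Real.exp (-(|y| / 2)) →
        |ρ * x + ρ ^ 2 * x'| ≤ CV * ρ * Real.exp (-(|y| / 2)) := by
      intro B B' x x' y hB0 hB hx hx'
      have e := Real.exp_pos (-(|y| / 2))
      calc |ρ * x + ρ ^ 2 * x'| ≤ |ρ * x| + |ρ ^ 2 * x'| := abs_add_le _ _
        _ = ρ * |x| + ρ ^ 2 * |x'| := by
            rw [abs_mul, abs_mul, abs_of_pos hρ, abs_of_pos (pow_pos hρ 2)]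
        _ ≤ ρ * (B * Real.exp (-(|y| / 2))) + ρ * (B' * Real.exp (-(|y| / 2))) := by
            refine add_le_add (mul_le_mul_of_nonneg_left hx hρ.le) ?_
            exact mul_le_mul hρ2 hx' (abs_nonneg _) hρ.le
        _ = (B + B') * (ρ * Real.exp (-(|y| / 2))) := by ring
        _ ≤ CV * (ρ * Real.exp (-(|y| / 2))) := mul_le_mul_of_nonneg_right hB (by positivity)
        _ = CV * ρ * Real.exp (-(|y| / 2)) := by ring
    refine ⟨fun y => ?_, fun y => ?_, fun y => ?_, fun y => ?_⟩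
    · rw [hQQ]; exact key1 B1 _ y (by rw [hCVd]; linarith) (hB1 y)
    · rw [dA]; exact key1 B1' _ y (by rw [hCVd]; linarith) (hB1' y)
    · rw [hQB]; exact key2 B2 B3 _ _ y B30 (by rw [hCVd]; linarith) (hB2 y) (hB3 y)
    · rw [dB]; exact key2 B2' B3' _ _ y B30' (by rw [hCVd]; linarith) (hB2' y) (hB3' y)
  · intro N0 K T n W Wt r r' hBg t ht hr hrle a b ha hb
    have hr1 : rho α t ≤ 1 := hrle.trans hρT1
    have hr2 : rho α t ^ 2 ≤ rho α t := by nlinarith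
    have hr21 : rho α t ^ 2 ≤ 1 := hr2.trans hr1
    have htb := (hTB (rho α t) hr.le hrle).1 0 (by norm_num)
    have hz : ∀ y, |a * tauA α Z (rho α t) y + b * tauB α Z V2 (rho α t) y| ≤
        2 * CT * rho α t ^ 2 * Real.exp (-(|y| / 2)) := by
      intro y
      obtain ⟨h1, h2, -⟩ := htb y
      simp only [iteratedDeriv_zero] at h1 h2
      have e1 : Real.exp (-(3 / 4) * |y|) ≤ Real.exp (-(|y| / 2)) :=
        Real.exp_le_exp.2 (by nlinarith [abs_nonneg y])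
      have g1 : |tauA α Z (rho α t) y| ≤ CT * Real.exp (-(|y| / 2)) :=
        h1.trans (mul_le_mul_of_nonneg_left e1 hCT)
      have g2 : |tauB α Z V2 (rho α t) y| ≤ CT * Real.exp (-(|y| / 2)) :=
        h2.trans (mul_le_mul_of_nonneg_left e1 hCT)
      have e := Real.exp_pos (-(|y| / 2))
      calc |a * tauA α Z (rho α t) y + b * tauB α Z V2 (rho α t) y|
          ≤ |a| * |tauA α Z (rho α t) y| + |b| * |tauB α Z V2 (rho α t) y| := by
            rw [← abs_mul, ← abs_mul]; exact abs_add_le _ _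
        _ ≤ rho α t ^ 2 * (CT * Real.exp (-(|y| / 2))) + rho α t ^ 2 * (CT * Real.exp (-(|y| / 2))) :=
            add_le_add (mul_le_mul ha g1 (abs_nonneg _) (by positivity))
              (mul_le_mul hb g2 (abs_nonneg _) (by positivity))
        _ = 2 * CT * rho α t ^ 2 * Real.exp (-(|y| / 2)) := by ring
    constructor
    · intro y
      have h1 := hBg.b0 t ht y
      have e := Real.exp_pos (-(|y| / 2))
      rw [← Real.sqrt_eq_rpow, show (-|y| / 2 : ℝ) = -(|y| / 2) by ring] at h1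
      have hs : 0 ≤ Real.sqrt (rho α t) := Real.sqrt_nonneg _
      have h2 : |inn α W t y| ≤ |C| * (Real.exp (-(|y| / 2)) + Real.sqrt (rho α t)) :=
        h1.trans (mul_le_mul_of_nonneg_right (le_abs_self C) (by positivity))
      have h3 : 2 * CT * rho α t ^ 2 * Real.exp (-(|y| / 2)) ≤
          2 * CT * (Real.exp (-(|y| / 2)) + Real.sqrt (rho α t)) := by
        have : 2 * CT * rho α t ^ 2 ≤ 2 * CT * 1 :=
          mul_le_mul_of_nonneg_left hr21 (by positivity)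
        calc 2 * CT * rho α t ^ 2 * Real.exp (-(|y| / 2)) ≤ 2 * CT * 1 * Real.exp (-(|y| / 2)) :=
              mul_le_mul_of_nonneg_right this e.le
          _ ≤ 2 * CT * (Real.exp (-(|y| / 2)) + Real.sqrt (rho α t)) := by
              rw [mul_one]
              exact mul_le_mul_of_nonneg_left (by linarith) (by positivity)
      calc |inn α W t y + (a * tauA α Z (rho α t) y + b * tauB α Z V2 (rho α t) y)|
          ≤ |inn α W t y| + |a * tauA α Z (rho α t) y + b * tauB α Z V2 (rho α t) y| :=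
            abs_add_le _ _
        _ ≤ |C| * (Real.exp (-(|y| / 2)) + Real.sqrt (rho α t))
            + 2 * CT * (Real.exp (-(|y| / 2)) + Real.sqrt (rho α t)) :=
            add_le_add h2 ((hz y).trans h3)
        _ = (|C| + 2 * CT) * (Real.exp (-(|y| / 2)) + Real.sqrt (rho α t)) := by ring
        _ ≤ CV * (Real.exp (-(|y| / 2)) + Real.sqrt (rho α t)) :=
            mul_le_mul_of_nonneg_right (by rw [hCVd]; linarith) (by positivity)
    · intro y
      have h1 := hBg.expn t ht y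
      have h2 := (hBg.rbd t ht).2 0 (by norm_num) y
      rw [iteratedDeriv_zero] at h2
      have e8 := Real.exp_pos (|y| / 8)
      have e1 : Real.exp (|y| / 64) ≤ Real.exp (|y| / 8) :=
        Real.exp_le_exp.2 (by nlinarith [abs_nonneg y])
      have e2 : Real.exp (-(|y| / 2)) ≤ Real.exp (|y| / 8) :=
        Real.exp_le_exp.2 (by nlinarith [abs_nonneg y])
      have h3 : |r t y| ≤ |C| * Real.exp (|y| / 8) := by
        refine h2.trans ?_
        calc C * Real.exp (|y| / 64) ≤ |C| * Real.exp (|y| / 64) :=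
              mul_le_mul_of_nonneg_right (le_abs_self C) (Real.exp_pos _).le
          _ ≤ |C| * Real.exp (|y| / 8) := mul_le_mul_of_nonneg_left e1 hCa
      have hr3 : rho α t ^ 3 ≤ rho α t := by nlinarith [pow_pos hr 2]
      have heq : inn α W t y + (a * tauA α Z (rho α t) y + b * tauB α Z V2 (rho α t) y) - Q y
          = rho α t * (kap α * Z y) + rho α t ^ 2 * V2 y + rho α t ^ 3 * r t y
            + (a * tauA α Z (rho α t) y + b * tauB α Z V2 (rho α t) y) := by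
        rw [h1]; ring
      rw [heq]
      calc |rho α t * (kap α * Z y) + rho α t ^ 2 * V2 y + rho α t ^ 3 * r t y
            + (a * tauA α Z (rho α t) y + b * tauB α Z V2 (rho α t) y)|
          ≤ |rho α t * (kap α * Z y)| + |rho α t ^ 2 * V2 y| + |rho α t ^ 3 * r t y|
            + |a * tauA α Z (rho α t) y + b * tauB α Z V2 (rho α t) y| := by
            refine (abs_add_le _ _).trans (add_le_add_left ?_ _)
            exact (abs_add_le _ _).trans (add_le_add_left (abs_add_le _ _) _)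
        _ = rho α t * (|kap α| * |Z y|) + rho α t ^ 2 * |V2 y| + rho α t ^ 3 * |r t y|
            + |a * tauA α Z (rho α t) y + b * tauB α Z V2 (rho α t) y| := by
            rw [abs_mul, abs_mul, abs_mul, abs_mul, abs_of_pos hr, abs_of_pos (pow_pos hr 2),
              abs_of_pos (pow_pos hr 3)]
        _ ≤ rho α t * (|kap α| * (BZ * Real.exp (|y| / 8))) + rho α t * (BV * Real.exp (|y| / 8))
            + rho α t * (|C| * Real.exp (|y| / 8)) + rho α t * (2 * CT * Real.exp (|y| / 8)) := by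
            refine add_le_add (add_le_add (add_le_add ?_ ?_) ?_) ?_
            · exact mul_le_mul_of_nonneg_left (mul_le_mul_of_nonneg_left (hBZ y) hk) hr.le
            · exact mul_le_mul hr2 (hBV y) (abs_nonneg _) hr.le
            · exact mul_le_mul hr3 h3 (abs_nonneg _) hr.le
            · refine (hz y).trans ?_
              calc 2 * CT * rho α t ^ 2 * Real.exp (-(|y| / 2))
                  ≤ 2 * CT * rho α t * Real.exp (|y| / 8) :=
                    mul_le_mul (mul_le_mul_of_nonneg_left hr2 (by positivity)) e2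
                      (Real.exp_pos _).le (by positivity)
                _ = rho α t * (2 * CT * Real.exp (|y| / 8)) := by ring
        _ = (|kap α| * BZ + BV + |C| + 2 * CT) * (rho α t * Real.exp (|y| / 8)) := by ring
        _ ≤ CV * (rho α t * Real.exp (|y| / 8)) :=
            mul_le_mul_of_nonneg_right (by rw [hCVd]; linarith) (by positivity)
        _ = CV * rho α t * Real.exp (|y| / 8) := by ring


theorem htd_add {u v u' v' : ℝ → ℝ → ℝ} {t1 t2 : ℝ} (hu : HInf u t1 t2) (hv : HInf v t1 t2)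
    (hu' : HInf u' t1 t2) (hv' : HInf v' t1 t2) (h1 : HasTimeDeriv u u' t1 t2)
    (h2 : HasTimeDeriv v v' t1 t2) :
    HasTimeDeriv (fun t x => u t x + v t x) (fun t x => u' t x + v' t x) t1 t2 := by
  intro k t ht x
  have e : ∀ {p q : ℝ → ℝ → ℝ}, HInf p t1 t2 → HInf q t1 t2 → ∀ τ ∈ Icc t1 t2,
      iteratedDeriv k (fun x => p τ x + q τ x) x
        = iteratedDeriv k (p τ) x + iteratedDeriv k (q τ) x := by
    intro p q hp hq τ hτ
    exact iteratedDeriv_fun_add (((hp.smooth τ hτ).of_le (by exact_mod_cast le_top)).contDiffAt)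
      (((hq.smooth τ hτ).of_le (by exact_mod_cast le_top)).contDiffAt)
  rw [e hu' hv' t ht]
  exact ((h1 k t ht x).add (h2 k t ht x)).congr (fun τ hτ => e hu hv τ hτ) (e hu hv t ht)

theorem htd_sub {u v u' v' : ℝ → ℝ → ℝ} {t1 t2 : ℝ} (hu : HInf u t1 t2) (hv : HInf v t1 t2)
    (hu' : HInf u' t1 t2) (hv' : HInf v' t1 t2) (h1 : HasTimeDeriv u u' t1 t2)
    (h2 : HasTimeDeriv v v' t1 t2) :
    HasTimeDeriv (fun t x => u t x - v t x) (fun t x => u' t x - v' t x) t1 t2 := by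
  intro k t ht x
  have e : ∀ {p q : ℝ → ℝ → ℝ}, HInf p t1 t2 → HInf q t1 t2 → ∀ τ ∈ Icc t1 t2,
      iteratedDeriv k (fun x => p τ x - q τ x) x
        = iteratedDeriv k (p τ) x - iteratedDeriv k (q τ) x := by
    intro p q hp hq τ hτ
    exact iteratedDeriv_fun_sub (((hp.smooth τ hτ).of_le (by exact_mod_cast le_top)).contDiffAt)
      (((hq.smooth τ hτ).of_le (by exact_mod_cast le_top)).contDiffAt)
  rw [e hu' hv' t ht]
  exact ((h1 k t ht x).sub (h2 k t ht x)).congr (fun τ hτ => e hu hv τ hτ) (e hu hv t ht)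

theorem htd_mono {u w : ℝ → ℝ → ℝ} {t1 t2 s1 s2 : ℝ} (h : HasTimeDeriv u w t1 t2) (h1 : t1 ≤ s1)
    (h2 : s2 ≤ t2) : HasTimeDeriv u w s1 s2 := fun k t ht x =>
  (h k t (Icc_subset_Icc h1 h2 ht) x).mono (Icc_subset_Icc h1 h2)

theorem it2 (f : ℝ → ℝ) : iteratedDeriv 2 f = deriv (deriv f) := by
  rw [iteratedDeriv_succ, iteratedDeriv_one]

theorem disp_eq (α K : ℝ) (η : ℝ → ℝ → ℝ) (t : ℝ) : disp α K η t = Dn K (rho α t) (η t) := by
  unfold disp Dn
  simp only [it2]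
  rfl

theorem hsq_eq (α K : ℝ) (η : ℝ → ℝ → ℝ) (t : ℝ) : hsq α K η t = Hn K (rho α t) (η t) := rfl

theorem Hfun_eq (α K : ℝ) (Z V2 : ℝ → ℝ) (u W : ℝ → ℝ → ℝ) (a b : ℝ → ℝ) (t : ℝ) :
    Hfun α K Z V2 u W a b t = Hf K (rho α t)
      (fun y => inn α W t y + (a t * tauA α Z (rho α t) y + b t * tauB α Z V2 (rho α t) y))
      (etaI α Z V2 u W a b t) := by
  unfold Hfun Hf
  congr 1
  funext y
  have h : inn α W t y + (a t * tauA α Z (rho α t) y + b t * tauB α Z V2 (rho α t) y)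
      = inn α u t y - etaI α Z V2 u W a b t y := by
    unfold etaI; ring
  simp only [h, nGG]
  ring



/-- smallness of `A`, `B` from the bound of LAWAB -/
theorem ab_small {CA ρ h a b : ℝ} {N0 : ℕ} (hN0 : 4 ≤ N0) (hr : 0 < ρ) (hr1 : ρ ≤ 1)
    (h6 : ρ ≤ 1 / (6 * max CA 1)) (hh : 0 ≤ h) (hhr : h ≤ ρ ^ 2) (ha : |a| ≤ ρ ^ 2)
    (hb : |b| ≤ ρ ^ 2) :
    CA * (h + ρ ^ 2 * |a| + ρ ^ 3 * |b| + a ^ 2 + b ^ 2 + ρ ^ N0) ≤ ρ := by
  have hmA : 0 < max CA 1 := lt_max_of_lt_right one_pos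
  have hr21 : ρ ^ 2 ≤ 1 := pow_le_one₀ hr.le hr1
  have pw : ∀ k : ℕ, 2 ≤ k → ρ ^ k ≤ ρ ^ 2 := fun k hk => pow_le_pow_of_le_one hr.le hr1 hk
  have q1 : ρ ^ 2 * |a| ≤ ρ ^ 2 := by
    calc ρ ^ 2 * |a| ≤ ρ ^ 2 * 1 := mul_le_mul_of_nonneg_left (ha.trans hr21) (by positivity)
      _ = ρ ^ 2 := mul_one _
  have q2 : ρ ^ 3 * |b| ≤ ρ ^ 2 := by
    calc ρ ^ 3 * |b| ≤ ρ ^ 3 * 1 := mul_le_mul_of_nonneg_left (hb.trans hr21) (by positivity)
      _ = ρ ^ 3 := mul_one _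
      _ ≤ ρ ^ 2 := pw 3 (by norm_num)
  have q3 : a ^ 2 ≤ ρ ^ 2 := by
    calc a ^ 2 = |a| ^ 2 := (sq_abs _).symm
      _ ≤ (ρ ^ 2) ^ 2 := pow_le_pow_left₀ (abs_nonneg _) ha 2
      _ = ρ ^ 4 := by ring
      _ ≤ ρ ^ 2 := pw 4 (by norm_num)
  have q4 : b ^ 2 ≤ ρ ^ 2 := by
    calc b ^ 2 = |b| ^ 2 := (sq_abs _).symm
      _ ≤ (ρ ^ 2) ^ 2 := pow_le_pow_left₀ (abs_nonneg _) hb 2
      _ = ρ ^ 4 := by ring
      _ ≤ ρ ^ 2 := pw 4 (by norm_num)
  have q5 : ρ ^ N0 ≤ ρ ^ 2 := pw N0 (by omega)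
  have q0 : 0 ≤ h + ρ ^ 2 * |a| + ρ ^ 3 * |b| + a ^ 2 + b ^ 2 + ρ ^ N0 := by positivity
  rw [le_div_iff₀ (by positivity)] at h6
  calc CA * (h + ρ ^ 2 * |a| + ρ ^ 3 * |b| + a ^ 2 + b ^ 2 + ρ ^ N0)
      ≤ max CA 1 * (h + ρ ^ 2 * |a| + ρ ^ 3 * |b| + a ^ 2 + b ^ 2 + ρ ^ N0) :=
        mul_le_mul_of_nonneg_right (le_max_left _ _) q0
    _ ≤ max CA 1 * (6 * ρ ^ 2) := mul_le_mul_of_nonneg_left (by linarith) hmA.le
    _ = (ρ * (6 * max CA 1)) * ρ := by ring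
    _ ≤ 1 * ρ := mul_le_mul_of_nonneg_right h6 hr.le
    _ = ρ := one_mul _

/-- the pairing with `Q` -/
theorem pairQ {e Y : ℝ → ℝ} {κ ρ h BY : ℝ} (hr : 0 < ρ) (hY : IsE Y) (BY0 : 0 ≤ BY)
    (hBY : ∀ y, |Y y| ≤ BY * Real.exp (-(|y| / 2))) (hm : MemLp e 2)
    (hwl : (∫ y, |e y| * Real.exp (-|y| / 2)) ≤ 4 * h) :
    |∫ y, e y * Q y| ≤ |∫ y, e y * (Q y + ρ * κ * Y y)| + 4 * (|κ| * BY) * (ρ * h) := by
  have hL : ∀ f : ℝ → ℝ, IsE f → MemLp f 2 := by
    intro f hf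
    have hfE : IsE (fun y => f y * f y) := mulPE (E_P hf) hf
    have h2 : Integrable (fun y => f y ^ 2) := by
      refine (intE hfE).congr (Filter.Eventually.of_forall fun y => ?_)
      simp only; ring
    exact (memLp_two_iff_integrable_sq hf.1.continuous.aestronglyMeasurable).2 h2
  have hexp : ∀ f : ℝ → ℝ, IsE f → Integrable (fun y => e y * f y) := fun f hf =>
    hm.integrable_mul (hL f hf)
  have e2 : (∫ y, e y * (Q y + ρ * κ * Y y)) = (∫ y, e y * Q y) + ρ * κ * ∫ y, e y * Y y := by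
    rw [← integral_const_mul, ← integral_add (hexp Q QE) ((hexp Y hY).const_mul _)]
    congr 1
    funext y; ring
  have hi : Integrable (fun y => |e y| * Real.exp (-|y| / 2)) := by
    have h1 : MemLp (fun y : ℝ => Real.exp (-|y| / 2)) 2 := by
      have hc : Continuous (fun y : ℝ => Real.exp (-|y| / 2)) := by fun_prop
      refine (memLp_two_iff_integrable_sq hc.aestronglyMeasurable).2 ?_
      have h2 : Integrable (fun y : ℝ => Real.exp (-|y|)) := by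
        have := Pool.Agent.Helper5.KV.exp_int (c := 1) one_pos
        simpa using this
      refine h2.congr (Filter.Eventually.of_forall fun y => ?_)
      simp only
      rw [← Real.exp_nat_mul]
      congr 1
      push_cast; ring
    exact hm.abs.integrable_mul h1
  have e3 : |∫ y, e y * Y y| ≤ BY * (4 * h) := by
    calc |∫ y, e y * Y y| ≤ ∫ y, |e y * Y y| := abs_integral_le_integral_abs
      _ ≤ ∫ y, BY * (|e y| * Real.exp (-|y| / 2)) := by
          refine integral_mono (hexp Y hY).abs (hi.const_mul _) fun y => ?_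
          simp only
          rw [abs_mul]
          have := hBY y
          rw [show (-(|y| / 2) : ℝ) = -|y| / 2 by ring] at this
          calc |e y| * |Y y| ≤ |e y| * (BY * Real.exp (-|y| / 2)) :=
                mul_le_mul_of_nonneg_left this (abs_nonneg _)
            _ = BY * (|e y| * Real.exp (-|y| / 2)) := by ring
      _ = BY * ∫ y, |e y| * Real.exp (-|y| / 2) := by rw [integral_const_mul]
      _ ≤ BY * (4 * h) := mul_le_mul_of_nonneg_left hwl BY0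
  have e4 : (∫ y, e y * Q y) = (∫ y, e y * (Q y + ρ * κ * Y y)) - ρ * κ * ∫ y, e y * Y y := by
    rw [e2]; ring
  rw [e4]
  calc |(∫ y, e y * (Q y + ρ * κ * Y y)) - ρ * κ * ∫ y, e y * Y y|
      ≤ |∫ y, e y * (Q y + ρ * κ * Y y)| + |ρ * κ * ∫ y, e y * Y y| := abs_sub _ _
    _ ≤ |∫ y, e y * (Q y + ρ * κ * Y y)| + ρ * |κ| * (BY * (4 * h)) := by
        rw [abs_mul, abs_mul, abs_of_pos hr]
        exact add_le_add_right (mul_le_mul_of_nonneg_left e3 (mul_nonneg hr.le (abs_nonneg _))) _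
    _ = |∫ y, e y * (Q y + ρ * κ * Y y)| + 4 * (|κ| * BY) * (ρ * h) := by ring

/-- collecting the terms -/
theorem collect {C1 C2 kB CS ρ h P q S I E2 X D : ℝ} (hC1 : 0 < C1) (hkB : 0 ≤ kB) (hCS : 0 < CS)
    (hC2 : C2 = C1 * (3 + 4 * kB + CS) + 1) (hr : 0 < ρ) (hh : 0 ≤ h) (hP0 : 0 ≤ P) (hP : P ≤ ρ)
    (hq0 : 0 ≤ q) (hS0 : 0 ≤ S) (hX : 0 ≤ X) (hI : I ≤ q + 4 * kB * (ρ * h)) (hE1 : E2 ≤ 1) :
    -(1 / 4) * D + C1 * (ρ * h ^ 2 + P * (I + ρ * h + h ^ 2) + CS * S * h) + X * E2 ≤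
      -(1 / 4) * D + C2 * (ρ * h ^ 2 + P * q + h * (ρ * P + S) + X) := by
  have i1 : P * I ≤ P * q + 4 * kB * (ρ * P * h) := by
    calc P * I ≤ P * (q + 4 * kB * (ρ * h)) := mul_le_mul_of_nonneg_left hI hP0
      _ = P * q + 4 * kB * (ρ * P * h) := by ring
  have i2 : P * h ^ 2 ≤ ρ * h ^ 2 := mul_le_mul_of_nonneg_right hP (by positivity)
  have i3 : X * E2 ≤ X := by
    calc X * E2 ≤ X * 1 := mul_le_mul_of_nonneg_left hE1 hX
      _ = X := mul_one _
  have x1 : 0 ≤ ρ * h ^ 2 := by positivity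
  have x2 : 0 ≤ P * q := by positivity
  have x3 : 0 ≤ ρ * P * h := by positivity
  have x4 : 0 ≤ S * h := by positivity
  have g1 : C1 * (ρ * h ^ 2 + P * (I + ρ * h + h ^ 2) + CS * S * h) ≤
      C1 * (2 * (ρ * h ^ 2) + P * q + (4 * kB + 1) * (ρ * P * h) + CS * (S * h)) := by
    refine mul_le_mul_of_nonneg_left ?_ hC1.le
    have e5 : P * (I + ρ * h + h ^ 2) = P * I + ρ * P * h + P * h ^ 2 := by ring
    have e6 : CS * S * h = CS * (S * h) := by ring
    rw [e5, e6]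
    linarith
  have t1 : 0 ≤ C1 * (ρ * h ^ 2) * (1 + 4 * kB + CS) := by positivity
  have t2 : 0 ≤ C1 * (P * q) * (2 + 4 * kB + CS) := by positivity
  have t3 : 0 ≤ C1 * (ρ * P * h) * (2 + CS) := by positivity
  have t4 : 0 ≤ C1 * (S * h) * (3 + 4 * kB) := by positivity
  have t5 : 0 ≤ C1 * X * (3 + 4 * kB + CS) := by positivity
  have g2 : C2 * (ρ * h ^ 2 + P * q + h * (ρ * P + S) + X) =
      C1 * (2 * (ρ * h ^ 2) + P * q + (4 * kB + 1) * (ρ * P * h) + CS * (S * h)) + X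
      + (C1 * (ρ * h ^ 2) * (1 + 4 * kB + CS) + C1 * (P * q) * (2 + 4 * kB + CS)
        + C1 * (ρ * P * h) * (2 + CS) + C1 * (S * h) * (3 + 4 * kB) + C1 * X * (3 + 4 * kB + CS)
        + (ρ * h ^ 2 + P * q + ρ * P * h + S * h)) := by
    rw [hC2]; ring
  rw [g2]
  linarith

theorem hineq (hC : S_CURVE) (hT : S_TAUB) (hWL : S_WTL) (hK : S_CONTQ) (hKD : S_CONTD)
    (hA : S_LAWAB) (hZR : S_ZREG) (hSI : S_SID) (hDV : S_DVB) (hS0 : S_S0B) (hHD : S_HDYN)
    (hHS : S_HSTATm) (hHC : S_HCOER) : S_HINEQ := by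
  intro α K C n Z Y V2 ha0 ha1 hK64 hZ hY hV
  obtain ⟨ρA, CA, hρA, hLA⟩ := hA α K C n Z Y V2 ha0 ha1 hK64 hZ hY hV
  obtain ⟨ρD, CD, hρD, hDVB⟩ := hDV α K C n Z Y V2 ha0 ha1 hZ hY hV
  obtain ⟨ρ0, CS, hρ0, hCS, hS0B⟩ := hS0 α K C n Z Y V2 ha0 ha1 hK64 hZ hY hV
  obtain ⟨CV0, ρ2, hCV0, hρ2, hρ21, hst1, hst2⟩ := static_bd hT (C := C) hZ hY hV
  obtain ⟨BY, BY0, hBY⟩ := bdE hY.isE
  obtain ⟨CV, hCVd⟩ : ∃ CV : ℝ, CV = CV0 + |CD| := ⟨_, rfl⟩
  have hCV1 : 1 ≤ CV := by rw [hCVd]; linarith [abs_nonneg CD]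
  have hCV0' : CV0 ≤ CV := by rw [hCVd]; linarith [abs_nonneg CD]
  have hCDV : CD ≤ CV := by rw [hCVd]; linarith [le_abs_self CD]
  obtain ⟨C1, hC1, hHS1⟩ := hHS α ha0 ha1 K (by linarith) CV hCV1
  obtain ⟨C2, hC2d⟩ : ∃ C2 : ℝ, C2 = C1 * (3 + 4 * (|kap α| * BY) + CS) + 1 := ⟨_, rfl⟩
  have hkB : 0 ≤ |kap α| * BY := mul_nonneg (abs_nonneg _) BY0
  have hC2 : 0 < C2 := by rw [hC2d]; positivity
  refine ⟨C2 + 64, 1 / 4, by positivity, by norm_num, fun N0 hN0 => ?_⟩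
  obtain ⟨ρS, εS, hρS, hρS1, hεS, hεS1, hHS2⟩ := hHS1 (2 * N0)
  obtain ⟨ρC, εC, hρC, hρC1, hεC, hεC1, hHC1⟩ := hHC K hK64 CV hCV1
  have hmA : 0 < max CA 1 := lt_max_of_lt_right one_pos
  refine ⟨min (min (min (min (min (min ρA ρD) ρ0) ρ2) ρS) ρC) (1 / (6 * max CA 1)), min εS εC,
    by positivity, lt_min hεS hεC, ?_⟩
  intro T W Wt r r' hT0 hρT hBg u t1 t2 ht1 h12 ht2 hρ hu a b a' b' ca' cb' hab
  have hpos : ∀ s ∈ Icc t1 t2, 0 < s := fun s hs => ht1.trans_le hs.1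
  have hr0 : ∀ s ∈ Icc t1 t2, 0 < rho α s := fun s hs => rho_pos hC ha0 ha1 (hpos s hs)
  have hl0 : ∀ s ∈ Icc t1 t2, 0 < lam α s := fun s hs => lam_pos hC ha0 ha1 (hpos s hs)
  have hrm : ∀ s ∈ Icc t1 t2, rho α s ≤ min (min (min (min (min (min ρA ρD) ρ0) ρ2) ρS) ρC)
    (1 / (6 * max CA 1)) := fun s hs => (rho_mono hC ha0 ha1 (hpos s hs) hs.2).trans hρ
  have hr_A : rho α t2 ≤ ρA := (hrm t2 (right_mem_Icc.2 h12.le)).trans
    ((min_le_left _ _).trans ((min_le_left _ _).trans ((min_le_left _ _).trans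
      ((min_le_left _ _).trans ((min_le_left _ _).trans (min_le_left _ _))))))
  have hr_D : ∀ s ∈ Icc t1 t2, rho α s ≤ ρD := fun s hs => (hrm s hs).trans
    ((min_le_left _ _).trans ((min_le_left _ _).trans ((min_le_left _ _).trans
      ((min_le_left _ _).trans ((min_le_left _ _).trans (min_le_right _ _))))))
  have hr_0 : ∀ s ∈ Icc t1 t2, rho α s ≤ ρ0 := fun s hs => (hrm s hs).trans
    ((min_le_left _ _).trans ((min_le_left _ _).trans ((min_le_left _ _).trans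
      ((min_le_left _ _).trans (min_le_right _ _)))))
  have hr_2 : ∀ s ∈ Icc t1 t2, rho α s ≤ ρ2 := fun s hs => (hrm s hs).trans
    ((min_le_left _ _).trans ((min_le_left _ _).trans ((min_le_left _ _).trans (min_le_right _ _))))
  have hr_S : ∀ s ∈ Icc t1 t2, rho α s ≤ ρS := fun s hs => (hrm s hs).trans
    ((min_le_left _ _).trans ((min_le_left _ _).trans (min_le_right _ _)))
  have hr_C : ∀ s ∈ Icc t1 t2, rho α s ≤ ρC := fun s hs => (hrm s hs).trans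
    ((min_le_left _ _).trans (min_le_right _ _))
  have hr_6 : ∀ s ∈ Icc t1 t2, rho α s ≤ 1 / (6 * max CA 1) := fun s hs => (hrm s hs).trans
    (min_le_right _ _)
  have hr1 : ∀ s ∈ Icc t1 t2, rho α s ≤ 1 := fun s hs => (hr_2 s hs).trans hρ21
  have hIT : ∀ s ∈ Icc t1 t2, s ∈ Ioc 0 T := fun s hs => ⟨hpos s hs, hs.2.trans ht2⟩
  have ca : ContinuousOn a (Icc t1 t2) := fun s hs => (hab s hs).1.continuousWithinAt
  have cb : ContinuousOn b (Icc t1 t2) := fun s hs => (hab s hs).2.1.continuousWithinAt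
  obtain ⟨ch, ce, cq, hreg⟩ := hK α N0 K T C n Z Y V2 W Wt r r' ha0 ha1 hK64 hT0 hZ hY hV hBg u t1 t2
    ht1 h12 ht2 hu a b ca cb
  have cd := hKD α N0 K T C n Z Y V2 W Wt r r' ha0 ha1 hK64 hT0 hZ hY hV hBg u t1 t2
    ht1 h12 ht2 hu a b ca cb
  -- the fields
  obtain ⟨hWi, hWti, hWd⟩ := hBg.hinf t1 t2 ht1 h12.le ht2
  obtain ⟨zt, hzi, hzti, hzd⟩ := hZR α Z Y V2 ha0 ha1 hZ hY hV t1 t2 a b a' b' ht1 h12 ca' cb'
    (fun s hs => ⟨(hab s hs).1, (hab s hs).2.1⟩)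
  have hwf := Pool.Agent.Helper26.KV.HInf_wflux hu.hinf
  have hVi : HInf (vOut α Z V2 W a b) t1 t2 := Pool.Agent.Helper26.KV.HInf_add hWi hzi
  have hVti : HInf (fun t x => Wt t x + zt t x) t1 t2 := Pool.Agent.Helper26.KV.HInf_add hWti hzti
  have hVd : HasTimeDeriv (vOut α Z V2 W a b) (fun t x => Wt t x + zt t x) t1 t2 :=
    htd_add hWi hzi hWti hzti hWd hzd
  have huWi := Pool.Agent.Helper26.KV.HInf_sub hu.hinf hWi
  have huWti := Pool.Agent.Helper26.KV.HInf_sub hwf hWti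
  have huWd := htd_sub hu.hinf hWi hwf hWti hu.eqn hWd
  have hei : HInf (eOut α Z V2 u W a b) t1 t2 := Pool.Agent.Helper26.KV.HInf_sub huWi hzi
  have heti : HInf (fun t x => (-deriv (flux (u t)) x - Wt t x) - zt t x) t1 t2 :=
    Pool.Agent.Helper26.KV.HInf_sub huWti hzti
  have hed : HasTimeDeriv (eOut α Z V2 u W a b)
      (fun t x => (-deriv (flux (u t)) x - Wt t x) - zt t x) t1 t2 :=
    htd_sub huWi hzi huWti hzti huWd hzd
  have hsid := hSI α N0 K T C n Z Y V2 W Wt r r' ha0 ha1 hT0 hZ hY hV hBg u t1 t2 ht1 h12 ht2 hu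
    a b a' b' (fun s hs => ⟨(hab s hs).1, (hab s hs).2.1⟩) _ _ hVi hVti hVd hei heti hed
  have hHn0 : ∀ s ∈ Icc t1 t2, 0 ≤ hsq α K (etaI α Z V2 u W a b) s := fun s hs =>
    hsq_nonneg' hK64 _ s (hr0 s hs)
  -- bounds at a fixed time
  have hpt : ∀ τ ∈ Icc t1 t2,
      (hsq α K (etaI α Z V2 u W a b) τ ≤ 64 * Hfun α K Z V2 u W a b τ ∧
        Hfun α K Z V2 u W a b τ ≤ 20 * hsq α K (etaI α Z V2 u W a b) τ) ∧
      (∫ y, hInt α K (rho α τ) (inn α (vOut α Z V2 W a b) τ)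
        (DVf α (vOut α Z V2 W a b) (fun t x => Wt t x + zt t x) τ)
        (inn α (eOut α Z V2 u W a b) τ)
        (Sin α (vOut α Z V2 W a b) (eOut α Z V2 u W a b)
          (fun t x => (-deriv (flux (u t)) x - Wt t x) - zt t x) τ) y) ≤
      -(1 / 4) * disp α K (etaI α Z V2 u W a b) τ + C2 * rhsH α K Z Y V2 u W a b a' b' N0 τ := by
    intro τ hτ
    obtain ⟨-, -, ho1, ho2, hba, hbb, hbh, hbe⟩ := hab τ hτ
    obtain ⟨v1, e1, s1⟩ := hsid τ hτ
    have hr := hr0 τ hτ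
    have hr1' := hr1 τ hτ
    have hrr2 : rho α τ ^ 2 ≤ rho α τ := by nlinarith
    have hrr21 : rho α τ ^ 2 ≤ 1 := hrr2.trans hr1'
    have hh0 := hHn0 τ hτ
    obtain ⟨h, hhd⟩ : ∃ h, h = Real.sqrt (hsq α K (etaI α Z V2 u W a b) τ) := ⟨_, rfl⟩
    have hh : 0 ≤ h := by rw [hhd]; exact Real.sqrt_nonneg _
    have hhsq : h ^ 2 = hsq α K (etaI α Z V2 u W a b) τ := by rw [hhd]; exact Real.sq_sqrt hh0
    have hhr : h ≤ rho α τ ^ 2 := by
      rw [hhd, Real.sqrt_le_left (by positivity)]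
      calc hsq α K (etaI α Z V2 u W a b) τ ≤ rho α τ ^ 4 := hbh
        _ = (rho α τ ^ 2) ^ 2 := by ring
    have pw : ∀ k : ℕ, 2 ≤ k → rho α τ ^ k ≤ rho α τ ^ 2 := fun k hk =>
      pow_le_pow_of_le_one hr.le hr1' hk
    -- bound of A, B
    have hAB0 := hLA N0 T W Wt r r' hT0 hρT hBg u t1 t2 ht1 h12 ht2 hr_A hu a b a' b'
      (fun s hs => ⟨(hab s hs).1, (hab s hs).2.1, (hab s hs).2.2.1, (hab s hs).2.2.2.1⟩) τ hτ
      (hba.trans hrr21) (hbb.trans hrr21) (hbh.trans (pow_le_one₀ hr.le hr1'))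
    have hAB : |AA α a b a' τ| + |BB α a b b' τ| ≤ rho α τ := by
      refine hAB0.trans ?_
      rw [← hhd]
      exact ab_small hN0 hr hr1' (hr_6 τ hτ) hh hhr hba hbb
    have hAr : |AA α a b a' τ| ≤ rho α τ := by linarith [abs_nonneg (BB α a b b' τ)]
    have hBr : |BB α a b b' τ| ≤ rho α τ := by linarith [abs_nonneg (AA α a b a' τ)]
    -- the functions
    have hvf : inn α (vOut α Z V2 W a b) τ = fun y => inn α W τ y +
        (a τ * tauA α Z (rho α τ) y + b τ * tauB α Z V2 (rho α τ) y) := funext v1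
    have hef : inn α (eOut α Z V2 u W a b) τ = etaI α Z V2 u W a b τ := funext e1
    obtain ⟨bv1, bv2⟩ := hst2 N0 K T n W Wt r r' hBg τ (hIT τ hτ) hr (hr_2 τ hτ) (a τ) (b τ) hba hbb
    obtain ⟨bt1, bt2, bt3, bt4⟩ := hst1 (rho α τ) hr (hr_2 τ hτ)
    have hHI : HI (etaI α Z V2 u W a b τ) := hreg τ hτ
    have smV : ContDiff ℝ (⊤ : ℕ∞) (inn α (vOut α Z V2 W a b) τ) := by
      have := hVi.smooth τ hτ
      unfold inn
      exact contDiff_const.mul (this.comp (contDiff_const.add (contDiff_const.mul contDiff_id)))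
    have smVt : ContDiff ℝ (⊤ : ℕ∞) (inn α (fun t x => Wt t x + zt t x) τ) := by
      have := hVti.smooth τ hτ
      unfold inn
      exact contDiff_const.mul (this.comp (contDiff_const.add (contDiff_const.mul contDiff_id)))
    have cV : Continuous (inn α (vOut α Z V2 W a b) τ) := smV.continuous
    have cDV : Continuous (DVf α (vOut α Z V2 W a b) (fun t x => Wt t x + zt t x) τ) := by
      have h1 : Continuous (deriv (inn α (vOut α Z V2 W a b) τ)) :=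
        smV.continuous_deriv (by simp)
      unfold DVf
      exact (continuous_const.mul smVt.continuous).add h1
    have hs : 0 ≤ Real.sqrt (rho α τ) := Real.sqrt_nonneg _
    have c1 : ∀ y, |inn α (vOut α Z V2 W a b) τ y| ≤
        CV * (Real.exp (-(|y| / 2)) + Real.sqrt (rho α τ)) := by
      intro y; rw [hvf]
      exact (bv1 y).trans (mul_le_mul_of_nonneg_right hCV0' (by positivity))
    have c2 : ∀ y, |inn α (vOut α Z V2 W a b) τ y - Q y| ≤ CV * rho α τ * Real.exp (|y| / 8) := by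
      intro y; rw [hvf]
      exact (bv2 y).trans (mul_le_mul_of_nonneg_right
        (mul_le_mul_of_nonneg_right hCV0' hr.le) (Real.exp_pos _).le)
    have c3 : ∀ y, |DVf α (vOut α Z V2 W a b) (fun t x => Wt t x + zt t x) τ y| ≤ CV * rho α τ := by
      intro y
      rw [(s1 y).2, hvf]
      exact (hDVB N0 T W Wt r r' hT0 hρT hBg τ (hIT τ hτ) (hr_D τ hτ) a b a' b' (hba.trans hrr2)
        (hbb.trans hrr2) hAr hBr y).trans (mul_le_mul_of_nonneg_right hCDV hr.le)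
    have hw : ∀ y, 0 ≤ Real.exp (-(|y| / 2)) := fun y => (Real.exp_pos _).le
    have mvE : ∀ y : ℝ, CV0 * rho α τ * Real.exp (-(|y| / 2)) ≤ CV * rho α τ * Real.exp (-(|y| / 2)) :=
      fun y => mul_le_mul_of_nonneg_right (mul_le_mul_of_nonneg_right hCV0' hr.le) (hw y)
    obtain ⟨z1, z2, z3, z4⟩ := hS0B N0 T W Wt r r' hT0 hρT hBg τ (hIT τ hτ) (hr_0 τ hτ) (a τ) (b τ)
      hba hbb
    obtain ⟨s0, hs0d⟩ : ∃ s0, s0 = CS * (rho α τ ^ N0 + rho α τ ^ 2 * |a τ| + rho α τ ^ 3 * |b τ|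
      + a τ ^ 2 + b τ ^ 2) := ⟨_, rfl⟩
    have hs0 : 0 ≤ s0 := by rw [hs0d]; positivity
    have hTB := hT α Z Y V2 hZ hY hV
    have dneg : deriv (fun y => -S0f α Z V2 W Wt (a τ) (b τ) τ y)
        = fun y => -deriv (S0f α Z V2 W Wt (a τ) (b τ) τ) y := by
      funext y; exact deriv.fun_neg
    have hbe1 : (∫ y, etaI α Z V2 u W a b τ y ^ 2) ≤ εS := hbe.trans (min_le_left _ _)
    have hbe2 : (∫ y, etaI α Z V2 u W a b τ y ^ 2) ≤ εC := hbe.trans (min_le_right _ _)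
    have hstat := hHS2 (rho α τ) hr (hr_S τ hτ) (inn α (vOut α Z V2 W a b) τ)
      (DVf α (vOut α Z V2 W a b) (fun t x => Wt t x + zt t x) τ) (etaI α Z V2 u W a b τ)
      (tauA α Z (rho α τ)) (tauB α Z V2 (rho α τ))
      (fun y => -S0f α Z V2 W Wt (a τ) (b τ) τ y)
      (Sin α (vOut α Z V2 W a b) (eOut α Z V2 u W a b)
          (fun t x => (-deriv (flux (u t)) x - Wt t x) - zt t x) τ)
      (-AA α a b a' τ) (-BB α a b b' τ) s0 cV cDV hHI (hTB.1 _).1.1 (hTB.1 _).2.1.1 z1.neg c1 c2 c3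
      (fun y => (bt1 y).trans (mvE y)) (fun y => (bt2 y).trans (mvE y))
      (fun y => (bt3 y).trans (mvE y)) (fun y => (bt4 y).trans (mvE y))
      (fun y => by rw [abs_neg]; exact z2 y)
      (by rw [dneg]; simpa only [neg_sq] using z3) hs0
      (by rw [dneg, hs0d]; simpa only [neg_sq] using z4)
      (fun y => (s1 y).1) hbe1
    obtain ⟨k1, k2⟩ := hHC1 (rho α τ) hr (hr_C τ hτ) (inn α (vOut α Z V2 W a b) τ)
      (etaI α Z V2 u W a b τ) cV hHI c1 c2 hbe2 ho1 ho2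
    refine ⟨?_, ?_⟩
    · rw [Hfun_eq, hsq_eq, ← hvf]
      exact ⟨k1, k2⟩
    · rw [hef]
      refine hstat.2.trans ?_
      -- the pairing with Q
      have hm : MemLp (etaI α Z V2 u W a b τ) 2 := by simpa using hHI.2 0
      have hm' : MemLp (deriv (etaI α Z V2 u W a b τ)) 2 := by
        have := hHI.2 1
        rwa [iteratedDeriv_one] at this
      have hwl := (hWL K (rho α τ) hK64 hr hr1' (etaI α Z V2 u W a b τ)
        (hHI.1.of_le (by exact_mod_cast le_top)) hm hm').2.1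
      have hwl' : (∫ y, |etaI α Z V2 u W a b τ y| * Real.exp (-|y| / 2)) ≤ 4 * h := by
        rw [hhd]; exact hwl
      have hqQ := pairQ (κ := kap α) (h := h) hr hY.isE BY0 hBY hm hwl'
      have hHn : Hn K (rho α τ) (etaI α Z V2 u W a b τ) = h ^ 2 := by
        rw [hhsq]; rfl
      rw [← disp_eq, hHn, Real.sqrt_sq hh, abs_neg, abs_neg]
      have hRH : rhsH α K Z Y V2 u W a b a' b' N0 τ = rho α τ * h ^ 2
          + (|AA α a b a' τ| + |BB α a b b' τ|) * |qq α Y (etaI α Z V2 u W a b) τ|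
          + h * (rho α τ * (|AA α a b a' τ| + |BB α a b b' τ|)
            + (rho α τ ^ 2 * |a τ| + rho α τ ^ 3 * |b τ| + a τ ^ 2 + b τ ^ 2 + rho α τ ^ N0))
          + rho α τ ^ (2 * N0) := by
        unfold rhsH
        rw [← hhsq, Real.sqrt_sq hh]
        ring
      have hs0S : s0 = CS * (rho α τ ^ 2 * |a τ| + rho α τ ^ 3 * |b τ| + a τ ^ 2 + b τ ^ 2
          + rho α τ ^ N0) := by rw [hs0d]; ring
      rw [hRH, hs0S]
      exact collect hC1 hkB hCS hC2d hr hh (add_nonneg (abs_nonneg _) (abs_nonneg _)) hAB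
        (abs_nonneg _) (by positivity) (by positivity) hqQ (hbe1.trans hεS1)
  refine ⟨fun t ht => ?_, cd, ?_⟩
  · obtain ⟨k1, k2⟩ := (hpt t ht).1
    have h0 := hHn0 t ht
    have hH0 : 0 ≤ Hfun α K Z V2 u W a b t := by linarith
    refine ⟨k1.trans (mul_le_mul_of_nonneg_right (by linarith) hH0), ?_⟩
    rw [abs_of_nonneg hH0]
    exact k2.trans (mul_le_mul_of_nonneg_right (by linarith) h0)
  · intro s hs t ht hst
    have hsub : Icc s t ⊆ Icc t1 t2 := Icc_subset_Icc hs.1 ht.2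
    obtain ⟨-, d2, d3⟩ := hHD α ha0 ha1 K (by linarith) s t (vOut α Z V2 W a b)
      (fun t x => Wt t x + zt t x) (eOut α Z V2 u W a b)
      (fun t x => (-deriv (flux (u t)) x - Wt t x) - zt t x) (hpos s hs) hst
      (Pool.Agent.Helper26.KV.hinf_mono hVi hs.1 ht.2)
      (Pool.Agent.Helper26.KV.hinf_mono hVti hs.1 ht.2) (htd_mono hVd hs.1 ht.2)
      (Pool.Agent.Helper26.KV.hinf_mono hei hs.1 ht.2)
      (Pool.Agent.Helper26.KV.hinf_mono heti hs.1 ht.2) (htd_mono hed hs.1 ht.2)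
    have hHt : ∀ τ ∈ Icc t1 t2, Hf K (rho α τ) (inn α (vOut α Z V2 W a b) τ)
        (inn α (eOut α Z V2 u W a b) τ) = Hfun α K Z V2 u W a b τ := by
      intro τ hτ
      have hvf : inn α (vOut α Z V2 W a b) τ = fun y => inn α W τ y +
        (a τ * tauA α Z (rho α τ) y + b τ * tauB α Z V2 (rho α τ) y) := funext (hsid τ hτ).1
      have hef : inn α (eOut α Z V2 u W a b) τ = etaI α Z V2 u W a b τ := funext (hsid τ hτ).2.1
      rw [Hfun_eq, hvf, hef]
    rw [hHt s hs, hHt t ht] at d3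
    have hcR := (rhsH_cont (t2 := t2) hC ha0 ha1 ht1 (N0 := N0) (K := K) (Z := Z) (Y := Y)
      (V2 := V2) (u := u) (W := W) ca cb ca' cb' ch cq).mono hsub
    have hcl := (lam_cont (t2 := t2) hC ha0 ha1 ht1).mono hsub
    have hcD := cd.mono hsub
    have hl3 : ∀ τ ∈ Icc s t, lam α τ ^ 3 ≠ 0 := fun τ hτ => (pow_pos (hl0 τ (hsub hτ)) 3).ne'
    have i1 : IntervalIntegrable (fun τ => disp α K (etaI α Z V2 u W a b) τ / lam α τ ^ 3) volume s t :=
      (hcD.div (hcl.pow 3) hl3).intervalIntegrable_of_Icc hst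
    have i2 : IntervalIntegrable (fun τ => ((C2 + 64) / lam α τ ^ 3) *
        rhsH α K Z Y V2 u W a b a' b' N0 τ) volume s t :=
      ((continuousOn_const.div (hcl.pow 3) hl3).mul hcR).intervalIntegrable_of_Icc hst
    have i3 : (∫ τ in s..t, (lam α τ ^ 3)⁻¹ * ∫ y, hInt α K (rho α τ) (inn α (vOut α Z V2 W a b) τ)
        (DVf α (vOut α Z V2 W a b) (fun t x => Wt t x + zt t x) τ)
        (inn α (eOut α Z V2 u W a b) τ)
        (Sin α (vOut α Z V2 W a b) (eOut α Z V2 u W a b)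
          (fun t x => (-deriv (flux (u t)) x - Wt t x) - zt t x) τ) y) ≤
        ∫ τ in s..t, ((-(1 / 4)) * (disp α K (etaI α Z V2 u W a b) τ / lam α τ ^ 3)
          + ((C2 + 64) / lam α τ ^ 3) * rhsH α K Z Y V2 u W a b a' b' N0 τ) := by
      refine intervalIntegral.integral_mono_on hst d2 ((i1.const_mul _).add i2) fun τ hτ => ?_
      have hτ' := hsub hτ
      have hl := pow_pos (hl0 τ hτ') 3
      have h1 := (hpt τ hτ').2
      have hR := rhsH_nonneg hC ha0 ha1 (K := K) (Z := Z) (Y := Y) (V2 := V2) (u := u) (W := W)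
        (a := a) (b := b) (a' := a') (b' := b') (N0 := N0) (hpos τ hτ') (hHn0 τ hτ')
      calc (lam α τ ^ 3)⁻¹ * _ ≤ (lam α τ ^ 3)⁻¹ * (-(1 / 4) * disp α K (etaI α Z V2 u W a b) τ
            + C2 * rhsH α K Z Y V2 u W a b a' b' N0 τ) :=
            mul_le_mul_of_nonneg_left h1 (inv_nonneg.2 hl.le)
        _ ≤ (lam α τ ^ 3)⁻¹ * (-(1 / 4) * disp α K (etaI α Z V2 u W a b) τ
            + (C2 + 64) * rhsH α K Z Y V2 u W a b a' b' N0 τ) := by
            refine mul_le_mul_of_nonneg_left ?_ (inv_nonneg.2 hl.le)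
            linarith
        _ = _ := by
            field_simp
    have i4 := intervalIntegral.integral_add (i1.const_mul (-(1 / 4))) i2
    have i5 : (∫ τ in s..t, (-(1 / 4)) * (disp α K (etaI α Z V2 u W a b) τ / lam α τ ^ 3))
        = -(1 / 4) * ∫ τ in s..t, disp α K (etaI α Z V2 u W a b) τ / lam α τ ^ 3 :=
      intervalIntegral.integral_const_mul _ _
    have i6 : Hfun α K Z V2 u W a b t - Hfun α K Z V2 u W a b s
        + 1 / 4 * (∫ τ in s..t, disp α K (etaI α Z V2 u W a b) τ / lam α τ ^ 3) ≤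
        ∫ τ in s..t, ((C2 + 64) / lam α τ ^ 3) * rhsH α K Z Y V2 u W a b a' b' N0 τ := by
      rw [d3]
      have := i3
      rw [i4, i5] at this
      linarith
    exact i6

end Pool.Agent.Helper33.KV
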