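import Pool.Agent.Helper33.KV.GoalsF3
import Pool.Agent.Helper26.KV.HInfAlg

/-!
# Project KV (`MP_66be51_an`): the near-soliton a priori theorem
-/

namespace Pool.Agent.Helper33.KV

open Real MeasureTheory Set Pool.Agent.Helper41.KV

theorem SmoothSol.mono {u : ℝ → ℝ → ℝ} {t1 t2 s1 s2 : ℝ} (h : SmoothSol u t1 t2) (h1 : t1 ≤ s1)
    (h2 : s2 ≤ t2) : SmoothSol u s1 s2 := by
  refine ⟨Pool.Agent.Helper26.KV.hinf_mono h.hinf h1 h2, fun k t ht x => ?_⟩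
  exact (h.eqn k t (Icc_subset_Icc h1 h2 ht) x).mono (Icc_subset_Icc h1 h2)

section aux

variable {α t1 t2 : ℝ}

theorem rho_pos (hC : S_CURVE) (ha0 : 0 < α) (ha1 : α < 1) {t : ℝ} (ht : 0 < t) : 0 < rho α t :=
  ((hC α ha0 ha1).1 t ht).2.2.1

theorem lam_pos (hC : S_CURVE) (ha0 : 0 < α) (ha1 : α < 1) {t : ℝ} (ht : 0 < t) : 0 < lam α t :=
  ((hC α ha0 ha1).1 t ht).2.1

theorem rho_mono (hC : S_CURVE) (ha0 : 0 < α) (ha1 : α < 1) {s t : ℝ} (hs : 0 < s) (hst : s ≤ t) :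
    rho α s ≤ rho α t := ((hC α ha0 ha1).2.1 s t hs hst).2.2

theorem rho_cont (hC : S_CURVE) (ha0 : 0 < α) (ha1 : α < 1) (h1 : 0 < t1) :
    ContinuousOn (rho α) (Icc t1 t2) := fun t ht =>
  (((hC α ha0 ha1).1 t (h1.trans_le ht.1)).2.2.2.2.2.2.2).continuousAt.continuousWithinAt

theorem lam_cont (hC : S_CURVE) (ha0 : 0 < α) (ha1 : α < 1) (h1 : 0 < t1) :
    ContinuousOn (lam α) (Icc t1 t2) := fun t ht =>
  (((hC α ha0 ha1).1 t (h1.trans_le ht.1)).2.2.2.2.2.2.1).continuousAt.continuousWithinAt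

theorem AA_cont (hC : S_CURVE) (ha0 : 0 < α) (ha1 : α < 1) (h1 : 0 < t1) {a b a' : ℝ → ℝ}
    (ca : ContinuousOn a (Icc t1 t2)) (cb : ContinuousOn b (Icc t1 t2))
    (ca' : ContinuousOn a' (Icc t1 t2)) : ContinuousOn (fun t => AA α a b a' t) (Icc t1 t2) := by
  have hr := rho_cont (t2 := t2) hC ha0 ha1 h1
  have hl := lam_cont (t2 := t2) hC ha0 ha1 h1
  exact (((hl.pow 3).mul ca').add ((continuousOn_const.mul hr).mul ca)).sub
    ((continuousOn_const.mul (hr.pow 2)).mul cb)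

theorem BB_cont (hC : S_CURVE) (ha0 : 0 < α) (ha1 : α < 1) (h1 : 0 < t1) {a b b' : ℝ → ℝ}
    (ca : ContinuousOn a (Icc t1 t2)) (cb : ContinuousOn b (Icc t1 t2))
    (cb' : ContinuousOn b' (Icc t1 t2)) : ContinuousOn (fun t => BB α a b b' t) (Icc t1 t2) := by
  have hr := rho_cont (t2 := t2) hC ha0 ha1 h1
  have hl := lam_cont (t2 := t2) hC ha0 ha1 h1
  exact (((hl.pow 3).mul cb').add (continuousOn_const.mul ca)).add
    ((continuousOn_const.mul hr).mul cb)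

/-- the right side of the energy inequality -/
noncomputable def rhsH (α K : ℝ) (Z Y V2 : ℝ → ℝ) (u W : ℝ → ℝ → ℝ) (a b a' b' : ℝ → ℝ) (N0 : ℕ)
    (τ : ℝ) : ℝ :=
  rho α τ * hsq α K (etaI α Z V2 u W a b) τ
    + (|AA α a b a' τ| + |BB α a b b' τ|) * |qq α Y (etaI α Z V2 u W a b) τ|
    + Real.sqrt (hsq α K (etaI α Z V2 u W a b) τ) *
        (rho α τ * (|AA α a b a' τ| + |BB α a b b' τ|) + rho α τ ^ 2 * |a τ|
          + rho α τ ^ 3 * |b τ| + a τ ^ 2 + b τ ^ 2 + rho α τ ^ N0)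
    + rho α τ ^ (2 * N0)

theorem rhsH_cont (hC : S_CURVE) (ha0 : 0 < α) (ha1 : α < 1) (h1 : 0 < t1) {K : ℝ}
    {Z Y V2 : ℝ → ℝ} {u W : ℝ → ℝ → ℝ} {a b a' b' : ℝ → ℝ} {N0 : ℕ}
    (ca : ContinuousOn a (Icc t1 t2)) (cb : ContinuousOn b (Icc t1 t2))
    (ca' : ContinuousOn a' (Icc t1 t2)) (cb' : ContinuousOn b' (Icc t1 t2))
    (ch : ContinuousOn (hsq α K (etaI α Z V2 u W a b)) (Icc t1 t2))
    (cq : ContinuousOn (qq α Y (etaI α Z V2 u W a b)) (Icc t1 t2)) :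
    ContinuousOn (rhsH α K Z Y V2 u W a b a' b' N0) (Icc t1 t2) := by
  have hr := rho_cont (t2 := t2) hC ha0 ha1 h1
  have hA := AA_cont hC ha0 ha1 h1 ca cb ca'
  have hB := BB_cont hC ha0 ha1 h1 ca cb cb'
  have hAB := hA.abs.add hB.abs
  exact (((hr.mul ch).add (hAB.mul cq.abs)).add ((Real.continuous_sqrt.comp_continuousOn ch).mul
    ((((((hr.mul hAB).add ((hr.pow 2).mul ca.abs)).add ((hr.pow 3).mul cb.abs)).add
      (ca.pow 2)).add (cb.pow 2)).add (hr.pow N0)))).add (hr.pow (2 * N0))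

theorem rhsH_nonneg (hC : S_CURVE) (ha0 : 0 < α) (ha1 : α < 1) {K : ℝ}
    {Z Y V2 : ℝ → ℝ} {u W : ℝ → ℝ → ℝ} {a b a' b' : ℝ → ℝ} {N0 : ℕ} {τ : ℝ} (hτ : 0 < τ)
    (hh : 0 ≤ hsq α K (etaI α Z V2 u W a b) τ) : 0 ≤ rhsH α K Z Y V2 u W a b a' b' N0 τ := by
  have hr := rho_pos hC ha0 ha1 hτ
  unfold rhsH
  positivity

theorem hsq_nonneg' {K : ℝ} (_hK : 64 ≤ K) (η : ℝ → ℝ → ℝ) (t : ℝ) (hr : 0 < rho α t) :
    0 ≤ hsq α K η t := by
  refine integral_nonneg fun y => ?_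
  have : 0 < wt K (rho α t) y := by unfold wt; positivity
  positivity

theorem disp_nonneg' {K : ℝ} (hK : 64 ≤ K) (η : ℝ → ℝ → ℝ) (t : ℝ) (hr : 0 < rho α t) :
    0 ≤ disp α K η t := by
  refine integral_nonneg fun y => ?_
  have h0 : 0 < rho α t * Real.exp (-(y / K)) := by positivity
  have h1 : 0 < wt K (rho α t) y := by unfold wt; positivity
  have h2 : wt K (rho α t) y ≤ 1 := by
    unfold wt
    rw [div_le_one (by linarith)]
    linarith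
  have h3 : 0 ≤ 1 - wt K (rho α t) y := by linarith
  have hK0 : 0 < K := by linarith
  positivity

end aux


/-- The improvement step of the bootstrap. -/
theorem near_step (hC : S_CURVE) (hK : S_CONTQ)
    {α K C : ℝ} {n : ℕ} {Z Y V2 : ℝ → ℝ} (ha0 : 0 < α) (ha1 : α < 1) (hK64 : 64 ≤ K)
    (hZ : IsZ1 Z) (hY : IsY1 Z Y) (hV : IsV2 α Z V2) {ρA CA ρQ CQ CH c CB ρB ρH δH : ℝ}
    {N N0 : ℕ} (h6 : 6 ≤ N) (hNN : N + 2 ≤ N0)
    (hLA : ∀ (N0 : ℕ) (T : ℝ) (W Wt r r' : ℝ → ℝ → ℝ), 0 < T → rho α T ≤ 1 →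
      Bg α N0 K T C n Z V2 W Wt r r' →
      ∀ (u : ℝ → ℝ → ℝ) (t1 t2 : ℝ), 0 < t1 → t1 < t2 → t2 ≤ T →
      rho α t2 ≤ ρA → SmoothSol u t1 t2 → ∀ a b a' b' : ℝ → ℝ,
      (∀ t ∈ Set.Icc t1 t2, HasDerivWithinAt a (a' t) (Set.Icc t1 t2) t ∧
        HasDerivWithinAt b (b' t) (Set.Icc t1 t2) t ∧
        (∫ y, etaI α Z V2 u W a b t y * Q y ^ 3) = 0 ∧
        (∫ y, etaI α Z V2 u W a b t y * deriv Q y) = 0) →
      ∀ t ∈ Set.Icc t1 t2, |a t| ≤ 1 → |b t| ≤ 1 → hsq α K (etaI α Z V2 u W a b) t ≤ 1 →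
        |AA α a b a' t| + |BB α a b b' t| ≤ CA * (Real.sqrt (hsq α K (etaI α Z V2 u W a b) t)
          + rho α t ^ 2 * |a t| + rho α t ^ 3 * |b t| + a t ^ 2 + b t ^ 2 + rho α t ^ N0))
    (hLQ : ∀ (N0 : ℕ) (T : ℝ) (W Wt r r' : ℝ → ℝ → ℝ), 4 ≤ N0 → 0 < T →
      rho α T ≤ 1 → Bg α N0 K T C n Z V2 W Wt r r' →
      ∀ (u : ℝ → ℝ → ℝ) (t1 t2 : ℝ), 0 < t1 → t1 < t2 → t2 ≤ T →
      rho α t2 ≤ ρQ → SmoothSol u t1 t2 → ∀ a b a' b' : ℝ → ℝ,
      (∀ t ∈ Set.Icc t1 t2, HasDerivWithinAt a (a' t) (Set.Icc t1 t2) t ∧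
        HasDerivWithinAt b (b' t) (Set.Icc t1 t2) t) →
      ∀ t ∈ Set.Icc t1 t2, ∃ q' : ℝ,
        HasDerivWithinAt (fun τ => ∫ y, etaI α Z V2 u W a b τ y * Th α Y (rho α τ) y) q'
          (Set.Icc t1 t2) t ∧
        (|a t| ≤ 1 → |b t| ≤ 1 → hsq α K (etaI α Z V2 u W a b) t ≤ 1 →
         |lam α t ^ 3 * q' - 2 * (2 * α + 1) * rho α t *
            ∫ y, etaI α Z V2 u W a b t y * Th α Y (rho α t) y| ≤
          CQ * (rho α t ^ 2 * Real.sqrt (hsq α K (etaI α Z V2 u W a b) t)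
            + hsq α K (etaI α Z V2 u W a b) t + rho α t ^ 3 * |a t| + rho α t ^ 4 * |b t|
            + rho α t ^ 2 * (|AA α a b a' t| + |BB α a b b' t|) + a t ^ 2 + b t ^ 2
            + rho α t ^ N0)))
    (hCH : 0 < CH) (hAB : CA ≤ CB) (hQB : CQ ≤ CB) (hHB : CH ≤ CB)
    (hBoot : ∀ (t1 t2 : ℝ) (a b q a' b' q' h2 Hf ds : ℝ → ℝ), 0 < t1 → t1 < t2 → rho α t2 ≤ ρB →
      ContinuousOn h2 (Set.Icc t1 t2) → ContinuousOn ds (Set.Icc t1 t2) →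
      ContinuousOn a' (Set.Icc t1 t2) → ContinuousOn b' (Set.Icc t1 t2) →
      (∀ t ∈ Set.Icc t1 t2, 0 ≤ h2 t ∧ 0 ≤ ds t ∧ h2 t ≤ CB * Hf t ∧
        HasDerivWithinAt a (a' t) (Set.Icc t1 t2) t ∧ HasDerivWithinAt b (b' t) (Set.Icc t1 t2) t ∧
        HasDerivWithinAt q (q' t) (Set.Icc t1 t2) t ∧
        |AA α a b a' t| + |BB α a b b' t| ≤ CB * (Real.sqrt (h2 t) + rho α t ^ 2 * |a t|
          + rho α t ^ 3 * |b t| + a t ^ 2 + b t ^ 2 + rho α t ^ N0) ∧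
        |lam α t ^ 3 * q' t - 2 * (2 * α + 1) * rho α t * q t| ≤
          CB * (rho α t ^ 2 * Real.sqrt (h2 t) + h2 t + rho α t ^ 3 * |a t| + rho α t ^ 4 * |b t|
            + rho α t ^ 2 * (|AA α a b a' t| + |BB α a b b' t|) + a t ^ 2 + b t ^ 2
            + rho α t ^ N0) ∧
        h2 t ≤ rho α t ^ (2 * N) ∧ |a t| ≤ rho α t ^ (N - 1) ∧ |b t| ≤ rho α t ^ (N - 2) ∧
        |q t| ≤ rho α t ^ (N + 1)) →
      (∀ s ∈ Set.Icc t1 t2, ∀ t ∈ Set.Icc t1 t2, s ≤ t →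
        Hf t - Hf s + c * ∫ τ in s..t, ds τ / lam α τ ^ 3 ≤
          ∫ τ in s..t, (CB / lam α τ ^ 3) * (rho α τ * h2 τ
            + (|AA α a b a' τ| + |BB α a b b' τ|) * |q τ|
            + Real.sqrt (h2 τ) * (rho α τ * (|AA α a b a' τ| + |BB α a b b' τ|)
                + rho α τ ^ 2 * |a τ|
                + rho α τ ^ 3 * |b τ| + a τ ^ 2 + b τ ^ 2 + rho α τ ^ N0)
            + rho α τ ^ (2 * N0))) →
      |a t1| ≤ rho α t1 ^ N0 → |b t1| ≤ rho α t1 ^ N0 → |q t1| ≤ rho α t1 ^ N0 →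
      Hf t1 ≤ rho α t1 ^ (2 * N0) →
      ∀ t ∈ Set.Icc t1 t2,
        h2 t ≤ rho α t ^ (2 * N) / 2 ∧ |a t| ≤ rho α t ^ (N - 1) / 2 ∧
        |b t| ≤ rho α t ^ (N - 2) / 2 ∧ |q t| ≤ rho α t ^ (N + 1) / 2 ∧
        (∫ τ in t1..t, ds τ / lam α τ ^ 3) ≤ rho α t ^ (2 * N))
    (hHIN : ∀ (T : ℝ) (W Wt r r' : ℝ → ℝ → ℝ), 0 < T → rho α T ≤ 1 →
     Bg α N0 K T C n Z V2 W Wt r r' →
     ∀ (u : ℝ → ℝ → ℝ) (t1 t2 : ℝ), 0 < t1 → t1 < t2 → t2 ≤ T → rho α t2 ≤ ρH →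
      SmoothSol u t1 t2 → ∀ a b a' b' : ℝ → ℝ,
      ContinuousOn a' (Set.Icc t1 t2) → ContinuousOn b' (Set.Icc t1 t2) →
      (∀ t ∈ Set.Icc t1 t2, HasDerivWithinAt a (a' t) (Set.Icc t1 t2) t ∧
        HasDerivWithinAt b (b' t) (Set.Icc t1 t2) t ∧
        (∫ y, etaI α Z V2 u W a b t y * Q y ^ 3) = 0 ∧
        (∫ y, etaI α Z V2 u W a b t y * deriv Q y) = 0 ∧
        |a t| ≤ rho α t ^ 2 ∧ |b t| ≤ rho α t ^ 2 ∧
        hsq α K (etaI α Z V2 u W a b) t ≤ rho α t ^ 4 ∧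
        (∫ y, etaI α Z V2 u W a b t y ^ 2) ≤ δH) →
      (∀ t ∈ Set.Icc t1 t2,
        hsq α K (etaI α Z V2 u W a b) t ≤ CH * Hfun α K Z V2 u W a b t ∧
        |Hfun α K Z V2 u W a b t| ≤ CH * hsq α K (etaI α Z V2 u W a b) t) ∧
      ContinuousOn (disp α K (etaI α Z V2 u W a b)) (Set.Icc t1 t2) ∧
      ∀ s ∈ Set.Icc t1 t2, ∀ t ∈ Set.Icc t1 t2, s ≤ t →
        Hfun α K Z V2 u W a b t - Hfun α K Z V2 u W a b s
          + c * ∫ τ in s..t, disp α K (etaI α Z V2 u W a b) τ / lam α τ ^ 3 ≤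
        ∫ τ in s..t, (CH / lam α τ ^ 3) * (rho α τ * hsq α K (etaI α Z V2 u W a b) τ
          + (|AA α a b a' τ| + |BB α a b b' τ|) * |qq α Y (etaI α Z V2 u W a b) τ|
          + Real.sqrt (hsq α K (etaI α Z V2 u W a b) τ) *
              (rho α τ * (|AA α a b a' τ| + |BB α a b b' τ|) + rho α τ ^ 2 * |a τ|
                + rho α τ ^ 3 * |b τ| + a τ ^ 2 + b τ ^ 2 + rho α τ ^ N0)
          + rho α τ ^ (2 * N0)))
    {T : ℝ} {W Wt r r' : ℝ → ℝ → ℝ} (hT : 0 < T) (hρT : rho α T ≤ 1)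
    (hBg : Bg α N0 K T C n Z V2 W Wt r r') {u : ℝ → ℝ → ℝ} {t1 t : ℝ} (ht1 : 0 < t1) (h12 : t1 < t)
    (htT : t ≤ T) (hrA : rho α t ≤ ρA) (hrQ : rho α t ≤ ρQ) (hrB : rho α t ≤ ρB)
    (hrH : rho α t ≤ ρH) (hu : SmoothSol u t1 t) {a b a' b' : ℝ → ℝ}
    (ca' : ContinuousOn a' (Icc t1 t)) (cb' : ContinuousOn b' (Icc t1 t))
    (hab : ∀ s ∈ Icc t1 t, HasDerivWithinAt a (a' s) (Icc t1 t) s ∧
        HasDerivWithinAt b (b' s) (Icc t1 t) s ∧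
        (∫ y, etaI α Z V2 u W a b s y * Q y ^ 3) = 0 ∧
        (∫ y, etaI α Z V2 u W a b s y * deriv Q y) = 0)
    (hin : |a t1| ≤ rho α t1 ^ N0 ∧ |b t1| ≤ rho α t1 ^ N0 ∧
      |qq α Y (etaI α Z V2 u W a b) t1| ≤ rho α t1 ^ N0 ∧
      CH * hsq α K (etaI α Z V2 u W a b) t1 ≤ rho α t1 ^ (2 * N0))
    (hbd : ∀ s ∈ Icc t1 t, hsq α K (etaI α Z V2 u W a b) s ≤ rho α s ^ (2 * N) ∧
      |a s| ≤ rho α s ^ (N - 1) ∧ |b s| ≤ rho α s ^ (N - 2) ∧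
      |qq α Y (etaI α Z V2 u W a b) s| ≤ rho α s ^ (N + 1) ∧
      (∫ y, etaI α Z V2 u W a b s y ^ 2) ≤ δH) :
    ∀ s ∈ Icc t1 t, hsq α K (etaI α Z V2 u W a b) s ≤ rho α s ^ (2 * N) / 2 ∧
      |a s| ≤ rho α s ^ (N - 1) / 2 ∧ |b s| ≤ rho α s ^ (N - 2) / 2 ∧
      |qq α Y (etaI α Z V2 u W a b) s| ≤ rho α s ^ (N + 1) / 2 ∧
      |AA α a b a' s| + |BB α a b b' s| ≤ CA * (Real.sqrt (hsq α K (etaI α Z V2 u W a b) s)
          + rho α s ^ 2 * |a s| + rho α s ^ 3 * |b s| + a s ^ 2 + b s ^ 2 + rho α s ^ N0) ∧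
      (∫ τ in t1..s, disp α K (etaI α Z V2 u W a b) τ / lam α τ ^ 3) ≤ rho α s ^ (2 * N) := by
  have hpos : ∀ s ∈ Icc t1 t, 0 < s := fun s hs => ht1.trans_le hs.1
  have hr0 : ∀ s ∈ Icc t1 t, 0 < rho α s := fun s hs => rho_pos hC ha0 ha1 (hpos s hs)
  have hr1 : ∀ s ∈ Icc t1 t, rho α s ≤ 1 := fun s hs =>
    (rho_mono hC ha0 ha1 (hpos s hs) (hs.2.trans htT)).trans hρT
  have ca : ContinuousOn a (Icc t1 t) := fun s hs => (hab s hs).1.continuousWithinAt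
  have cb : ContinuousOn b (Icc t1 t) := fun s hs => (hab s hs).2.1.continuousWithinAt
  obtain ⟨ch, ce, cq, -⟩ := hK α N0 K T C n Z Y V2 W Wt r r' ha0 ha1 hK64 hT hZ hY hV hBg u t1 t
    ht1 h12 htT hu a b ca cb
  have hh0 : ∀ s ∈ Icc t1 t, 0 ≤ hsq α K (etaI α Z V2 u W a b) s := fun s hs =>
    hsq_nonneg' hK64 _ s (hr0 s hs)
  have pw : ∀ s ∈ Icc t1 t, ∀ k : ℕ, rho α s ^ k ≤ 1 := fun s hs k =>
    pow_le_one₀ (hr0 s hs).le (hr1 s hs)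
  have pw2 : ∀ s ∈ Icc t1 t, ∀ j k : ℕ, j ≤ k → rho α s ^ k ≤ rho α s ^ j := fun s hs j k hjk =>
    pow_le_pow_of_le_one (hr0 s hs).le (hr1 s hs) hjk
  have hA := fun s (hs : s ∈ Icc t1 t) => hLA N0 T W Wt r r' hT hρT hBg u t1 t ht1 h12 htT hrA hu
    a b a' b' hab s hs ((hbd s hs).2.1.trans (pw s hs _)) ((hbd s hs).2.2.1.trans (pw s hs _))
    ((hbd s hs).1.trans (pw s hs _))
  have hq' : ∀ s : ℝ, ∃ q' : ℝ, s ∈ Icc t1 t →
      HasDerivWithinAt (fun τ => ∫ y, etaI α Z V2 u W a b τ y * Th α Y (rho α τ) y) q'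
          (Set.Icc t1 t) s ∧
         |lam α s ^ 3 * q' - 2 * (2 * α + 1) * rho α s *
            ∫ y, etaI α Z V2 u W a b s y * Th α Y (rho α s) y| ≤
          CQ * (rho α s ^ 2 * Real.sqrt (hsq α K (etaI α Z V2 u W a b) s)
            + hsq α K (etaI α Z V2 u W a b) s + rho α s ^ 3 * |a s| + rho α s ^ 4 * |b s|
            + rho α s ^ 2 * (|AA α a b a' s| + |BB α a b b' s|) + a s ^ 2 + b s ^ 2
            + rho α s ^ N0) := by
    intro s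
    by_cases hs : s ∈ Icc t1 t
    · obtain ⟨q', h1, h2⟩ := hLQ N0 T W Wt r r' (by omega) hT hρT hBg u t1 t ht1 h12 htT hrQ hu
        a b a' b' (fun τ hτ => ⟨(hab τ hτ).1, (hab τ hτ).2.1⟩) s hs
      exact ⟨q', fun _ => ⟨h1, h2 ((hbd s hs).2.1.trans (pw s hs _))
        ((hbd s hs).2.2.1.trans (pw s hs _)) ((hbd s hs).1.trans (pw s hs _))⟩⟩
    · exact ⟨0, fun h => absurd h hs⟩
  choose q' hq' using hq'
  obtain ⟨hco, cd, hin'⟩ := hHIN T W Wt r r' hT hρT hBg u t1 t ht1 h12 htT hrH hu a b a' b' ca' cb'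
    (fun s hs => ⟨(hab s hs).1, (hab s hs).2.1, (hab s hs).2.2.1, (hab s hs).2.2.2,
      (hbd s hs).2.1.trans (pw2 s hs _ _ (by omega)), (hbd s hs).2.2.1.trans (pw2 s hs _ _ (by omega)),
      (hbd s hs).1.trans (pw2 s hs _ _ (by omega)), (hbd s hs).2.2.2.2⟩)
  have hCB : 0 ≤ CB := hCH.le.trans hHB
  have ht1m : t1 ∈ Icc t1 t := left_mem_Icc.2 h12.le
  have hB := hBoot t1 t a b (qq α Y (etaI α Z V2 u W a b)) a' b' q'
    (hsq α K (etaI α Z V2 u W a b)) (Hfun α K Z V2 u W a b) (disp α K (etaI α Z V2 u W a b))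
    ht1 h12 hrB ch cd ca' cb' ?_ ?_ hin.1 hin.2.1 hin.2.2.1 ?_
  · intro s hs
    obtain ⟨b1, b2, b3, b4, b5⟩ := hB s hs
    exact ⟨b1, b2, b3, b4, hA s hs, b5⟩
  · intro s hs
    have hHf : 0 ≤ Hfun α K Z V2 u W a b s := by
      have h1 := (hco s hs).1
      have h2 := hh0 s hs
      by_contra hlt
      have : CH * Hfun α K Z V2 u W a b s < 0 := mul_neg_of_pos_of_neg hCH (not_le.1 hlt)
      linarith
    have hS : 0 ≤ Real.sqrt (hsq α K (etaI α Z V2 u W a b) s) := Real.sqrt_nonneg _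
    have hr := (hr0 s hs).le
    refine ⟨hh0 s hs, disp_nonneg' hK64 _ s (hr0 s hs),
      (hco s hs).1.trans (mul_le_mul_of_nonneg_right hHB hHf), (hab s hs).1, (hab s hs).2.1,
      (hq' s hs).1, (hA s hs).trans (mul_le_mul_of_nonneg_right hAB (by positivity)),
      ((hq' s hs).2).trans (mul_le_mul_of_nonneg_right hQB ?_), (hbd s hs).1, (hbd s hs).2.1,
      (hbd s hs).2.2.1, (hbd s hs).2.2.2.1⟩
    have := hh0 s hs
    positivity
  · intro s hs s' hs' hss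
    refine (hin' s hs s' hs' hss).trans ?_
    have hsub : Icc s s' ⊆ Icc t1 t := Icc_subset_Icc hs.1 hs'.2
    have hcR := (rhsH_cont (t2 := t) hC ha0 ha1 ht1 (N0 := N0) (K := K) (Z := Z) (Y := Y)
      (V2 := V2) (u := u) (W := W) ca cb ca' cb' ch cq).mono hsub
    have hcl := (lam_cont (t2 := t) hC ha0 ha1 ht1).mono hsub
    have hl0 : ∀ τ ∈ Icc s s', lam α τ ^ 3 ≠ 0 := fun τ hτ =>
      (pow_pos (lam_pos hC ha0 ha1 (hpos τ (hsub hτ))) 3).ne'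
    have hci : ∀ D : ℝ, ContinuousOn (fun τ => (D / lam α τ ^ 3) *
        rhsH α K Z Y V2 u W a b a' b' N0 τ) (Icc s s') := fun D =>
      (continuousOn_const.div (hcl.pow 3) hl0).mul hcR
    have hii : ∀ D : ℝ, IntervalIntegrable (fun τ => (D / lam α τ ^ 3) *
        rhsH α K Z Y V2 u W a b a' b' N0 τ) volume s s' := fun D =>
      (hci D).intervalIntegrable_of_Icc hss
    refine intervalIntegral.integral_mono_on hss (hii CH) (hii CB) fun τ hτ => ?_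
    have hl := lam_pos hC ha0 ha1 (hpos τ (hsub hτ))
    have hR := rhsH_nonneg hC ha0 ha1 (K := K) (Z := Z) (Y := Y) (V2 := V2) (u := u) (W := W)
      (a := a) (b := b) (a' := a') (b' := b') (N0 := N0) (hpos τ (hsub hτ)) (hh0 τ (hsub hτ))
    exact mul_le_mul_of_nonneg_right
      (div_le_div_of_nonneg_right hHB (by positivity)) hR
  · exact (le_abs_self _).trans (((hco t1 ht1m).2).trans hin.2.2.2)


theorem near (hC : S_CURVE) (hM : S_MOD) (hK : S_CONTQ) (hA : S_LAWAB) (hQ : S_LAWQ)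
    (hH : S_HINEQ) (hB : S_BOOT) (hBC : S_BOOTC) (hI : S_INIT) (hML : S_MASSL) : S_NEAR := by
  intro α K C n Z Y V2 ha0 ha1 hK64 hZ hY hV
  obtain ⟨ρM, CM, hρM, hMOD⟩ := hM α K C n Z Y V2 ha0 ha1 hZ hY hV
  obtain ⟨ρA, CA, hρA, hLA⟩ := hA α K C n Z Y V2 ha0 ha1 hK64 hZ hY hV
  obtain ⟨ρQ, CQ, hρQ, hLQ⟩ := hQ α K C n Z Y V2 ha0 ha1 hK64 hZ hY hV
  obtain ⟨CH, c, hCH, hc, hHI⟩ := hH α K C n Z Y V2 ha0 ha1 hK64 hZ hY hV
  obtain ⟨CB, hCB⟩ : ∃ CB, CB = max (max CA CQ) CH := ⟨_, rfl⟩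
  have hAB : CA ≤ CB := by rw [hCB]; exact (le_max_left _ _).trans (le_max_left _ _)
  have hQB : CQ ≤ CB := by rw [hCB]; exact (le_max_right _ _).trans (le_max_left _ _)
  have hHB : CH ≤ CB := by rw [hCB]; exact le_max_right _ _
  obtain ⟨N1, hN1, hBOOT⟩ := hB α CB c ha0 ha1 (hCH.trans_le hHB) hc
  refine ⟨N1, hN1, fun N N0 hN hNN => ?_⟩
  have h6 : 6 ≤ N := hN1.trans hN
  obtain ⟨ρB, hρB, hρB1, hBoot⟩ := hBOOT N N0 hN hNN
  obtain ⟨ρH, δH, hρH, hδH, hHIN⟩ := hHI N0 (by omega)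
  refine ⟨δH / 4, by positivity, ?_⟩
  intro T C2 M W Wt r r' hT hρT hBg hBY ε hε
  have hε' : 0 < min ε (δH / 4) := lt_min hε (by positivity)
  obtain ⟨ρS, hρS, hMS⟩ := hML α N0 K T C C2 M n Z Y V2 W Wt r r' ha0 ha1 hK64 hT hρT hZ hY hV hBg
    hBY (min ε (δH / 4)) hε'
  have hC0 : 0 < max CH 1 := lt_max_of_lt_left hCH
  obtain ⟨ρI, hρI, hINI⟩ := hI α N0 K T C (max CH 1) n Z Y V2 W Wt r r' ha0 ha1 hK64 hT hρT hC0
    hZ hY hV hBg CM
  have hCA6 : 0 < 1 / (6 * max CA 1) := by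
    have : 0 < max CA 1 := lt_max_of_lt_right one_pos
    positivity
  obtain ⟨T', hT', hT'ρ⟩ := (hC α ha0 ha1).2.2 (min (min (min (min (min (min (min ρM ρA) ρQ) ρB) ρH)
    ρS) ρI) (min (1 / 2) (1 / (6 * max CA 1)))) (by positivity)
  refine ⟨min T T', lt_min hT hT', min_le_left _ _, ?_⟩
  intro u t1 t2 ht1 h12 ht2 hu g hg hug hg0 hg2 hg2' hge hgδ
  have ht2T : t2 ≤ T := ht2.trans (min_le_left _ _)
  have hpos : ∀ s ∈ Icc t1 t2, 0 < s := fun s hs => ht1.trans_le hs.1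
  have hr0 : ∀ s ∈ Icc t1 t2, 0 < rho α s := fun s hs => rho_pos hC ha0 ha1 (hpos s hs)
  have hrr : ∀ s ∈ Icc t1 t2, rho α s ≤ min (min (min (min (min (min (min ρM ρA) ρQ) ρB) ρH)
    ρS) ρI) (min (1 / 2) (1 / (6 * max CA 1))) := fun s hs =>
    (hT'ρ s (hpos s hs) (hs.2.trans (ht2.trans (min_le_right _ _)))).2.2
  have hr_M : ∀ s ∈ Icc t1 t2, rho α s ≤ ρM := fun s hs => (hrr s hs).trans
    ((min_le_left _ _).trans ((min_le_left _ _).trans ((min_le_left _ _).trans ((min_le_left _ _).trans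
      ((min_le_left _ _).trans ((min_le_left _ _).trans (min_le_left _ _)))))))
  have hr_A : ∀ s ∈ Icc t1 t2, rho α s ≤ ρA := fun s hs => (hrr s hs).trans
    ((min_le_left _ _).trans ((min_le_left _ _).trans ((min_le_left _ _).trans ((min_le_left _ _).trans
      ((min_le_left _ _).trans ((min_le_left _ _).trans (min_le_right _ _)))))))
  have hr_Q : ∀ s ∈ Icc t1 t2, rho α s ≤ ρQ := fun s hs => (hrr s hs).trans
    ((min_le_left _ _).trans ((min_le_left _ _).trans ((min_le_left _ _).trans ((min_le_left _ _).trans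
      ((min_le_left _ _).trans (min_le_right _ _))))))
  have hr_B : ∀ s ∈ Icc t1 t2, rho α s ≤ ρB := fun s hs => (hrr s hs).trans
    ((min_le_left _ _).trans ((min_le_left _ _).trans ((min_le_left _ _).trans ((min_le_left _ _).trans
      (min_le_right _ _)))))
  have hr_H : ∀ s ∈ Icc t1 t2, rho α s ≤ ρH := fun s hs => (hrr s hs).trans
    ((min_le_left _ _).trans ((min_le_left _ _).trans ((min_le_left _ _).trans (min_le_right _ _))))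
  have hr_S : ∀ s ∈ Icc t1 t2, rho α s ≤ ρS := fun s hs => (hrr s hs).trans
    ((min_le_left _ _).trans ((min_le_left _ _).trans (min_le_right _ _)))
  have hr_I : ∀ s ∈ Icc t1 t2, rho α s ≤ ρI := fun s hs => (hrr s hs).trans
    ((min_le_left _ _).trans (min_le_right _ _))
  have hr_2 : ∀ s ∈ Icc t1 t2, rho α s ≤ 1 / 2 := fun s hs => (hrr s hs).trans
    ((min_le_right _ _).trans (min_le_left _ _))
  have hr_6 : ∀ s ∈ Icc t1 t2, rho α s ≤ 1 / (6 * max CA 1) := fun s hs => (hrr s hs).trans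
    ((min_le_right _ _).trans (min_le_right _ _))
  have ht1m : t1 ∈ Icc t1 t2 := left_mem_Icc.2 h12.le
  have ht2m : t2 ∈ Icc t1 t2 := right_mem_Icc.2 h12.le
  have pwl : ∀ s ∈ Icc t1 t2, ∀ j k : ℕ, j ≤ k → rho α s ^ k ≤ rho α s ^ j := fun s hs j k hjk =>
    pow_le_pow_of_le_one (hr0 s hs).le ((hr_2 s hs).trans (by norm_num)) hjk
  have pws : ∀ s ∈ Icc t1 t2, ∀ j k : ℕ, j < k → rho α s ^ k < rho α s ^ j := fun s hs j k hjk =>
    pow_lt_pow_right_of_lt_one₀ (hr0 s hs) ((hr_2 s hs).trans_lt (by norm_num)) hjk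
  obtain ⟨a, b, a', b', ca', cb', hab⟩ := hMOD N0 T W Wt r r' hT hBg u t1 t2 ht1 h12 ht2T
    (hr_M t2 ht2m) hu
  have ca : ContinuousOn a (Icc t1 t2) := fun s hs => (hab s hs).1.continuousWithinAt
  have cb : ContinuousOn b (Icc t1 t2) := fun s hs => (hab s hs).2.1.continuousWithinAt
  obtain ⟨ch, ce, cq, -⟩ := hK α N0 K T C n Z Y V2 W Wt r r' ha0 ha1 hK64 hT hZ hY hV hBg u t1 t2
    ht1 h12 ht2T hu a b ca cb
  have cr := rho_cont (t2 := t2) hC ha0 ha1 ht1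
  -- initial values
  obtain ⟨i1, i2, i3, i4⟩ := hINI u t1 ht1 (h12.le.trans ht2T) (hr_I t1 ht1m) g hg hug hg0 hg2 hg2'
    hge a b (hab t1 ht1m).2.2.2.2
  have hm1 : 1 ≤ max CH 1 := le_max_right _ _
  have hdiv : rho α t1 ^ (2 * N0) / max CH 1 ≤ rho α t1 ^ (2 * N0) :=
    div_le_self (pow_nonneg (hr0 t1 ht1m).le _) hm1
  have hdiv' : rho α t1 ^ (2 * N0) / max CH 1 ≤ rho α t1 ^ N0 :=
    hdiv.trans (pwl t1 ht1m _ _ (by omega))
  have hin : |a t1| ≤ rho α t1 ^ N0 ∧ |b t1| ≤ rho α t1 ^ N0 ∧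
      |qq α Y (etaI α Z V2 u W a b) t1| ≤ rho α t1 ^ N0 ∧
      CH * hsq α K (etaI α Z V2 u W a b) t1 ≤ rho α t1 ^ (2 * N0) := by
    refine ⟨i1.trans hdiv', i2.trans hdiv', i3.trans hdiv', ?_⟩
    calc CH * hsq α K (etaI α Z V2 u W a b) t1
        ≤ max CH 1 * (rho α t1 ^ (2 * N0) / max CH 1) :=
          mul_le_mul (le_max_left _ _) i4 (hsq_nonneg' hK64 _ _ (hr0 t1 ht1m)) hC0.le
      _ = rho α t1 ^ (2 * N0) := by field_simp
  have hmass : ∀ s ∈ Icc t1 t2, |a s| ≤ rho α s → |b s| ≤ rho α s →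
      hsq α K (etaI α Z V2 u W a b) s ≤ rho α s ^ 2 →
      (∫ y, etaI α Z V2 u W a b s y ^ 2) ≤ 2 * (∫ x, g x ^ 2) + min ε (δH / 4) :=
    fun s hs h1 h2 h3 => hMS u t1 t2 ht1 h12 ht2T (hr_S t2 ht2m) hu g hug hg0 hg2 a b s hs h1 h2 h3
  have hsmall : 2 * (∫ x, g x ^ 2) + min ε (δH / 4) < δH := by
    have := min_le_right ε (δH / 4)
    linarith
  have pr : ∀ s ∈ Icc t1 t2, ∀ k : ℕ, 1 ≤ k → rho α s ^ k ≤ rho α s := fun s hs k hk => by
    have := pwl s hs 1 k hk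
    rwa [pow_one] at this
  have hstep : ∀ t ∈ Ioc t1 t2, (∀ s ∈ Icc t1 t, hsq α K (etaI α Z V2 u W a b) s ≤ rho α s ^ (2 * N) ∧
      |a s| ≤ rho α s ^ (N - 1) ∧ |b s| ≤ rho α s ^ (N - 2) ∧
      |qq α Y (etaI α Z V2 u W a b) s| ≤ rho α s ^ (N + 1) ∧
      (∫ y, etaI α Z V2 u W a b s y ^ 2) ≤ δH) →
      ∀ s ∈ Icc t1 t, hsq α K (etaI α Z V2 u W a b) s ≤ rho α s ^ (2 * N) / 2 ∧
      |a s| ≤ rho α s ^ (N - 1) / 2 ∧ |b s| ≤ rho α s ^ (N - 2) / 2 ∧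
      |qq α Y (etaI α Z V2 u W a b) s| ≤ rho α s ^ (N + 1) / 2 ∧
      |AA α a b a' s| + |BB α a b b' s| ≤ CA * (Real.sqrt (hsq α K (etaI α Z V2 u W a b) s)
          + rho α s ^ 2 * |a s| + rho α s ^ 3 * |b s| + a s ^ 2 + b s ^ 2 + rho α s ^ N0) ∧
      (∫ τ in t1..s, disp α K (etaI α Z V2 u W a b) τ / lam α τ ^ 3) ≤ rho α s ^ (2 * N) := by
    intro t ht hbd
    have htm : t ∈ Icc t1 t2 := ⟨ht.1.le, ht.2⟩
    have hsub : Icc t1 t ⊆ Icc t1 t2 := Icc_subset_Icc le_rfl ht.2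
    exact near_step hC hK ha0 ha1 hK64 hZ hY hV h6 hNN hLA hLQ hCH hAB hQB hHB hBoot hHIN hT hρT hBg
      ht1 ht.1 (ht.2.trans ht2T) (hr_A t htm) (hr_Q t htm) (hr_B t htm) (hr_H t htm)
      (hu.mono le_rfl ht.2) (ca'.mono hsub) (cb'.mono hsub)
      (fun s hs => ⟨(hab s (hsub hs)).1.mono hsub, (hab s (hsub hs)).2.1.mono hsub,
        (hab s (hsub hs)).2.2.1, (hab s (hsub hs)).2.2.2.1⟩) hin hbd
  -- the continuity argument
  have hboot := hBC 5 t1 t2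
    (fun i => match i with
      | 0 => hsq α K (etaI α Z V2 u W a b)
      | 1 => fun t => |a t|
      | 2 => fun t => |b t|
      | 3 => fun t => |qq α Y (etaI α Z V2 u W a b) t|
      | 4 => fun t => ∫ y, etaI α Z V2 u W a b t y ^ 2)
    (fun i => match i with
      | 0 => fun t => rho α t ^ (2 * N)
      | 1 => fun t => rho α t ^ (N - 1)
      | 2 => fun t => rho α t ^ (N - 2)
      | 3 => fun t => rho α t ^ (N + 1)
      | 4 => fun _ => δH) h12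
    (fun i => match i with
      | 0 => ch
      | 1 => ca.abs
      | 2 => cb.abs
      | 3 => cq.abs
      | 4 => ce)
    (fun i => match i with
      | 0 => cr.pow _
      | 1 => cr.pow _
      | 2 => cr.pow _
      | 3 => cr.pow _
      | 4 => continuousOn_const)
    (fun i => match i with
      | 0 => (i4.trans hdiv).trans_lt (pws t1 ht1m _ _ (by omega))
      | 1 => hin.1.trans_lt (pws t1 ht1m _ _ (by omega))
      | 2 => hin.2.1.trans_lt (pws t1 ht1m _ _ (by omega))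
      | 3 => hin.2.2.1.trans_lt (pws t1 ht1m _ _ (by omega))
      | 4 => (hmass t1 ht1m (hin.1.trans (pr t1 ht1m _ (by omega)))
          (hin.2.1.trans (pr t1 ht1m _ (by omega)))
          ((i4.trans hdiv).trans (pwl t1 ht1m _ _ (by omega)))).trans_lt hsmall)
    (fun t ht hle => by
      have htm : t ∈ Icc t1 t2 := ⟨ht.1.le, ht.2⟩
      obtain ⟨s1, s2, s3, s4, -, -⟩ := hstep t ht (fun s hs => ⟨hle s hs 0, hle s hs 1, hle s hs 2,
        hle s hs 3, hle s hs 4⟩) t (right_mem_Icc.2 ht.1.le)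
      have hp : ∀ k : ℕ, rho α t ^ k / 2 < rho α t ^ k := fun k =>
        half_lt_self (pow_pos (hr0 t htm) k)
      exact fun i => match i with
        | 0 => s1.trans_lt (hp _)
        | 1 => s2.trans_lt (hp _)
        | 2 => s3.trans_lt (hp _)
        | 3 => s4.trans_lt (hp _)
        | 4 => (hmass t htm ((s2.trans (hp _).le).trans (pr t htm _ (by omega)))
            ((s3.trans (hp _).le).trans (pr t htm _ (by omega)))
            ((s1.trans (hp _).le).trans (pwl t htm _ _ (by omega)))).trans_lt hsmall)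
  have hfin := hstep t2 ⟨h12, le_rfl⟩ (fun s hs => ⟨(hboot s hs 0).le, (hboot s hs 1).le,
    (hboot s hs 2).le, (hboot s hs 3).le, (hboot s hs 4).le⟩)
  refine ⟨a, b, a', b', ca', cb', fun t ht => ?_⟩
  obtain ⟨f1, f2, f3, f4, f5, f6⟩ := hfin t ht
  have e1 : hsq α K (etaI α Z V2 u W a b) t ≤ rho α t ^ (2 * N) := (hboot t ht 0).le
  have e2 : |a t| ≤ rho α t ^ (N - 1) := (hboot t ht 1).le
  have e3 : |b t| ≤ rho α t ^ (N - 2) := (hboot t ht 2).le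
  refine ⟨(hab t ht).1, (hab t ht).2.1, (hab t ht).2.2.1, (hab t ht).2.2.2.1, e2, e3, e1, ?_, ?_, f6⟩
  · exact (hmass t ht (e2.trans (pr t ht _ (by omega))) (e3.trans (pr t ht _ (by omega)))
      (e1.trans (pwl t ht _ _ (by omega)))).trans (by linarith [min_le_left ε (δH / 4)])
  · refine f5.trans ?_
    have hr := hr0 t ht
    have q1 : Real.sqrt (hsq α K (etaI α Z V2 u W a b) t) ≤ rho α t ^ N := by
      rw [Real.sqrt_le_left (pow_nonneg hr.le _), ← pow_mul, mul_comm N 2]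
      exact e1
    have q2 : rho α t ^ 2 * |a t| ≤ rho α t ^ N := by
      calc rho α t ^ 2 * |a t| ≤ rho α t ^ 2 * rho α t ^ (N - 1) :=
            mul_le_mul_of_nonneg_left e2 (by positivity)
        _ = rho α t ^ (2 + (N - 1)) := by rw [pow_add]
        _ ≤ rho α t ^ N := pwl t ht _ _ (by omega)
    have q3 : rho α t ^ 3 * |b t| ≤ rho α t ^ N := by
      calc rho α t ^ 3 * |b t| ≤ rho α t ^ 3 * rho α t ^ (N - 2) :=
            mul_le_mul_of_nonneg_left e3 (by positivity)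
        _ = rho α t ^ (3 + (N - 2)) := by rw [pow_add]
        _ ≤ rho α t ^ N := pwl t ht _ _ (by omega)
    have q4 : a t ^ 2 ≤ rho α t ^ N := by
      calc a t ^ 2 = |a t| ^ 2 := (sq_abs _).symm
        _ ≤ (rho α t ^ (N - 1)) ^ 2 := pow_le_pow_left₀ (abs_nonneg _) e2 2
        _ = rho α t ^ ((N - 1) * 2) := by rw [pow_mul]
        _ ≤ rho α t ^ N := pwl t ht _ _ (by omega)
    have q5 : b t ^ 2 ≤ rho α t ^ N := by
      calc b t ^ 2 = |b t| ^ 2 := (sq_abs _).symm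
        _ ≤ (rho α t ^ (N - 2)) ^ 2 := pow_le_pow_left₀ (abs_nonneg _) e3 2
        _ = rho α t ^ ((N - 2) * 2) := by rw [pow_mul]
        _ ≤ rho α t ^ N := pwl t ht _ _ (by omega)
    have q6 : rho α t ^ N0 ≤ rho α t ^ N := pwl t ht _ _ (by omega)
    have q7 : 0 ≤ Real.sqrt (hsq α K (etaI α Z V2 u W a b) t)
          + rho α t ^ 2 * |a t| + rho α t ^ 3 * |b t| + a t ^ 2 + b t ^ 2 + rho α t ^ N0 := by
      positivity
    have hm : 0 < max CA 1 := lt_max_of_lt_right one_pos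
    have q8 := hr_6 t ht
    rw [le_div_iff₀ (by positivity)] at q8
    calc CA * (Real.sqrt (hsq α K (etaI α Z V2 u W a b) t)
          + rho α t ^ 2 * |a t| + rho α t ^ 3 * |b t| + a t ^ 2 + b t ^ 2 + rho α t ^ N0)
        ≤ max CA 1 * (Real.sqrt (hsq α K (etaI α Z V2 u W a b) t)
          + rho α t ^ 2 * |a t| + rho α t ^ 3 * |b t| + a t ^ 2 + b t ^ 2 + rho α t ^ N0) :=
          mul_le_mul_of_nonneg_right (le_max_left _ _) q7
      _ ≤ max CA 1 * (6 * rho α t ^ N) := by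
          refine mul_le_mul_of_nonneg_left ?_ hm.le
          linarith
      _ = (rho α t * (6 * max CA 1)) * rho α t ^ (N - 1) := by
          have : rho α t ^ N = rho α t * rho α t ^ (N - 1) := by
            rw [← pow_succ', Nat.sub_add_cancel (by omega)]
          rw [this]; ring
      _ ≤ 1 * rho α t ^ (N - 1) := mul_le_mul_of_nonneg_right q8 (by positivity)
      _ = rho α t ^ (N - 1) := one_mul _

end Pool.Agent.Helper33.KV
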